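import Mathlib

/-!
Second order calculus for real functions on `ℂ × ℂ`: Levi forms.
-/

set_option autoImplicit false

open Complex Filter Topology Set

namespace Pool.Agent.H914R3.LF

/-- The second derivative of a real function on `ℂ²` as a real bilinear form. -/
noncomputable def B2 (u : ℂ × ℂ → ℝ) (p v w : ℂ × ℂ) : ℝ := fderiv ℝ (fderiv ℝ u) p v w

/-- The Levi form `∑ ∂²u/∂z_j∂z̄_k v_j v̄_k` of a real function on `ℂ²`. -/
noncomputable def lev (u : ℂ × ℂ → ℝ) (p v : ℂ × ℂ) : ℝ :=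
  (B2 u p v v + B2 u p (I • v) (I • v)) / 4

theorem line_cont (p v : ℂ × ℂ) : Continuous fun t : ℝ => p + t • v := by fun_prop

theorem line_deriv (p v : ℂ × ℂ) (t : ℝ) : HasDerivAt (fun t : ℝ => p + t • v) v t := by
  have := ((hasDerivAt_id t).smul_const v).const_add p
  simpa using this

theorem line_jet {u : ℂ × ℂ → ℝ} {p : ℂ × ℂ} (hu : ContDiffAt ℝ 2 u p) (v : ℂ × ℂ) :
    (∀ᶠ t in 𝓝 (0 : ℝ), HasDerivAt (fun s : ℝ => u (p + s • v)) (fderiv ℝ u (p + t • v) v) t) ∧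
    HasDerivAt (fun t : ℝ => fderiv ℝ u (p + t • v) v) (B2 u p v v) 0 := by
  have hL : Tendsto (fun t : ℝ => p + t • v) (𝓝 0) (𝓝 p) := by
    have := (line_cont p v).tendsto 0
    simpa using this
  constructor
  · have h1 : ∀ᶠ x in 𝓝 p, DifferentiableAt ℝ u x := by
      have := hu.eventually (by simp)
      filter_upwards [this] with x hx using hx.differentiableAt (by simp)
    filter_upwards [hL.eventually h1] with t ht
    exact ht.hasFDerivAt.comp_hasDerivAt t (line_deriv p v t)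
  · have h2 : DifferentiableAt ℝ (fderiv ℝ u) p :=
      (hu.fderiv_right (m := 1) (by norm_num)).differentiableAt (by simp)
    have h3 : HasFDerivAt (fderiv ℝ u) (fderiv ℝ (fderiv ℝ u) p) (p + (0 : ℝ) • v) := by
      simpa using h2.hasFDerivAt
    have h4 := h3.comp_hasDerivAt (0 : ℝ) (line_deriv p v 0)
    exact (ContinuousLinearMap.apply ℝ ℝ v).hasFDerivAt.comp_hasDerivAt (0 : ℝ) h4

theorem of_line {u : ℂ × ℂ → ℝ} {p v : ℂ × ℂ} (hu : ContDiffAt ℝ 2 u p) {g1 : ℝ → ℝ} {b : ℝ}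
    (h1 : ∀ᶠ t in 𝓝 (0 : ℝ), HasDerivAt (fun s : ℝ => u (p + s • v)) (g1 t) t)
    (h2 : HasDerivAt g1 b 0) : fderiv ℝ u p v = g1 0 ∧ B2 u p v v = b := by
  obtain ⟨k1, k2⟩ := line_jet hu v
  have h3 : (fun t : ℝ => fderiv ℝ u (p + t • v) v) =ᶠ[𝓝 0] g1 := by
    filter_upwards [h1, k1] with t ht1 ht2 using ht2.unique ht1
  refine ⟨?_, ?_⟩
  · have := h3.eq_of_nhds
    simpa using this
  · exact (k2.congr_of_eventuallyEq h3.symm).unique h2

/-- first and second derivative in one direction -/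
structure Jet (u : ℂ × ℂ → ℝ) (p v : ℂ × ℂ) (a b : ℝ) : Prop where
  cd : ContDiffAt ℝ 2 u p
  d1 : fderiv ℝ u p v = a
  d2 : B2 u p v v = b

theorem Jet.mk' {u : ℂ × ℂ → ℝ} {p : ℂ × ℂ} (hu : ContDiffAt ℝ 2 u p) (v : ℂ × ℂ) :
    Jet u p v (fderiv ℝ u p v) (B2 u p v v) := ⟨hu, rfl, rfl⟩

theorem Jet.comp {u : ℂ × ℂ → ℝ} {p v : ℂ × ℂ} {a b : ℝ} (h : Jet u p v a b) {φ φ1 : ℝ → ℝ}
    {c : ℝ} (hφ : ContDiffAt ℝ 2 φ (u p)) (h1 : ∀ᶠ x in 𝓝 (u p), HasDerivAt φ (φ1 x) x)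
    (h2 : HasDerivAt φ1 c (u p)) :
    Jet (fun x => φ (u x)) p v (φ1 (u p) * a) (c * a ^ 2 + φ1 (u p) * b) := by
  have hcd : ContDiffAt ℝ 2 (fun x => φ (u x)) p := hφ.comp p h.cd
  obtain ⟨k1, k2⟩ := line_jet h.cd v
  have hL : Tendsto (fun t : ℝ => u (p + t • v)) (𝓝 0) (𝓝 (u p)) := by
    have h3 : ContinuousAt u (p + (0 : ℝ) • v) := by simpa using h.cd.continuousAt
    have := (h3.comp (f := fun t : ℝ => p + t • v) (line_cont p v).continuousAt)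
    simpa [ContinuousAt, Function.comp_def] using this
  have e1 : ∀ᶠ t in 𝓝 (0 : ℝ), HasDerivAt (fun s : ℝ => φ (u (p + s • v)))
      (φ1 (u (p + t • v)) * fderiv ℝ u (p + t • v) v) t := by
    filter_upwards [k1, hL.eventually h1] with t ht1 ht2
    exact ht2.comp t ht1
  have k0 := k1.self_of_nhds
  have h2' : HasDerivAt φ1 c (u (p + (0 : ℝ) • v)) := by simpa using h2
  have e2 := (h2'.comp (0 : ℝ) k0).mul k2
  obtain ⟨r1, r2⟩ := of_line hcd e1 e2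
  refine ⟨hcd, ?_, ?_⟩
  · rw [r1]; simp [h.d1]
  · rw [r2]; simp [h.d1, h.d2]; ring

theorem Jet.add {u w : ℂ × ℂ → ℝ} {p v : ℂ × ℂ} {a b a' b' : ℝ} (h : Jet u p v a b)
    (h' : Jet w p v a' b') : Jet (fun x => u x + w x) p v (a + a') (b + b') := by
  obtain ⟨k1, k2⟩ := line_jet h.cd v
  obtain ⟨k1', k2'⟩ := line_jet h'.cd v
  have hcd : ContDiffAt ℝ 2 (fun x => u x + w x) p := h.cd.add h'.cd
  have e1 : ∀ᶠ t in 𝓝 (0 : ℝ), HasDerivAt (fun s : ℝ => u (p + s • v) + w (p + s • v))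
      (fderiv ℝ u (p + t • v) v + fderiv ℝ w (p + t • v) v) t := by
    filter_upwards [k1, k1'] with t ht1 ht2 using ht1.add ht2
  obtain ⟨r1, r2⟩ := of_line hcd e1 (k2.add k2')
  refine ⟨hcd, ?_, ?_⟩
  · rw [r1]; simp [h.d1, h'.d1]
  · rw [r2, h.d2, h'.d2]

theorem Jet.mul {u w : ℂ × ℂ → ℝ} {p v : ℂ × ℂ} {a b a' b' : ℝ} (h : Jet u p v a b)
    (h' : Jet w p v a' b') :
    Jet (fun x => u x * w x) p v (a * w p + u p * a') (b * w p + 2 * a * a' + u p * b') := by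
  obtain ⟨k1, k2⟩ := line_jet h.cd v
  obtain ⟨k1', k2'⟩ := line_jet h'.cd v
  have hcd : ContDiffAt ℝ 2 (fun x => u x * w x) p := h.cd.mul h'.cd
  have e1 : ∀ᶠ t in 𝓝 (0 : ℝ), HasDerivAt (fun s : ℝ => u (p + s • v) * w (p + s • v))
      (fderiv ℝ u (p + t • v) v * w (p + t • v) + u (p + t • v) * fderiv ℝ w (p + t • v) v) t := by
    filter_upwards [k1, k1'] with t ht1 ht2 using ht1.mul ht2
  have k0 := k1.self_of_nhds
  have k0' := k1'.self_of_nhds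
  obtain ⟨r1, r2⟩ := of_line hcd e1 ((k2.mul k0').add (k0.mul k2'))
  refine ⟨hcd, ?_, ?_⟩
  · rw [r1]; simp [h.d1, h'.d1]
  · rw [r2]; simp [h.d1, h'.d1, h.d2, h'.d2]; ring

theorem Jet.const_mul {u : ℂ × ℂ → ℝ} {p v : ℂ × ℂ} {a b : ℝ} (h : Jet u p v a b) (c : ℝ) :
    Jet (fun x => c * u x) p v (c * a) (c * b) := by
  have := h.comp (φ := fun x => c * x) (φ1 := fun _ => c) (c := 0) (by fun_prop)
    (Eventually.of_forall fun x => by simpa using (hasDerivAt_id x).const_mul c)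
    (hasDerivAt_const _ _)
  simpa using this

theorem Jet.neg {u : ℂ × ℂ → ℝ} {p v : ℂ × ℂ} {a b : ℝ} (h : Jet u p v a b) :
    Jet (fun x => -u x) p v (-a) (-b) := by
  have := h.const_mul (-1)
  simpa using this

theorem Jet.log {u : ℂ × ℂ → ℝ} {p v : ℂ × ℂ} {a b : ℝ} (h : Jet u p v a b) (hp : 0 < u p) :
    Jet (fun x => Real.log (u x)) p v (a / u p) ((u p * b - a ^ 2) / (u p) ^ 2) := by
  have := h.comp (φ := Real.log) (φ1 := fun x => x⁻¹) (c := -((u p) ^ 2)⁻¹)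
    (Real.contDiffAt_log.mpr hp.ne')
    (by filter_upwards [eventually_ne_nhds hp.ne'] with x hx using Real.hasDerivAt_log hx)
    (hasDerivAt_inv hp.ne')
  refine ⟨this.cd, ?_, ?_⟩
  · rw [this.d1]; field_simp
  · rw [this.d2]; field_simp; ring

theorem Jet.exp {u : ℂ × ℂ → ℝ} {p v : ℂ × ℂ} {a b : ℝ} (h : Jet u p v a b) :
    Jet (fun x => Real.exp (u x)) p v (Real.exp (u p) * a)
      (Real.exp (u p) * (a ^ 2 + b)) := by
  have := h.comp (φ := Real.exp) (φ1 := Real.exp) (c := Real.exp (u p))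
    Real.contDiff_exp.contDiffAt
    (Eventually.of_forall fun x => Real.hasDerivAt_exp x) (Real.hasDerivAt_exp _)
  refine ⟨this.cd, this.d1, ?_⟩
  rw [this.d2]; ring

theorem Jet.congr {u w : ℂ × ℂ → ℝ} {p v : ℂ × ℂ} {a b : ℝ} (h : Jet u p v a b)
    (he : w =ᶠ[𝓝 p] u) : Jet w p v a b := by
  refine ⟨h.cd.congr_of_eventuallyEq he, ?_, ?_⟩
  · rw [he.fderiv_eq, h.d1]
  · unfold B2
    rw [he.fderiv.fderiv_eq]; exact h.d2

theorem B2_congr {u w : ℂ × ℂ → ℝ} {p : ℂ × ℂ} (he : w =ᶠ[𝓝 p] u) (v v' : ℂ × ℂ) :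
    B2 w p v v' = B2 u p v v' := by
  unfold B2
  rw [he.fderiv.fderiv_eq]

theorem lev_congr {u w : ℂ × ℂ → ℝ} {p : ℂ × ℂ} (he : w =ᶠ[𝓝 p] u) (v : ℂ × ℂ) :
    lev w p v = lev u p v := by
  unfold lev
  rw [B2_congr he, B2_congr he]

theorem lev_of_jet {u : ℂ × ℂ → ℝ} {p v : ℂ × ℂ} {a b a' b' : ℝ} (h : Jet u p v a b)
    (h' : Jet u p (I • v) a' b') : lev u p v = (b + b') / 4 := by
  unfold lev; rw [h.d2, h'.d2]

/-- The Levi form in a coordinate direction. -/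
theorem lev_fst (u : ℂ × ℂ → ℝ) (p : ℂ × ℂ) (ζ : ℂ) :
    lev u p (ζ, 0) = ‖ζ‖ ^ 2 * lev u p (1, 0) := by
  have e1 : ((ζ, 0) : ℂ × ℂ) = ζ.re • (1, 0) + ζ.im • (I • (1, 0)) := by
    ext
    · apply Complex.ext <;> simp
    · simp
  have e2 : I • ((ζ, 0) : ℂ × ℂ) = (-ζ.im) • (1, 0) + ζ.re • (I • (1, 0)) := by
    ext
    · apply Complex.ext <;> simp
    · simp
  unfold lev B2
  rw [e2, e1]
  simp only [map_add, map_smul, add_apply, _root_.smul_apply, smul_eq_mul]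
  rw [← normSq_eq_norm_sq, normSq_apply]
  ring

theorem lev_ge (u : ℂ × ℂ → ℝ) (p : ℂ × ℂ) (ζ β : ℂ) {M : ℝ}
    (hM : ‖fderiv ℝ (fderiv ℝ u) p‖ ≤ M) :
    ‖ζ‖ ^ 2 * lev u p (1, 0) - M * (‖ζ‖ * ‖β‖) - M * ‖β‖ ^ 2 / 2 ≤ lev u p (ζ, β) := by
  rw [← lev_fst]
  have hb : ∀ v w : ℂ × ℂ, |B2 u p v w| ≤ M * (‖v‖ * ‖w‖) := by
    intro v w
    unfold B2
    have h1 := (fderiv ℝ (fderiv ℝ u) p).le_opNorm₂ v w
    rw [Real.norm_eq_abs] at h1
    refine h1.trans ?_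
    rw [mul_assoc]
    exact mul_le_mul_of_nonneg_right hM (by positivity)
  have e : ((ζ, β) : ℂ × ℂ) = (ζ, 0) + (0, β) := by simp
  have ex : ∀ a b : ℂ × ℂ, B2 u p (a + b) (a + b) = B2 u p a a + B2 u p a b + B2 u p b a +
      B2 u p b b := by
    intro a b
    unfold B2
    simp only [map_add, ContinuousLinearMap.add_apply]
    ring
  unfold lev
  rw [e, smul_add, ex, ex]
  have n1 : ‖((ζ, 0) : ℂ × ℂ)‖ = ‖ζ‖ := by simp [Prod.norm_def]
  have n2 : ‖((0, β) : ℂ × ℂ)‖ = ‖β‖ := by simp [Prod.norm_def]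
  have n3 : ‖I • ((ζ, 0) : ℂ × ℂ)‖ = ‖ζ‖ := by rw [norm_smul, n1]; simp
  have n4 : ‖I • ((0, β) : ℂ × ℂ)‖ = ‖β‖ := by rw [norm_smul, n2]; simp
  have b1 := hb (ζ, 0) (0, β)
  have b2 := hb (0, β) (ζ, 0)
  have b3 := hb (0, β) (0, β)
  have b4 := hb (I • (ζ, 0)) (I • (0, β))
  have b5 := hb (I • (0, β)) (I • (ζ, 0))
  have b6 := hb (I • (0, β)) (I • (0, β))
  rw [n1, n2] at b1 b2
  rw [n2] at b3
  rw [n3, n4] at b4 b5
  rw [n4] at b6
  have c1 := (abs_le.mp b1).1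
  have c2 := (abs_le.mp b2).1
  have c3 := (abs_le.mp b3).1
  have c4 := (abs_le.mp b4).1
  have c5 := (abs_le.mp b5).1
  have c6 := (abs_le.mp b6).1
  nlinarith

/-- The Levi form is invariant under holomorphic maps. -/
theorem lev_holo {u : ℂ × ℂ → ℝ} {Gm : ℂ × ℂ → ℂ × ℂ} {p : ℂ × ℂ} (hG : ContDiffAt ℂ 2 Gm p)
    (hu : ContDiffAt ℝ 2 u (Gm p)) (v : ℂ × ℂ) :
    lev (fun x => u (Gm x)) p v = lev u (Gm p) (fderiv ℂ Gm p v) := by
  have hGR : ContDiffAt ℝ 2 Gm p := hG.restrict_scalars ℝ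
  have hcd : ContDiffAt ℝ 2 (fun x => u (Gm x)) p := hu.comp p hGR
  have hA : DifferentiableAt ℂ (fderiv ℂ Gm) p :=
    (hG.fderiv_right (m := 1) (by norm_num)).differentiableAt (by simp)
  have key : ∀ v : ℂ × ℂ, B2 (fun x => u (Gm x)) p v v =
      B2 u (Gm p) (fderiv ℂ Gm p v) (fderiv ℂ Gm p v) +
      fderiv ℝ u (Gm p) (fderiv ℂ (fderiv ℂ Gm) p v v) := by
    intro v
    have hL : Tendsto (fun t : ℝ => p + t • v) (𝓝 0) (𝓝 p) := by
      have := (line_cont p v).tendsto 0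
      simpa using this
    have h1 : ∀ᶠ x in 𝓝 p, DifferentiableAt ℂ Gm x := by
      have := hG.eventually (by simp)
      filter_upwards [this] with x hx using hx.differentiableAt (by simp)
    have h2 : ∀ᶠ x in 𝓝 p, DifferentiableAt ℝ u (Gm x) := by
      have h3 := hu.eventually (by simp)
      have h4 := hGR.continuousAt.eventually h3
      filter_upwards [h4] with x hx using hx.differentiableAt (by simp)
    have e1 : ∀ᶠ t in 𝓝 (0 : ℝ), HasDerivAt (fun s : ℝ => u (Gm (p + s • v)))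
        (fderiv ℝ u (Gm (p + t • v)) (fderiv ℂ Gm (p + t • v) v)) t := by
      filter_upwards [hL.eventually h1, hL.eventually h2] with t ht1 ht2
      have h7 : HasFDerivAt Gm ((fderiv ℂ Gm (p + t • v)).restrictScalars ℝ) (p + t • v) :=
        ht1.hasFDerivAt.restrictScalars ℝ
      have h5 : HasDerivAt (fun s : ℝ => Gm (p + s • v)) (fderiv ℂ Gm (p + t • v) v) t :=
        HasFDerivAt.comp_hasDerivAt (f := fun t : ℝ => p + t • v) t h7 (line_deriv p v t)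
      exact ht2.hasFDerivAt.comp_hasDerivAt t h5
    have hp0 : p + (0 : ℝ) • v = p := by simp
    have h6 : HasDerivAt (fun s : ℝ => Gm (p + s • v)) (fderiv ℂ Gm p v) 0 := by
      have h7 : HasFDerivAt Gm ((fderiv ℂ Gm p).restrictScalars ℝ) (p + (0 : ℝ) • v) := by
        rw [hp0]; exact (h1.self_of_nhds.hasFDerivAt).restrictScalars ℝ
      exact h7.comp_hasDerivAt (0 : ℝ) (line_deriv p v 0)
    have h8 : HasDerivAt (fun s : ℝ => fderiv ℝ u (Gm (p + s • v)))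
        (fderiv ℝ (fderiv ℝ u) (Gm p) (fderiv ℂ Gm p v)) 0 := by
      have h9 : DifferentiableAt ℝ (fderiv ℝ u) (Gm p) :=
        (hu.fderiv_right (m := 1) (by norm_num)).differentiableAt (by simp)
      have h10 : HasFDerivAt (fderiv ℝ u) (fderiv ℝ (fderiv ℝ u) (Gm p)) (Gm (p + (0 : ℝ) • v)) := by
        rw [hp0]; exact h9.hasFDerivAt
      exact h10.comp_hasDerivAt (0 : ℝ) h6
    have h11 : HasDerivAt (fun s : ℝ => fderiv ℂ Gm (p + s • v) v)
        (fderiv ℂ (fderiv ℂ Gm) p v v) 0 := by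
      have h12 : HasFDerivAt (fderiv ℂ Gm) ((fderiv ℂ (fderiv ℂ Gm) p).restrictScalars ℝ)
          (p + (0 : ℝ) • v) := by
        rw [hp0]; exact (hA.hasFDerivAt).restrictScalars ℝ
      have h13 := h12.comp_hasDerivAt (0 : ℝ) (line_deriv p v 0)
      exact ((ContinuousLinearMap.apply ℂ (ℂ × ℂ) v).restrictScalars ℝ).hasFDerivAt.comp_hasDerivAt
        (0 : ℝ) h13
    have e2 := h8.clm_apply h11
    obtain ⟨-, r2⟩ := of_line hcd e1 e2
    rw [r2]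
    simp only [hp0]
    unfold B2
    ring
  unfold lev
  rw [key v, key (I • v)]
  have e3 : fderiv ℂ (fderiv ℂ Gm) p (I • v) (I • v) = -(fderiv ℂ (fderiv ℂ Gm) p v v) := by
    rw [map_smul, map_smul, ContinuousLinearMap.smul_apply, smul_smul, I_mul_I]
    simp
  rw [e3, map_neg, map_smul]
  ring

end Pool.Agent.H914R3.LF
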