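import Mathlib

/-!
A Schottky group in `SL(2, ℝ)` with two generators, acting on `ℂ²` and on `ℂ` by Möbius maps:
growth along reduced words.
-/

set_option autoImplicit false

open Complex

namespace Pool.Agent.H914R3.LF

abbrev SL2 := Matrix.SpecialLinearGroup (Fin 2) ℝ

/-- the linear action on `ℂ²` -/
def act (M : SL2) (Z : ℂ × ℂ) : ℂ × ℂ :=
  ((M.1 0 0 : ℂ) * Z.1 + (M.1 0 1 : ℂ) * Z.2, (M.1 1 0 : ℂ) * Z.1 + (M.1 1 1 : ℂ) * Z.2)

theorem act_one (Z : ℂ × ℂ) : act 1 Z = Z := by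
  ext <;> simp [act]

theorem act_mul (M N : SL2) (Z : ℂ × ℂ) : act (M * N) Z = act M (act N Z) := by
  ext
  · simp [act, Matrix.mul_apply, Fin.sum_univ_two]; ring
  · simp [act, Matrix.mul_apply, Fin.sum_univ_two]; ring

theorem act_smul (M : SL2) (c : ℂ) (Z : ℂ × ℂ) : act M (c • Z) = c • act M Z := by
  ext
  · simp [act]; ring
  · simp [act]; ring

/-- the two generators -/
noncomputable def gen (i : Fin 2) : SL2 :=
  if i = 0 then ⟨!![100, 0; 0, 1 / 100], by norm_num [Matrix.det_fin_two]⟩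
  else ⟨!![10001 / 200, 9999 / 200; 9999 / 200, 10001 / 200], by norm_num [Matrix.det_fin_two]⟩

abbrev G := FreeGroup (Fin 2)

/-- the representation of the free group -/
noncomputable def rho : G →* SL2 := FreeGroup.lift gen

/-- the matrix of a letter -/
noncomputable def lm (x : Fin 2 × Bool) : SL2 := cond x.2 (gen x.1) (gen x.1)⁻¹

theorem rho_mk (L : List (Fin 2 × Bool)) : rho (FreeGroup.mk L) = (L.map lm).prod :=
  FreeGroup.lift_mk

theorem rho_word (g : G) : rho g = (g.toWord.map lm).prod := by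
  conv_lhs => rw [← FreeGroup.mk_toWord (x := g)]
  exact rho_mk _

/-- expanding coordinate of a letter -/
def es (x : Fin 2 × Bool) (Z : ℂ × ℂ) : ℂ :=
  if x.1 = 0 then (if x.2 then Z.1 else Z.2) else (if x.2 then Z.1 + Z.2 else Z.1 - Z.2)

/-- contracting coordinate of a letter -/
def cs (x : Fin 2 × Bool) (Z : ℂ × ℂ) : ℂ :=
  if x.1 = 0 then (if x.2 then Z.2 else Z.1) else (if x.2 then Z.1 - Z.2 else Z.1 + Z.2)

/-- the polynomial whose zeros are the fixed lines of the generators -/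
def NN (Z : ℂ × ℂ) : ℂ := Z.1 * Z.2 * (Z.1 ^ 2 - Z.2 ^ 2)

theorem NN_smul (c : ℂ) (Z : ℂ × ℂ) : NN (c • Z) = c ^ 4 * NN Z := by
  simp [NN]; ring

theorem gen0_val : (gen 0).1 = !![100, 0; 0, 1 / 100] := by simp [gen]

theorem gen1_val : (gen 1).1 =
    !![10001 / 200, 9999 / 200; 9999 / 200, 10001 / 200] := by simp [gen]

theorem inv_val (M : SL2) : (M⁻¹).1 = !![M.1 1 1, -M.1 0 1; -M.1 1 0, M.1 0 0] := by
  have := Matrix.adjugate_fin_two M.1
  rw [← this]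
  exact Matrix.SpecialLinearGroup.coe_inv M

theorem lm_val (x : Fin 2 × Bool) (Z : ℂ × ℂ) : act (lm x) Z =
    if x.1 = 0 then (if x.2 then (100 * Z.1, (1 / 100) * Z.2) else ((1 / 100) * Z.1, 100 * Z.2))
    else (if x.2 then ((10001 / 200) * Z.1 + (9999 / 200) * Z.2,
        (9999 / 200) * Z.1 + (10001 / 200) * Z.2)
      else ((10001 / 200) * Z.1 - (9999 / 200) * Z.2, -(9999 / 200) * Z.1 + (10001 / 200) * Z.2)) := by
  rcases x with ⟨i, b⟩
  fin_cases i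
  · cases b
    · show act (gen 0)⁻¹ Z = _
      simp [act, inv_val, gen0_val]
    · show act (gen 0) Z = _
      simp [act, gen0_val]
  · cases b
    · show act (gen 1)⁻¹ Z = _
      simp [act, inv_val, gen1_val]
      ring
    · show act (gen 1) Z = _
      simp [act, gen1_val]

theorem es_act (x : Fin 2 × Bool) (Z : ℂ × ℂ) : es x (act (lm x) Z) = 100 * es x Z := by
  rw [lm_val]
  rcases x with ⟨i, b⟩
  fin_cases i <;> cases b <;> simp [es] <;> ring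

theorem cs_act (x : Fin 2 × Bool) (Z : ℂ × ℂ) : cs x (act (lm x) Z) = (1 / 100) * cs x Z := by
  rw [lm_val]
  rcases x with ⟨i, b⟩
  fin_cases i <;> cases b <;> simp [cs] <;> ring

/-- the constant in the factorisation of `NN` -/
noncomputable def kk (x : Fin 2 × Bool) : ℝ := if x.1 = 0 then 1 else 1 / 4

theorem kk_pos (x : Fin 2 × Bool) : 0 < kk x := by
  unfold kk; split_ifs <;> norm_num

theorem NN_eq (x : Fin 2 × Bool) (Z : ℂ × ℂ) :
    ‖NN Z‖ = kk x * (‖es x Z‖ * ‖cs x Z‖ * ‖es x Z ^ 2 - cs x Z ^ 2‖) := by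
  have h : ∀ a b : ℂ, ‖a‖ = ‖b‖ ∨ ‖a‖ = ‖b‖ → ‖a‖ = ‖b‖ := fun a b h => h.elim id id
  rcases x with ⟨i, b⟩
  fin_cases i
  · cases b
    · simp only [NN, kk, es, cs]
      simp
      rw [norm_sub_rev]
      ring
    · simp only [NN, kk, es, cs]
      simp
  · cases b
    · simp only [NN, kk, es, cs]
      simp
      rw [show (Z.1 - Z.2) ^ 2 - (Z.1 + Z.2) ^ 2 = -(4 * (Z.1 * Z.2)) by ring, norm_neg, norm_mul,
        norm_mul, show Z.1 ^ 2 - Z.2 ^ 2 = (Z.1 - Z.2) * (Z.1 + Z.2) by ring, norm_mul]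
      simp
      ring
    · simp only [NN, kk, es, cs]
      simp
      rw [show (Z.1 + Z.2) ^ 2 - (Z.1 - Z.2) ^ 2 = (4 * (Z.1 * Z.2)) by ring, norm_mul,
        norm_mul, show Z.1 ^ 2 - Z.2 ^ 2 = (Z.1 + Z.2) * (Z.1 - Z.2) by ring, norm_mul]
      simp
      ring

/-- the opposite letter -/
def opp (x : Fin 2 × Bool) : Fin 2 × Bool := (x.1, !x.2)

theorem norm_es_opp (x : Fin 2 × Bool) (Z : ℂ × ℂ) : ‖es (opp x) Z‖ = ‖cs x Z‖ := by
  rcases x with ⟨i, b⟩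
  fin_cases i <;> cases b <;> simp [es, cs, opp]

theorem norm_cs_opp (x : Fin 2 × Bool) (Z : ℂ × ℂ) : ‖cs (opp x) Z‖ = ‖es x Z‖ := by
  rcases x with ⟨i, b⟩
  fin_cases i <;> cases b <;> simp [es, cs, opp]

/-- attracting disc of a letter -/
def Dd (x : Fin 2 × Bool) (Z : ℂ × ℂ) : Prop := 50 * ‖cs x Z‖ ≤ ‖es x Z‖ ∧ es x Z ≠ 0

/-- the open fundamental region (a bit larger than a fundamental domain) -/
def F1 (Z : ℂ × ℂ) : Prop := ∀ x, ‖es x Z‖ < 200 * ‖cs x Z‖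

theorem F1.two {Z : ℂ × ℂ} (h : F1 Z) (x : Fin 2 × Bool) : ‖cs x Z‖ < 200 * ‖es x Z‖ := by
  have := h (opp x)
  rwa [norm_es_opp, norm_cs_opp] at this

theorem F1.es_ne {Z : ℂ × ℂ} (h : F1 Z) (x : Fin 2 × Bool) : es x Z ≠ 0 := by
  intro h0
  have := h.two x
  rw [h0, norm_zero, mul_zero] at this
  exact absurd this (not_lt.mpr (norm_nonneg _))

theorem F1.cs_ne {Z : ℂ × ℂ} (h : F1 Z) (x : Fin 2 × Bool) : cs x Z ≠ 0 := by
  intro h0
  have := h x
  rw [h0, norm_zero, mul_zero] at this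
  exact absurd this (not_lt.mpr (norm_nonneg _))

theorem Dd_step (x : Fin 2 × Bool) (Z : ℂ × ℂ) (h : ‖cs x Z‖ ≤ 200 * ‖es x Z‖) (h0 : es x Z ≠ 0) :
    Dd x (act (lm x) Z) := by
  refine ⟨?_, ?_⟩
  · rw [es_act, cs_act, norm_mul, norm_mul]
    norm_num
    linarith
  · rw [es_act]; simpa using h0

theorem Dd_next {y x : Fin 2 × Bool} {Z : ℂ × ℂ} (h : Dd y Z) (hxy : x.1 = y.1 → x.2 = y.2) :
    ‖cs x Z‖ ≤ 2 * ‖es x Z‖ ∧ es x Z ≠ 0 := by
  obtain ⟨h1, h2⟩ := h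
  have key : ∀ p m : ℂ, 50 * ‖m‖ ≤ ‖p‖ → p ≠ 0 →
      (‖p - m‖ ≤ 2 * ‖p + m‖ ∧ p + m ≠ 0) ∧ (‖p + m‖ ≤ 2 * ‖p - m‖ ∧ p - m ≠ 0) ∧
      (‖m - p‖ ≤ 2 * ‖p + m‖) ∧ (‖p + m‖ ≤ 2 * ‖m - p‖) := by
    intro p m hpm hp
    have hp' : 0 < ‖p‖ := norm_pos_iff.mpr hp
    have a1 : ‖p - m‖ ≤ ‖p‖ + ‖m‖ := norm_sub_le _ _
    have a2 : ‖p + m‖ ≤ ‖p‖ + ‖m‖ := norm_add_le _ _
    have a3 : ‖p‖ - ‖m‖ ≤ ‖p - m‖ := norm_sub_norm_le _ _
    have a4 : ‖p‖ - ‖m‖ ≤ ‖p + m‖ := by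
      have := norm_sub_norm_le p (-m)
      rwa [norm_neg, sub_neg_eq_add] at this
    have hm := norm_nonneg m
    have a5 : ‖m - p‖ = ‖p - m‖ := norm_sub_rev _ _
    refine ⟨⟨by linarith, ?_⟩, ⟨by linarith, ?_⟩, by linarith, by linarith⟩
    · intro h; rw [h, norm_zero] at a4; linarith
    · intro h; rw [h, norm_zero] at a3; linarith
  have same : x = y → ‖cs x Z‖ ≤ 2 * ‖es x Z‖ ∧ es x Z ≠ 0 := by
    rintro rfl
    exact ⟨by have := norm_nonneg (cs x Z); linarith, h2⟩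
  have two : ∀ a : ℂ, ‖2 * a‖ = 2 * ‖a‖ := fun a => by rw [norm_mul]; norm_num
  rcases x with ⟨i, b⟩
  rcases y with ⟨j, c⟩
  by_cases hij : i = j
  · have := hxy hij
    exact same (Prod.ext hij this)
  · clear same hxy
    fin_cases i <;> fin_cases j <;> simp at hij
    · cases c
      · have h1' : 50 * ‖Z.1 + Z.2‖ ≤ ‖Z.1 - Z.2‖ := by simpa [es, cs] using h1
        have h2' : Z.1 - Z.2 ≠ 0 := by simpa [es, cs] using h2
        have key2 := key _ _ h1' h2'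
        have e1 : Z.1 - Z.2 + (Z.1 + Z.2) = 2 * Z.1 := by ring
        have e2 : Z.1 - Z.2 - (Z.1 + Z.2) = -(2 * Z.2) := by ring
        have e3 : Z.1 + Z.2 - (Z.1 - Z.2) = (2 * Z.2) := by ring
        rw [e1, e2, e3, norm_neg, two, two] at key2
        cases b
        · simp [es, cs]
          exact ⟨by linarith [key2.2.1.1], by simpa using key2.2.1.2⟩
        · simp [es, cs]
          exact ⟨by linarith [key2.1.1], by simpa using key2.1.2⟩
      · have h1' : 50 * ‖Z.1 - Z.2‖ ≤ ‖Z.1 + Z.2‖ := by simpa [es, cs] using h1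
        have h2' : Z.1 + Z.2 ≠ 0 := by simpa [es, cs] using h2
        have key2 := key _ _ h1' h2'
        have e1 : Z.1 + Z.2 + (Z.1 - Z.2) = 2 * Z.1 := by ring
        have e2 : Z.1 + Z.2 - (Z.1 - Z.2) = (2 * Z.2) := by ring
        have e3 : Z.1 - Z.2 - (Z.1 + Z.2) = -(2 * Z.2) := by ring
        rw [e1, e2, e3, norm_neg, two, two] at key2
        cases b
        · simp [es, cs]
          exact ⟨by linarith [key2.2.1.1], by simpa using key2.2.1.2⟩
        · simp [es, cs]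
          exact ⟨by linarith [key2.1.1], by simpa using key2.1.2⟩
    · cases c
      · have h1' : 50 * ‖Z.1‖ ≤ ‖Z.2‖ := by simpa [es, cs] using h1
        have h2' : Z.2 ≠ 0 := by simpa [es, cs] using h2
        have key2 := key _ _ h1' h2'
        rw [add_comm Z.2 Z.1] at key2
        cases b
        · simp only [es, cs]
          simp
          refine ⟨by linarith [key2.2.2.2], ?_⟩
          have := key2.2.1.2
          intro h
          apply this
          rw [← neg_sub, h, neg_zero]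
        · simp only [es, cs]
          simp
          exact ⟨by linarith [key2.2.2.1], key2.1.2⟩
      · have h1' : 50 * ‖Z.2‖ ≤ ‖Z.1‖ := by simpa [es, cs] using h1
        have h2' : Z.1 ≠ 0 := by simpa [es, cs] using h2
        have key2 := key _ _ h1' h2'
        cases b
        · simp only [es, cs]
          simp
          exact ⟨by linarith [key2.2.1.1], key2.2.1.2⟩
        · simp only [es, cs]
          simp
          exact ⟨by linarith [key2.1.1], key2.1.2⟩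

theorem sq_sub_ge (e c : ℂ) (k : ℝ) (hk : 0 ≤ k) (hk2 : k ≤ 200) (h : ‖c‖ ≤ k * ‖e‖) :
    ‖e ^ 2 - c ^ 2‖ * (10000 - 4) ≤ (1 + k ^ 2) * ‖(100 * e) ^ 2 - (1 / 100 * c) ^ 2‖ := by
  have h1 : ‖e ^ 2 - c ^ 2‖ ≤ ‖e‖ ^ 2 + ‖c‖ ^ 2 := by
    refine (norm_sub_le _ _).trans ?_
    rw [norm_pow, norm_pow]
  have h2 : 10000 * ‖e‖ ^ 2 - (1 / 10000) * ‖c‖ ^ 2 ≤ ‖(100 * e) ^ 2 - (1 / 100 * c) ^ 2‖ := by
    have := norm_sub_norm_le ((100 * e) ^ 2) ((1 / 100 * c) ^ 2)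
    rw [norm_pow, norm_pow, norm_mul, norm_mul] at this
    norm_num at this ⊢
    nlinarith [this]
  have h3 : ‖c‖ ^ 2 ≤ k ^ 2 * ‖e‖ ^ 2 := by
    have := pow_le_pow_left₀ (norm_nonneg c) h 2
    rwa [mul_pow] at this
  have h4 : k ^ 2 ≤ 40000 := by nlinarith
  have h5 : (10000 - 4) * ‖e‖ ^ 2 ≤ ‖(100 * e) ^ 2 - (1 / 100 * c) ^ 2‖ := by
    refine le_trans ?_ h2
    nlinarith [sq_nonneg ‖e‖]
  calc ‖e ^ 2 - c ^ 2‖ * (10000 - 4) ≤ ((1 + k ^ 2) * ‖e‖ ^ 2) * (10000 - 4) := by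
        apply mul_le_mul_of_nonneg_right _ (by norm_num)
        linarith
    _ = (1 + k ^ 2) * ((10000 - 4) * ‖e‖ ^ 2) := by ring
    _ ≤ _ := mul_le_mul_of_nonneg_left h5 (by positivity)

/-- growth of `NN` for a letter, first step -/
theorem NN_first (x : Fin 2 × Bool) (Z : ℂ × ℂ) (h : ‖cs x Z‖ ≤ 200 * ‖es x Z‖) :
    ‖NN Z‖ ≤ 5 * ‖NN (act (lm x) Z)‖ := by
  rw [NN_eq x, NN_eq x (act (lm x) Z), es_act, cs_act]
  have h1 := sq_sub_ge (es x Z) (cs x Z) 200 (by norm_num) (by norm_num) h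
  have h2 : ‖(100 * es x Z)‖ * ‖1 / 100 * cs x Z‖ = ‖es x Z‖ * ‖cs x Z‖ := by
    rw [norm_mul, norm_mul]; norm_num; ring
  rw [h2]
  have h3 : ‖es x Z ^ 2 - cs x Z ^ 2‖ ≤ 5 * ‖(100 * es x Z) ^ 2 - (1 / 100 * cs x Z) ^ 2‖ := by
    nlinarith [norm_nonneg (es x Z ^ 2 - cs x Z ^ 2),
      norm_nonneg ((100 * es x Z) ^ 2 - (1 / 100 * cs x Z) ^ 2)]
  have h4 : 0 ≤ kk x * (‖es x Z‖ * ‖cs x Z‖) := by have := kk_pos x; positivity
  nlinarith [mul_le_mul_of_nonneg_left h3 h4]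

theorem NN_next (x : Fin 2 × Bool) (Z : ℂ × ℂ) (h : ‖cs x Z‖ ≤ 2 * ‖es x Z‖) :
    1999 * ‖NN Z‖ ≤ ‖NN (act (lm x) Z)‖ := by
  rw [NN_eq x, NN_eq x (act (lm x) Z), es_act, cs_act]
  have h1 := sq_sub_ge (es x Z) (cs x Z) 2 (by norm_num) (by norm_num) h
  have h2 : ‖(100 * es x Z)‖ * ‖1 / 100 * cs x Z‖ = ‖es x Z‖ * ‖cs x Z‖ := by
    rw [norm_mul, norm_mul]; norm_num; ring
  rw [h2]
  have h3 : 1999 * ‖es x Z ^ 2 - cs x Z ^ 2‖ ≤ ‖(100 * es x Z) ^ 2 - (1 / 100 * cs x Z) ^ 2‖ := by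
    nlinarith [norm_nonneg (es x Z ^ 2 - cs x Z ^ 2),
      norm_nonneg ((100 * es x Z) ^ 2 - (1 / 100 * cs x Z) ^ 2)]
  have h4 : 0 ≤ kk x * (‖es x Z‖ * ‖cs x Z‖) := by have := kk_pos x; positivity
  nlinarith [mul_le_mul_of_nonneg_left h3 h4]

theorem NN_ne_of_F1 {Z : ℂ × ℂ} (h : F1 Z) : NN Z ≠ 0 := by
  have e1 := h.es_ne (0, true)
  have e2 := h.cs_ne (0, true)
  have e3 := h.es_ne (1, true)
  have e4 := h.cs_ne (1, true)
  simp [es, cs] at e1 e2 e3 e4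
  unfold NN
  rw [show Z.1 ^ 2 - Z.2 ^ 2 = (Z.1 + Z.2) * (Z.1 - Z.2) by ring]
  exact mul_ne_zero (mul_ne_zero e1 e2) (mul_ne_zero e3 e4)

/-- The main growth statement along a reduced word. -/
theorem word_growth {Z : ℂ × ℂ} (hZ : F1 Z) : ∀ (L : List (Fin 2 × Bool)) (x : Fin 2 × Bool),
    FreeGroup.IsReduced (x :: L) →
    Dd x (act ((x :: L).map lm).prod Z) ∧
      1999 ^ L.length * ‖NN Z‖ ≤ 5 * ‖NN (act ((x :: L).map lm).prod Z)‖ := by
  intro L
  induction L with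
  | nil =>
    intro x _
    simp only [List.map_cons, List.map_nil, List.prod_cons, List.prod_nil, mul_one,
      List.length_nil, pow_zero, one_mul]
    exact ⟨Dd_step x Z (hZ.two x).le (hZ.es_ne x), NN_first x Z (hZ.two x).le⟩
  | cons y L ih =>
    intro x hred
    rw [FreeGroup.isReduced_cons_cons] at hred
    obtain ⟨h1, h2⟩ := hred
    obtain ⟨i1, i2⟩ := ih y h2
    rw [List.map_cons, List.prod_cons, act_mul]
    obtain ⟨j1, j2⟩ := Dd_next (x := x) i1 h1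
    refine ⟨Dd_step x _ (by linarith [norm_nonneg (es x (act ((y :: L).map lm).prod Z))]) j2, ?_⟩
    have j3 := NN_next x _ j1
    rw [List.length_cons, pow_succ]
    nlinarith [i2, j3]

theorem word_ne {Z : ℂ × ℂ} (hZ : F1 Z) (g : G) : NN (act (rho g) Z) ≠ 0 := by
  rw [rho_word]
  rcases h : g.toWord with _ | ⟨x, L⟩
  · simpa [act_one] using NN_ne_of_F1 hZ
  · have hred : FreeGroup.IsReduced (x :: L) := by rw [← h]; exact FreeGroup.isReduced_toWord
    have := (word_growth hZ L x hred).2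
    have hpos : 0 < ‖NN Z‖ := norm_pos_iff.mpr (NN_ne_of_F1 hZ)
    intro h0
    rw [h0, norm_zero, mul_zero] at this
    have h3 : (0 : ℝ) < 1999 ^ L.length * ‖NN Z‖ := by positivity
    linarith

theorem word_bound {Z : ℂ × ℂ} (hZ : F1 Z) (g : G) :
    1999 ^ g.toWord.length * ‖NN Z‖ ≤ 10000 * ‖NN (act (rho g) Z)‖ := by
  rw [rho_word]
  rcases h : g.toWord with _ | ⟨x, L⟩
  · simp [act_one]
    have := norm_nonneg (NN Z)
    linarith
  · have hred : FreeGroup.IsReduced (x :: L) := by rw [← h]; exact FreeGroup.isReduced_toWord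
    have := (word_growth hZ L x hred).2
    rw [List.length_cons, pow_succ]
    nlinarith [norm_nonneg (NN (act ((x :: L).map lm).prod Z))]

/-- Only words of length at most one map `F1` into `F1`. -/
theorem length_le_one {Z : ℂ × ℂ} (hZ : F1 Z) (g : G) (hg : F1 (act (rho g) Z)) :
    g.toWord.length ≤ 1 := by
  rw [rho_word] at hg
  rcases h : g.toWord with _ | ⟨x, _ | ⟨y, L⟩⟩
  · simp
  · simp
  · exfalso
    have hred : FreeGroup.IsReduced (x :: y :: L) := by rw [← h]; exact FreeGroup.isReduced_toWord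
    rw [FreeGroup.isReduced_cons_cons] at hred
    obtain ⟨h1, h2⟩ := hred
    obtain ⟨i1, -⟩ := word_growth hZ L y h2
    obtain ⟨j1, j2⟩ := Dd_next (x := x) i1 h1
    rw [h, List.map_cons, List.prod_cons, act_mul] at hg
    have := hg x
    have h3 : 0 < ‖es x (act ((y :: L).map lm).prod Z)‖ := norm_pos_iff.mpr j2
    rw [es_act, cs_act, norm_mul, norm_mul] at this
    generalize act ((y :: L).map lm).prod Z = V at this h3 j1
    norm_num at this
    linarith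

end Pool.Agent.H914R3.LF
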