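import Mathlib
import Pool.Agent.H914R3.LF.Group

/-!
The domain of discontinuity of the Schottky group in the affine coordinate.
-/

set_option autoImplicit false

open Complex Filter Topology Set

namespace Pool.Agent.H914R3.LF

/-- the denominator of a Möbius map -/
def den (M : SL2) (z : ℂ) : ℂ := (M.1 1 0 : ℂ) * z + (M.1 1 1 : ℂ)

/-- the Möbius map -/
noncomputable def mob (M : SL2) (z : ℂ) : ℂ :=
  ((M.1 0 0 : ℂ) * z + (M.1 0 1 : ℂ)) / den M z

theorem act_col (M : SL2) (z : ℂ) : act M (z, 1) = ((M.1 0 0 : ℂ) * z + (M.1 0 1 : ℂ), den M z) := by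
  simp [act, den]

theorem act_eq_smul (M : SL2) (z : ℂ) (h : den M z ≠ 0) :
    act M (z, 1) = den M z • ((mob M z, 1) : ℂ × ℂ) := by
  rw [act_col]
  ext
  · simp [mob]; field_simp
  · simp

theorem den_mul (M N : SL2) (z : ℂ) (h : den N z ≠ 0) :
    den (M * N) z = den N z * den M (mob N z) := by
  have h1 := congrArg Prod.snd (act_mul M N (z, 1))
  rw [act_eq_smul N z h, act_smul, act_col, act_col] at h1
  simpa using h1

theorem mob_mul (M N : SL2) (z : ℂ) (h : den N z ≠ 0) : mob (M * N) z = mob M (mob N z) := by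
  have h1 := congrArg Prod.fst (act_mul M N (z, 1))
  rw [act_eq_smul N z h, act_smul, act_col, act_col] at h1
  simp only [Prod.smul_fst, smul_eq_mul] at h1
  unfold mob at *
  rw [h1]
  have h2 := den_mul M N z h
  unfold mob at h2
  rw [h2]
  by_cases h3 : den M (((N.1 0 0 : ℂ) * z + (N.1 0 1 : ℂ)) / den N z) = 0
  · rw [h3]; simp
  · field_simp

theorem den_one (z : ℂ) : den 1 z = 1 := by simp [den]

theorem mob_one (z : ℂ) : mob 1 z = z := by simp [mob, den_one]

theorem es_smul (x : Fin 2 × Bool) (c : ℂ) (Z : ℂ × ℂ) : es x (c • Z) = c * es x Z := by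
  unfold es; split_ifs <;> simp <;> ring

theorem cs_smul (x : Fin 2 × Bool) (c : ℂ) (Z : ℂ × ℂ) : cs x (c • Z) = c * cs x Z := by
  unfold cs; split_ifs <;> simp <;> ring

theorem F1_smul {c : ℂ} (hc : c ≠ 0) (Z : ℂ × ℂ) : F1 (c • Z) ↔ F1 Z := by
  have he : ∀ x, es x (c • Z) = c * es x Z := fun x => es_smul x c Z
  have hcs : ∀ x, cs x (c • Z) = c * cs x Z := fun x => cs_smul x c Z
  have hc' : 0 < ‖c‖ := norm_pos_iff.mpr hc
  unfold F1
  refine forall_congr' fun x => ?_
  rw [he, hcs, norm_mul, norm_mul]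
  constructor
  · intro h
    have : ‖c‖ * ‖es x Z‖ < ‖c‖ * (200 * ‖cs x Z‖) := by linarith
    exact lt_of_mul_lt_mul_left this hc'.le
  · intro h
    have := mul_lt_mul_of_pos_left h hc'
    linarith

theorem continuous_es (x : Fin 2 × Bool) : Continuous (es x) := by
  unfold es
  split_ifs <;> fun_prop

theorem continuous_cs (x : Fin 2 × Bool) : Continuous (cs x) := by
  unfold cs
  split_ifs <;> fun_prop

theorem isOpen_F1 : IsOpen {Z | F1 Z} := by
  have : {Z | F1 Z} = ⋂ x, {Z | ‖es x Z‖ < 200 * ‖cs x Z‖} := by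
    ext Z; simp [F1]
  rw [this]
  refine isOpen_iInter_of_finite fun x => ?_
  have h1 := continuous_es x
  have h2 := continuous_cs x
  exact isOpen_lt (by fun_prop) (by fun_prop)

theorem continuous_act (M : SL2) : Continuous (act M) := by
  unfold act
  fun_prop

/-- the part of the domain of discontinuity seen in one translate -/
def Nb (g : G) : Set ℂ := {z | F1 (act (rho g) (z, 1))}

theorem isOpen_Nb (g : G) : IsOpen (Nb g) := by
  have h := continuous_act (rho g)
  have : Continuous fun z : ℂ => act (rho g) (z, 1) := by fun_prop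
  exact isOpen_F1.preimage this

/-- the domain of discontinuity (affine coordinate; `0` and `∞` are limit points) -/
def Yt : Set ℂ := {z | ∃ g : G, z ∈ Nb g}

theorem isOpen_Yt : IsOpen Yt := by
  have : Yt = ⋃ g, Nb g := by ext z; simp [Yt]
  rw [this]
  exact isOpen_iUnion isOpen_Nb

theorem act_shift (g g0 : G) (Z : ℂ × ℂ) :
    act (rho g) Z = act (rho (g * g0⁻¹)) (act (rho g0) Z) := by
  rw [← act_mul, ← map_mul, inv_mul_cancel_right]

theorem NN_ne {z : ℂ} (hz : z ∈ Yt) (g : G) : NN (act (rho g) (z, 1)) ≠ 0 := by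
  obtain ⟨g0, h0⟩ := hz
  rw [act_shift g g0]
  exact word_ne h0 _

theorem den_ne {z : ℂ} (hz : z ∈ Yt) (g : G) : den (rho g) z ≠ 0 := by
  have h := NN_ne hz g
  intro h0
  apply h
  rw [act_col, h0]
  simp [NN]

theorem mem_Nb_mob {z : ℂ} (hz : z ∈ Yt) (g h : G) : mob (rho g) z ∈ Nb h ↔ z ∈ Nb (h * g) := by
  unfold Nb
  simp only [Set.mem_ofPred_eq]
  rw [map_mul, act_mul, act_eq_smul (rho g) z (den_ne hz g), act_smul, F1_smul (den_ne hz g)]

theorem mob_mem {z : ℂ} (hz : z ∈ Yt) (g : G) : mob (rho g) z ∈ Yt := by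
  obtain ⟨g0, h0⟩ := hz
  refine ⟨g0 * g⁻¹, (mem_Nb_mob ⟨g0, h0⟩ g _).mpr ?_⟩
  rwa [inv_mul_cancel_right]

theorem mob_rho_mul {z : ℂ} (hz : z ∈ Yt) (g h : G) :
    mob (rho (g * h)) z = mob (rho g) (mob (rho h) z) := by
  rw [map_mul, mob_mul _ _ _ (den_ne hz h)]

theorem mob_inv_self {z : ℂ} (hz : z ∈ Yt) (g : G) : mob (rho g⁻¹) (mob (rho g) z) = z := by
  rw [← mob_rho_mul hz, inv_mul_cancel, map_one, mob_one]

/-- the action on the domain is free -/
theorem free_act {z : ℂ} (hz : z ∈ Yt) (g : G) (h : mob (rho g) z = z) : g = 1 := by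
  obtain ⟨g0, h0⟩ := hz
  have hz : z ∈ Yt := ⟨g0, h0⟩
  set V := act (rho g0) (z, 1) with hV
  have hF : F1 V := h0
  have h1 : act (rho (g0 * g * g0⁻¹)) V = den (rho g) z • V := by
    rw [hV, ← act_mul, ← map_mul, inv_mul_cancel_right, map_mul, act_mul,
      act_eq_smul (rho g) z (den_ne hz g), act_smul, h]
  have h2 : F1 (act (rho (g0 * g * g0⁻¹)) V) := by
    rw [h1, F1_smul (den_ne hz g)]; exact hF
  have h3 := length_le_one hF _ h2
  rcases h4 : (g0 * g * g0⁻¹).toWord with _ | ⟨x, _ | ⟨y, L⟩⟩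
  · rw [FreeGroup.toWord_eq_nil_iff] at h4
    have : g0 * g = g0 := by
      have := congrArg (· * g0) h4
      simpa using this
    simpa using this
  · exfalso
    rw [rho_word, h4] at h1
    simp only [List.map_cons, List.map_nil, List.prod_cons, List.prod_nil, mul_one] at h1
    have h5 := congrArg (es x) h1
    have h6 := congrArg (cs x) h1
    rw [es_act, es_smul] at h5
    rw [cs_act, cs_smul] at h6
    have h7 := mul_right_cancel₀ (hF.es_ne x) h5
    have h8 := mul_right_cancel₀ (hF.cs_ne x) h6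
    rw [← h7] at h8
    norm_num at h8
  · rw [h4] at h3
    simp at h3

theorem finite_short : {g : G | g.toWord.length ≤ 1}.Finite := by
  have h1 : {L : List (Fin 2 × Bool) | L.length ≤ 1}.Finite := List.finite_length_le _ 1
  exact (h1.preimage (FreeGroup.toWord_injective.injOn)).subset (fun g hg => hg)

/-- proper discontinuity -/
theorem proper_disc (g0 g1 : G) : {g : G | ∃ z ∈ Nb g0, mob (rho g) z ∈ Nb g1}.Finite := by
  have h1 : (Set.image (fun h => g1⁻¹ * h * g0) {g : G | g.toWord.length ≤ 1}).Finite :=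
    finite_short.image _
  refine h1.subset ?_
  rintro g ⟨z, hz, hg⟩
  have hzY : z ∈ Yt := ⟨g0, hz⟩
  rw [mem_Nb_mob hzY] at hg
  refine ⟨g1 * g * g0⁻¹, ?_, by group⟩
  apply length_le_one (Z := act (rho g0) (z, 1)) hz
  rw [← act_mul, ← map_mul, inv_mul_cancel_right]
  exact hg

theorem continuousAt_mob {z : ℂ} (M : SL2) (h : den M z ≠ 0) : ContinuousAt (mob M) z := by
  unfold mob
  have h1 : ContinuousAt (den M) z := by unfold den; fun_prop
  exact ContinuousAt.div (by fun_prop) h1 h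

/-- small neighbourhoods are disjoint from their translates -/
theorem exists_small {z : ℂ} (hz : z ∈ Yt) :
    ∃ N : Set ℂ, IsOpen N ∧ z ∈ N ∧ N ⊆ Yt ∧ ∀ g : G, ∀ y ∈ N, mob (rho g) y ∈ N → g = 1 := by
  obtain ⟨g0, h0⟩ := hz
  have hzY : z ∈ Yt := ⟨g0, h0⟩
  set T : Set G := {g : G | ∃ z ∈ Nb g0, mob (rho g) z ∈ Nb g0} with hT
  have hTf : T.Finite := proper_disc g0 g0
  have h1 : ∀ g ∈ T, ∀ᶠ s in (𝓝 z).smallSets, g ≠ 1 → ∀ y ∈ s, mob (rho g) y ∉ s := by
    intro g _
    by_cases hg : g = 1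
    · exact Eventually.of_forall fun s h => absurd hg h
    · have hne : z ≠ mob (rho g) z := fun h => hg (free_act hzY g h.symm)
      obtain ⟨U, V, hU, hV, hzU, hzV, hd⟩ := t2_separation hne
      have hc := continuousAt_mob (rho g) (den_ne hzY g)
      have hW : U ∩ (mob (rho g)) ⁻¹' V ∈ 𝓝 z :=
        inter_mem (hU.mem_nhds hzU) (hc (hV.mem_nhds hzV))
      rw [eventually_smallSets]
      refine ⟨_, hW, fun t ht _ y hy hy' => ?_⟩
      exact hd.le_bot ⟨(ht hy').1, (ht hy).2⟩
  have h2 : ∀ᶠ s in (𝓝 z).smallSets, ∀ g ∈ T, g ≠ 1 → ∀ y ∈ s, mob (rho g) y ∉ s :=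
    (hTf.eventually_all (l := (𝓝 z).smallSets)).mpr h1
  rw [eventually_smallSets] at h2
  obtain ⟨s, hs, hs2⟩ := h2
  have hN : interior s ∩ Nb g0 ∈ 𝓝 z :=
    inter_mem (interior_mem_nhds.mpr hs) ((isOpen_Nb g0).mem_nhds h0)
  refine ⟨interior s ∩ Nb g0, isOpen_interior.inter (isOpen_Nb g0),
    ⟨mem_interior_iff_mem_nhds.mpr hs, h0⟩, fun y hy => ⟨g0, hy.2⟩, ?_⟩
  intro g y hy hy'
  by_contra hg
  have hgT : g ∈ T := ⟨y, hy.2, hy'.2⟩
  exact hs2 (interior s ∩ Nb g0) (inter_subset_left.trans interior_subset) g hgT hg y hy hy'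

/-- the compact fundamental set -/
def F0c : Set ℂ := {z | ∀ x, ‖es x (z, 1)‖ ≤ 100 * ‖cs x (z, 1)‖}

theorem F0c_F1 {z : ℂ} (h : z ∈ F0c) : F1 (z, 1) := by
  have key : ∀ x, cs x ((z, 1) : ℂ × ℂ) ≠ 0 := by
    intro x h0
    have h1 := h x
    rw [h0, norm_zero, mul_zero] at h1
    have h2 : es x ((z, 1) : ℂ × ℂ) = 0 := norm_le_zero_iff.mp h1
    rcases x with ⟨i, b⟩
    fin_cases i <;> cases b <;> simp [es, cs] at h0 h2
    · have : (2 : ℂ) = 0 := by linear_combination h0 - h2
      norm_num at this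
    · have : (2 : ℂ) = 0 := by linear_combination h2 - h0
      norm_num at this
  intro x
  have := norm_pos_iff.mpr (key x)
  linarith [h x]

theorem F0c_subset : F0c ⊆ Yt := fun z h => ⟨1, by
  show F1 _
  rw [map_one, act_one]; exact F0c_F1 h⟩

theorem isCompact_F0c : IsCompact F0c := by
  refine Metric.isCompact_of_isClosed_isBounded ?_ ?_
  · have : F0c = ⋂ x, {z : ℂ | ‖es x (z, 1)‖ ≤ 100 * ‖cs x (z, 1)‖} := by
      ext z; simp [F0c]
    rw [this]
    refine isClosed_iInter fun x => ?_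
    have h1 := continuous_es x
    have h2 := continuous_cs x
    exact isClosed_le (by fun_prop) (by fun_prop)
  · refine (Metric.isBounded_closedBall (x := (0 : ℂ)) (r := 100)).subset ?_
    intro z hz
    have := hz (0, true)
    simp [es, cs] at this
    simpa using this

theorem opp_opp (x : Fin 2 × Bool) : opp (opp x) = x := by simp [opp]

theorem exists_F0c {z : ℂ} (hz : z ∈ Yt) : ∃ g : G, mob (rho g) z ∈ F0c := by
  obtain ⟨g, hg⟩ := hz
  have hzY : z ∈ Yt := ⟨g, hg⟩
  -- criterion in terms of vectors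
  have crit : ∀ h : G, (∀ x, ‖es x (act (rho h) (z, 1))‖ ≤ 100 * ‖cs x (act (rho h) (z, 1))‖) →
      mob (rho h) z ∈ F0c := by
    intro h hh x
    have h1 := hh x
    rw [act_eq_smul (rho h) z (den_ne hzY h)] at h1
    rw [es_smul, cs_smul, norm_mul, norm_mul] at h1
    have hc' : 0 < ‖den (rho h) z‖ := norm_pos_iff.mpr (den_ne hzY h)
    have : ‖den (rho h) z‖ * ‖es x (mob (rho h) z, 1)‖ ≤
        ‖den (rho h) z‖ * (100 * ‖cs x (mob (rho h) z, 1)‖) := by linarith
    exact le_of_mul_le_mul_left this hc'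
  set V := act (rho g) (z, 1) with hV
  by_cases hall : ∀ x, ‖es x V‖ ≤ 100 * ‖cs x V‖
  · exact ⟨g, crit g hall⟩
  · push Not at hall
    obtain ⟨x, hx⟩ := hall
    set s : G := FreeGroup.mk [opp x] with hs
    refine ⟨s * g, crit (s * g) ?_⟩
    have hsV : act (rho (s * g)) (z, 1) = act (lm (opp x)) V := by
      rw [map_mul, act_mul, hs, rho_mk]
      simp [hV]
    rw [hsV]
    set V' := act (lm (opp x)) V with hV'
    have hF : F1 V := hg
    have e1 : ‖es (opp x) V'‖ = 100 * ‖cs x V‖ := by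
      rw [hV', es_act, norm_mul, norm_es_opp]; norm_num
    have e2 : ‖cs (opp x) V'‖ = (1 / 100) * ‖es x V‖ := by
      rw [hV', cs_act, norm_mul, norm_cs_opp]; norm_num
    have h200 := hF x
    have hD : Dd (opp x) V' := by
      refine ⟨by rw [e1, e2]; linarith, ?_⟩
      rw [← norm_pos_iff, e1]
      have := norm_pos_iff.mpr (hF.cs_ne x)
      linarith
    intro y
    by_cases hyx : y.1 = x.1
    · by_cases hb : y.2 = x.2
      · have : y = x := Prod.ext hyx hb
        subst this
        have q1 := norm_cs_opp y V'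
        have q2 := norm_es_opp y V'
        linarith
      · have : y = opp x := by
          refine Prod.ext hyx ?_
          show y.2 = !x.2
          rcases y with ⟨_, _ | _⟩ <;> rcases x with ⟨_, _ | _⟩ <;> simp_all
        rw [this, e1, e2]
        linarith
    · have := (Dd_next (x := opp y) hD (fun h => absurd h hyx)).1
      rw [norm_cs_opp, norm_es_opp] at this
      linarith [norm_nonneg (cs y V')]

/-- Frobenius norm squared -/
def fro (M : SL2) : ℝ := M.1 0 0 ^ 2 + M.1 0 1 ^ 2 + M.1 1 0 ^ 2 + M.1 1 1 ^ 2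

theorem fro_lm (x : Fin 2 × Bool) (M : SL2) : fro (lm x * M) ≤ 10000 * fro M := by
  rcases x with ⟨i, b⟩
  fin_cases i
  · cases b
    · show fro ((gen 0)⁻¹ * M) ≤ _
      simp [fro, Matrix.mul_apply, Fin.sum_univ_two, Matrix.SpecialLinearGroup.coe_mul,
        Matrix.SpecialLinearGroup.coe_inv, Matrix.adjugate_fin_two, gen0_val]
      nlinarith [sq_nonneg (M.1 0 0), sq_nonneg (M.1 0 1), sq_nonneg (M.1 1 0), sq_nonneg (M.1 1 1)]
    · show fro ((gen 0) * M) ≤ _
      simp [fro, Matrix.mul_apply, Fin.sum_univ_two, Matrix.SpecialLinearGroup.coe_mul, gen0_val]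
      nlinarith [sq_nonneg (M.1 0 0), sq_nonneg (M.1 0 1), sq_nonneg (M.1 1 0), sq_nonneg (M.1 1 1)]
  · cases b
    · show fro ((gen 1)⁻¹ * M) ≤ _
      simp [fro, Matrix.mul_apply, Fin.sum_univ_two, Matrix.SpecialLinearGroup.coe_mul,
        Matrix.SpecialLinearGroup.coe_inv, Matrix.adjugate_fin_two, gen1_val]
      nlinarith [sq_nonneg (M.1 0 0 + M.1 1 0), sq_nonneg (M.1 0 1 + M.1 1 1)]
    · show fro ((gen 1) * M) ≤ _
      simp [fro, Matrix.mul_apply, Fin.sum_univ_two, Matrix.SpecialLinearGroup.coe_mul, gen1_val]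
      nlinarith [sq_nonneg (M.1 0 0 - M.1 1 0), sq_nonneg (M.1 0 1 - M.1 1 1)]

theorem fro_word (L : List (Fin 2 × Bool)) (M : SL2) :
    fro ((L.map lm).prod * M) ≤ 10000 ^ L.length * fro M := by
  induction L with
  | nil => simp
  | cons x L ih =>
    rw [List.map_cons, List.prod_cons, mul_assoc, List.length_cons, pow_succ]
    refine (fro_lm x _).trans ?_
    nlinarith [ih]

theorem entry_bound (g : G) (M : SL2) (i j : Fin 2) :
    |(rho g * M).1 i j| ≤ 100 ^ g.toWord.length * Real.sqrt (fro M) := by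
  have h1 : ((rho g * M).1 i j) ^ 2 ≤ fro (rho g * M) := by
    unfold fro
    fin_cases i <;> fin_cases j <;> simp <;>
    nlinarith [sq_nonneg ((rho g * M).1 0 0), sq_nonneg ((rho g * M).1 0 1),
      sq_nonneg ((rho g * M).1 1 0), sq_nonneg ((rho g * M).1 1 1)]
  have h2 : fro (rho g * M) ≤ 10000 ^ g.toWord.length * fro M := by
    rw [rho_word]; exact fro_word _ _
  have h3 : 0 ≤ fro M := by unfold fro; positivity
  apply abs_le_of_sq_le_sq _ (by positivity)
  rw [mul_pow, Real.sq_sqrt h3, ← pow_mul, mul_comm _ 2, pow_mul,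
    show (100 : ℝ) ^ 2 = 10000 by norm_num]
  exact h1.trans h2

/-- summability over the free group -/
theorem summable_word {c : ℝ} (hc0 : 0 ≤ c) (hc : c < 1 / 4) :
    Summable fun g : G => c ^ g.toWord.length := by
  have h1 : Summable fun L : List (Fin 2 × Bool) => c ^ L.length := by
    rw [← (Equiv.sigmaFiberEquiv (fun L : List (Fin 2 × Bool) => L.length)).summable_iff]
    refine (summable_sigma_of_nonneg (fun x => ?_)).mpr ?_
    · exact pow_nonneg hc0 _
    have hfin : ∀ n : ℕ, Finite {L : List (Fin 2 × Bool) // L.length = n} := fun n =>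
      (inferInstance : Finite (List.Vector (Fin 2 × Bool) n))
    refine ⟨fun n => ?_, ?_⟩
    · have := hfin n
      exact Summable.of_finite
    · have hval : ∀ n : ℕ, (∑' y : {L : List (Fin 2 × Bool) // L.length = n},
          ((fun L : List (Fin 2 × Bool) => c ^ L.length) ∘
            (Equiv.sigmaFiberEquiv (fun L : List (Fin 2 × Bool) => L.length))) ⟨n, y⟩) =
          (4 * c) ^ n := by
        intro n
        have : ∀ y : {L : List (Fin 2 × Bool) // L.length = n},
            ((fun L : List (Fin 2 × Bool) => c ^ L.length) ∘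
            (Equiv.sigmaFiberEquiv (fun L : List (Fin 2 × Bool) => L.length))) ⟨n, y⟩ = c ^ n := by
          intro y
          simp [Equiv.sigmaFiberEquiv, y.2]
        simp only [this]
        have hcard : Nat.card {L : List (Fin 2 × Bool) // L.length = n} = 4 ^ n := by
          have h := card_vector (α := Fin 2 × Bool) n
          have h2 : Nat.card (List.Vector (Fin 2 × Bool) n) = 4 ^ n := by
            rw [Nat.card_eq_fintype_card, h]; simp
          exact h2
        rw [tsum_const, hcard, nsmul_eq_mul, mul_pow]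
        push_cast
        ring
      simp only [hval]
      exact summable_geometric_of_lt_one (by positivity) (by linarith)
  exact h1.comp_injective FreeGroup.toWord_injective

end Pool.Agent.H914R3.LF
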