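import Mathlib
import Pool.Agent.H914R3.LF.Mob

/-!
Poincaré series for the Schottky group as norms of Hilbert space valued holomorphic functions.
-/

set_option autoImplicit false

open Complex Filter Topology Set

namespace Pool.Agent.H914R3.LF

abbrev I2 := G × Fin 2

noncomputable abbrev HE := lp (fun _ : I2 => ℂ) 2

open Classical in
noncomputable def bas (i : I2) : HE := lp.single 2 i (1 : ℂ)

noncomputable def comp (j : Fin 2) (z : ℂ) (i : I2) : ℂ :=
  ((rho i.1).1 i.2 j : ℂ) / NN (act (rho i.1) (z, 1))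

noncomputable def Psi (j : Fin 2) (z : ℂ) : HE := ∑' i, comp j z i • bas i

theorem continuous_NN : Continuous NN := by unfold NN; fun_prop

theorem local_bound {z0 : ℂ} (hz0 : z0 ∈ Yt) : ∃ U : Set ℂ, IsOpen U ∧ z0 ∈ U ∧ U ⊆ Yt ∧
    ∃ u : I2 → ℝ, Summable u ∧ ∀ j i, ∀ z ∈ U, ‖comp j z i‖ ≤ u i := by
  obtain ⟨g0, h0⟩ := hz0
  have hc : Continuous fun z : ℂ => ‖NN (act (rho g0) (z, 1))‖ := by
    have h1 := continuous_act (rho g0)
    have h2 := continuous_NN
    fun_prop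
  have hpos : 0 < ‖NN (act (rho g0) (z0, 1))‖ := norm_pos_iff.mpr (NN_ne_of_F1 h0)
  set m := ‖NN (act (rho g0) (z0, 1))‖ / 2 with hm
  have hm0 : 0 < m := by positivity
  have hU1 : IsOpen {z : ℂ | m < ‖NN (act (rho g0) (z, 1))‖} := isOpen_lt continuous_const hc
  refine ⟨{z : ℂ | m < ‖NN (act (rho g0) (z, 1))‖} ∩ Nb g0, hU1.inter (isOpen_Nb g0),
    ⟨by show m < _; rw [hm]; linarith, h0⟩, fun z hz => ⟨g0, hz.2⟩, ?_⟩
  set C := 10000 * Real.sqrt (fro (rho g0)) / m with hC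
  refine ⟨fun i => C * (100 / 1999) ^ (i.1 * g0⁻¹).toWord.length, ?_, ?_⟩
  · refine (summable_prod_of_nonneg (fun i => by positivity)).mpr ⟨fun g => Summable.of_finite, ?_⟩
    simp only [tsum_fintype, Finset.sum_const, Finset.card_univ, Fintype.card_fin, nsmul_eq_mul]
    apply Summable.mul_left
    apply Summable.mul_left
    have hs := summable_word (c := 100 / 1999) (by norm_num) (by norm_num)
    exact hs.comp_injective (mul_left_injective g0⁻¹)
  · rintro j ⟨g, n⟩ z ⟨hz1, hz2⟩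
    have hF : F1 (act (rho g0) (z, 1)) := hz2
    have hz1' : m < ‖NN (act (rho g0) (z, 1))‖ := hz1
    have hb := word_bound hF (g * g0⁻¹)
    rw [← act_shift] at hb
    have he := entry_bound (g * g0⁻¹) (rho g0) n j
    rw [← map_mul, inv_mul_cancel_right] at he
    unfold comp
    simp only
    rw [norm_div, Complex.norm_real, Real.norm_eq_abs]
    have hN : 0 < ‖NN (act (rho g) (z, 1))‖ := norm_pos_iff.mpr (NN_ne ⟨g0, hz2⟩ g)
    rw [div_le_iff₀ hN]
    set k := (g * g0⁻¹).toWord.length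
    refine he.trans ?_
    rw [hC, div_pow]
    have h3 : (1999 : ℝ) ^ k * m ≤ 10000 * ‖NN (act (rho g) (z, 1))‖ := by
      refine le_trans ?_ hb
      exact mul_le_mul_of_nonneg_left hz1'.le (by positivity)
    have h4 : 0 ≤ (100 : ℝ) ^ k * Real.sqrt (fro (rho g0)) := by positivity
    have h5 := mul_le_mul_of_nonneg_left h3 h4
    rw [div_mul_div_comm, div_mul_eq_mul_div, le_div_iff₀ (by positivity)]
    nlinarith [h5]

theorem norm_bas (i : I2) : ‖bas i‖ = 1 := by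
  unfold bas
  rw [lp.norm_single (by norm_num)]
  simp

theorem summable_comp {z : ℂ} (hz : z ∈ Yt) (j : Fin 2) : Summable fun i => comp j z i • bas i := by
  obtain ⟨U, -, hzU, -, u, hu, hb⟩ := local_bound hz
  refine Summable.of_norm_bounded hu (fun i => ?_)
  rw [norm_smul, norm_bas, mul_one]
  exact hb j i z hzU

theorem differentiableOn_comp (j : Fin 2) (i : I2) : DifferentiableOn ℂ (fun z => comp j z i) Yt := by
  intro z hz
  have h := NN_ne hz i.1
  have h2 : DifferentiableAt ℂ (fun z : ℂ => NN (act (rho i.1) (z, 1))) z := by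
    unfold NN act
    fun_prop
  unfold comp
  exact (DifferentiableAt.div (by fun_prop) h2 h).differentiableWithinAt

theorem differentiableOn_Psi (j : Fin 2) : DifferentiableOn ℂ (Psi j) Yt := by
  intro z hz
  obtain ⟨U, hU, hzU, hUY, u, hu, hb⟩ := local_bound hz
  have : DifferentiableOn ℂ (Psi j) U := by
    refine differentiableOn_tsum_of_summable_norm hu (fun i => ?_) hU (fun i w hw => ?_)
    · exact ((differentiableOn_comp j i).mono hUY).smul_const _
    · rw [norm_smul, norm_bas, mul_one]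
      exact hb j i w hw
  exact (this.differentiableAt (hU.mem_nhds hzU)).differentiableWithinAt

open Classical in
theorem Psi_apply {z : ℂ} (hz : z ∈ Yt) (j : Fin 2) (i : I2) : (Psi j z : I2 → ℂ) i = comp j z i := by
  have h1 := (summable_comp hz j).hasSum.mapL (innerSL ℂ (bas i))
  have h2 : ∀ x : HE, (innerSL ℂ (bas i)) x = (x : I2 → ℂ) i := by
    intro x
    rw [innerSL_apply_apply]
    unfold bas
    rw [lp.inner_single_left]
    simp
  simp only [h2] at h1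
  have h3 : HasSum (fun k => ((comp j z k • bas k : HE) : I2 → ℂ) i) (comp j z i) := by
    have : (fun k => ((comp j z k • bas k : HE) : I2 → ℂ) i) =
        fun k => if k = i then comp j z i else 0 := by
      funext k
      rw [lp.coeFn_smul, Pi.smul_apply]
      unfold bas
      rw [lp.coeFn_single]
      by_cases h : k = i
      · subst h; simp
      · rw [Pi.single_eq_of_ne (Ne.symm h)]; simp [h]
    rw [this]
    exact hasSum_ite_eq i _
  exact h1.unique h3

/-- the basic series -/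
noncomputable def SS (z w : ℂ) : ℝ := ‖w • Psi 0 z + Psi 1 z‖ ^ 2

theorem norm_sq_eq (x : HE) : ‖x‖ ^ 2 = ∑' i, ‖(x : I2 → ℂ) i‖ ^ 2 := by
  have := lp.norm_rpow_eq_tsum (p := 2) (by norm_num) x
  norm_cast at this

/-- coordinates of a vector -/
def vec (n : Fin 2) (Z : ℂ × ℂ) : ℂ := if n = 0 then Z.1 else Z.2

theorem comp_comb (z w : ℂ) (i : I2) : w * comp 0 z i + comp 1 z i =
    vec i.2 (act (rho i.1) (w, 1)) / NN (act (rho i.1) (z, 1)) := by
  obtain ⟨g, n⟩ := i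
  fin_cases n <;> simp [comp, vec, act] <;> ring

theorem SS_eq {z : ℂ} (hz : z ∈ Yt) (w : ℂ) : SS z w =
    ∑' i : I2, ‖vec i.2 (act (rho i.1) (w, 1)) / NN (act (rho i.1) (z, 1))‖ ^ 2 := by
  unfold SS
  rw [norm_sq_eq]
  congr 1
  funext i
  rw [← comp_comb]
  simp only [lp.coeFn_add, Pi.add_apply, lp.coeFn_smul, Pi.smul_apply, smul_eq_mul, Psi_apply hz]

theorem SS_mob {z w : ℂ} (hz : z ∈ Yt) (g : G) (hw : den (rho g) w ≠ 0) :
    SS (mob (rho g) z) (mob (rho g) w) * ‖den (rho g) w‖ ^ 2 = ‖den (rho g) z‖ ^ 8 * SS z w := by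
  rw [SS_eq (mob_mem hz g), SS_eq hz, ← tsum_mul_left, ← tsum_mul_right]
  have e : ∀ i : I2, ‖vec i.2 (act (rho i.1) (mob (rho g) w, 1)) /
      NN (act (rho i.1) (mob (rho g) z, 1))‖ ^ 2 * ‖den (rho g) w‖ ^ 2 =
      (fun i : I2 => ‖den (rho g) z‖ ^ 8 * ‖vec i.2 (act (rho i.1) (w, 1)) /
        NN (act (rho i.1) (z, 1))‖ ^ 2) ((Equiv.prodCongr (Equiv.mulRight g) (Equiv.refl _)) i) := by
    rintro ⟨h, n⟩
    have hdz := den_ne hz g
    have h1 : ((mob (rho g) w, 1) : ℂ × ℂ) = (den (rho g) w)⁻¹ • act (rho g) (w, 1) := by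
      rw [act_eq_smul _ _ hw, smul_smul, inv_mul_cancel₀ hw, one_smul]
    have h2 : ((mob (rho g) z, 1) : ℂ × ℂ) = (den (rho g) z)⁻¹ • act (rho g) (z, 1) := by
      rw [act_eq_smul _ _ hdz, smul_smul, inv_mul_cancel₀ hdz, one_smul]
    have hv : ∀ (c : ℂ) (Z : ℂ × ℂ), vec n (c • Z) = c * vec n Z := by
      intro c Z; unfold vec; split_ifs <;> simp
    simp only [Equiv.prodCongr_apply, Prod.map_apply, Equiv.coe_mulRight, Equiv.refl_apply]
    rw [h1, h2, act_smul, act_smul, hv, NN_smul, ← act_mul, ← act_mul, ← map_mul]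
    simp only [norm_div, norm_mul, norm_inv, norm_pow]
    have hdw' : ‖den (rho g) w‖ ≠ 0 := norm_ne_zero_iff.mpr hw
    have hdz' : ‖den (rho g) z‖ ≠ 0 := norm_ne_zero_iff.mpr hdz
    have hN : ‖NN (act (rho (h * g)) (z, 1))‖ ≠ 0 := norm_ne_zero_iff.mpr (NN_ne hz _)
    field_simp
  exact (tsum_congr e).trans (Equiv.tsum_eq (Equiv.prodCongr (Equiv.mulRight g)
    (Equiv.refl (Fin 2))) (fun i : I2 => ‖den (rho g) z‖ ^ 8 * ‖vec i.2 (act (rho i.1) (w, 1)) /
        NN (act (rho i.1) (z, 1))‖ ^ 2))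

theorem vec_ne {z : ℂ} (hz : z ∈ Yt) (w : ℂ) : w • Psi 0 z + Psi 1 z ≠ 0 := by
  intro h
  have h1 := congrArg (fun x : HE => (x : I2 → ℂ) (1, 1)) h
  simp only [lp.coeFn_add, Pi.add_apply, lp.coeFn_smul, Pi.smul_apply, smul_eq_mul, Psi_apply hz,
    comp_comb, map_one, act_one] at h1
  have h2 := NN_ne hz 1
  rw [map_one, act_one] at h2
  simp [vec, h2] at h1

theorem SS_pos {z : ℂ} (hz : z ∈ Yt) (w : ℂ) : 0 < SS z w := by
  unfold SS
  have := norm_pos_iff.mpr (vec_ne hz w)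
  positivity

/-- the weight six series -/
noncomputable def PP (z : ℂ) : ℝ := SS z z

theorem PP_pos {z : ℂ} (hz : z ∈ Yt) : 0 < PP z := SS_pos hz z

theorem PP_mob {z : ℂ} (hz : z ∈ Yt) (g : G) : PP (mob (rho g) z) = ‖den (rho g) z‖ ^ 6 * PP z := by
  have h := SS_mob hz g (den_ne hz g)
  have h1 : ‖den (rho g) z‖ ^ 2 ≠ 0 := pow_ne_zero _ (norm_ne_zero_iff.mpr (den_ne hz g))
  have h2 : ‖den (rho g) z‖ ^ 8 = ‖den (rho g) z‖ ^ 6 * ‖den (rho g) z‖ ^ 2 := by ring
  rw [h2] at h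
  unfold PP
  apply mul_right_cancel₀ h1
  rw [h]; ring

theorem contDiffOn_Psi (j : Fin 2) : ContDiffOn ℝ (⊤ : ℕ∞) (Psi j) Yt :=
  ((differentiableOn_Psi j).contDiffOn isOpen_Yt).restrict_scalars ℝ

theorem contDiffOn_SS : ContDiffOn ℝ (⊤ : ℕ∞) (fun p : ℂ × ℂ => SS p.1 p.2) (Yt ×ˢ univ) := by
  unfold SS
  have h0 : ContDiffOn ℝ (⊤ : ℕ∞) (fun p : ℂ × ℂ => Psi 0 p.1) (Yt ×ˢ univ) :=
    (contDiffOn_Psi 0).comp contDiff_fst.contDiffOn (fun p hp => hp.1)
  have h1 : ContDiffOn ℝ (⊤ : ℕ∞) (fun p : ℂ × ℂ => Psi 1 p.1) (Yt ×ˢ univ) :=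
    (contDiffOn_Psi 1).comp contDiff_fst.contDiffOn (fun p hp => hp.1)
  exact ((contDiff_snd.contDiffOn.smul h0).add h1).norm_sq ℂ

theorem contDiffOn_PP : ContDiffOn ℝ (⊤ : ℕ∞) PP Yt := by
  have : PP = (fun p : ℂ × ℂ => SS p.1 p.2) ∘ fun z => (z, z) := rfl
  rw [this]
  exact contDiffOn_SS.comp (contDiff_id.prodMk contDiff_id).contDiffOn (fun z hz => ⟨hz, mem_univ _⟩)

end Pool.Agent.H914R3.LF
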