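import Mathlib
import Pool.Agent.H914R3.LF.Calc
import Pool.Agent.H914R3.LF.Series

/-!
Strict plurisubharmonicity estimates.
-/

set_option autoImplicit false

open Complex Filter Topology Set

namespace Pool.Agent.H914R3.LF

theorem jet_lin (l : (ℂ × ℂ) →L[ℝ] ℝ) (p v : ℂ × ℂ) : Jet (fun p => l p) p v (l v) 0 := by
  obtain ⟨r1, r2⟩ := of_line (u := fun p => l p) (p := p) (v := v) l.contDiff.contDiffAt
    (g1 := fun _ => l v) (b := 0)
    (Eventually.of_forall fun t => l.hasFDerivAt.comp_hasDerivAt t (line_deriv p v t))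
    (hasDerivAt_const _ _)
  exact ⟨l.contDiff.contDiffAt, r1, r2⟩

theorem jet_im (p v : ℂ × ℂ) : Jet (fun p : ℂ × ℂ => p.2.im) p v v.2.im 0 :=
  jet_lin (imCLM.comp (ContinuousLinearMap.snd ℝ ℂ ℂ)) p v

noncomputable def NW (p : ℂ × ℂ) : ℝ := ‖p.1 - p.2‖ ^ 2

theorem jet_NW (p : ℂ × ℂ) (c : ℂ) : Jet NW p (c, 0)
    (2 * (c.re * (p.1 - p.2).re + c.im * (p.1 - p.2).im)) (2 * (c.re ^ 2 + c.im ^ 2)) := by
  have h1 : Jet (fun p : ℂ × ℂ => (p.1 - p.2).re) p (c, 0) c.re 0 := by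
    have := jet_lin (reCLM.comp (ContinuousLinearMap.fst ℝ ℂ ℂ - ContinuousLinearMap.snd ℝ ℂ ℂ)) p
      (c, 0)
    simpa using this
  have h2 : Jet (fun p : ℂ × ℂ => (p.1 - p.2).im) p (c, 0) c.im 0 := by
    have := jet_lin (imCLM.comp (ContinuousLinearMap.fst ℝ ℂ ℂ - ContinuousLinearMap.snd ℝ ℂ ℂ)) p
      (c, 0)
    simpa using this
  have h3 := (h1.mul h1).add (h2.mul h2)
  have e : NW = fun p : ℂ × ℂ => (p.1 - p.2).re * (p.1 - p.2).re + (p.1 - p.2).im * (p.1 - p.2).im := by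
    funext p
    unfold NW
    rw [← normSq_eq_norm_sq, normSq_apply]
  rw [e]
  refine ⟨h3.cd, ?_, ?_⟩
  · rw [h3.d1]; ring
  · rw [h3.d2]; ring

theorem normsq_jet {E : Type*} [NormedAddCommGroup E] [InnerProductSpace ℂ E] [CompleteSpace E]
    {Φ : ℂ → E} {Y : Set ℂ} (hY : IsOpen Y) (hΦ : DifferentiableOn ℂ Φ Y) {z : ℂ} (hz : z ∈ Y)
    (w c : ℂ) : Jet (fun p : ℂ × ℂ => ‖Φ p.1‖ ^ 2) (z, w) (c, 0)
      (2 * (c * inner ℂ (Φ z) (deriv Φ z)).re)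
      (2 * (‖c‖ ^ 2 * ‖deriv Φ z‖ ^ 2) + 2 * (c ^ 2 * inner ℂ (Φ z) (deriv (deriv Φ) z)).re) := by
  have hcd : ContDiffAt ℝ 2 (fun p : ℂ × ℂ => ‖Φ p.1‖ ^ 2) (z, w) := by
    have h1 : ContDiffAt ℂ 2 Φ z := (hΦ.contDiffOn hY).contDiffAt (hY.mem_nhds hz)
    have h2 : ContDiffAt ℝ 2 Φ z := h1.restrict_scalars ℝ
    have h3 : ContDiffAt ℝ 2 (fun p : ℂ × ℂ => Φ p.1) (z, w) :=
      ContDiffAt.comp (z, w) (f := fun p : ℂ × ℂ => p.1) (g := Φ) h2 contDiffAt_fst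
    exact h3.norm_sq ℂ
  have hL : Tendsto (fun t : ℝ => z + (t : ℂ) * c) (𝓝 0) (𝓝 z) := by
    have h : Continuous fun t : ℝ => z + (t : ℂ) * c := by fun_prop
    have := h.tendsto 0
    simpa using this
  have hin : ∀ᶠ t : ℝ in 𝓝 (0 : ℝ), z + (t : ℂ) * c ∈ Y := hL.eventually (hY.mem_nhds hz)
  have hline : ∀ t : ℝ, HasDerivAt (fun t : ℝ => z + (t : ℂ) * c) c t := by
    intro t
    have := ((Complex.ofRealCLM.hasDerivAt (x := t)).mul_const c).const_add z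
    simpa using this
  have hd : DifferentiableOn ℂ (deriv Φ) Y := hΦ.deriv hY
  have k1 : ∀ᶠ t : ℝ in 𝓝 (0 : ℝ), HasDerivAt (fun t : ℝ => Φ (z + (t : ℂ) * c))
      (c • deriv Φ (z + (t : ℂ) * c)) t := by
    filter_upwards [hin] with t ht
    have h1 := (hΦ.differentiableAt (hY.mem_nhds ht)).hasDerivAt
    exact HasDerivAt.scomp (g₁ := Φ) t h1 (hline t)
  have k2 : HasDerivAt (fun t : ℝ => deriv Φ (z + (t : ℂ) * c)) (c • deriv (deriv Φ) z) 0 := by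
    have ht : z + ((0 : ℝ) : ℂ) * c ∈ Y := by simpa using hz
    have h1 := (hd.differentiableAt (hY.mem_nhds ht)).hasDerivAt
    have := HasDerivAt.scomp (g₁ := deriv Φ) (0 : ℝ) h1 (hline 0)
    have h0 : z + ((0 : ℝ) : ℂ) * c = z := by simp
    rw [h0] at this
    exact this
  have e1 : ∀ᶠ t : ℝ in 𝓝 (0 : ℝ), HasDerivAt
      (fun s : ℝ => (fun p : ℂ × ℂ => ‖Φ p.1‖ ^ 2) ((z, w) + s • (c, 0)))
      (2 * (inner ℂ (Φ (z + (t : ℂ) * c)) (c • deriv Φ (z + (t : ℂ) * c))).re) t := by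
    filter_upwards [k1] with t ht
    have h1 := ht.inner ℂ ht
    have h2 := (reCLM.hasFDerivAt (x := inner ℂ (Φ (z + (t : ℂ) * c)) (Φ (z + (t : ℂ) * c)))).comp_hasDerivAt t h1
    have h3 : (⇑reCLM ∘ fun t : ℝ => (inner ℂ (Φ (z + (t : ℂ) * c)) (Φ (z + (t : ℂ) * c)) : ℂ)) =
        (fun s : ℝ => (fun p : ℂ × ℂ => ‖Φ p.1‖ ^ 2) ((z, w) + s • (c, 0))) := by
      funext s
      simp only [Function.comp, reCLM_apply, Prod.fst_add, Prod.smul_fst, real_smul]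
      rw [← inner_self_eq_norm_sq (𝕜 := ℂ)]
      rfl
    rw [h3] at h2
    refine h2.congr_deriv ?_
    rw [reCLM_apply, add_re, ← inner_conj_symm (c • deriv Φ (z + (t : ℂ) * c)), conj_re]
    ring
  have k3 := ((k1.self_of_nhds).inner ℂ (k2.const_smul c))
  have k4 := (reCLM.hasFDerivAt (x := inner ℂ (Φ (z + ((0 : ℝ) : ℂ) * c))
    (c • deriv Φ (z + ((0 : ℝ) : ℂ) * c)))).comp_hasDerivAt (0 : ℝ) k3
  have k5 := k4.const_mul 2
  obtain ⟨r1, r2⟩ := of_line hcd e1 (b := (2 * (‖c‖ ^ 2 * ‖deriv Φ z‖ ^ 2) +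
    2 * (c ^ 2 * inner ℂ (Φ z) (deriv (deriv Φ) z)).re)) (by
      refine k5.congr_deriv ?_
      rw [reCLM_apply, add_re]
      simp only [Pi.smul_apply]
      have h0 : z + ((0 : ℝ) : ℂ) * c = z := by simp
      rw [h0]
      have h1 : (inner ℂ (c • deriv Φ z) (c • deriv Φ z) : ℂ).re = ‖c‖ ^ 2 * ‖deriv Φ z‖ ^ 2 := by
        have := inner_self_eq_norm_sq (𝕜 := ℂ) (c • deriv Φ z)
        rw [norm_smul, mul_pow] at this
        exact this
      rw [h1, smul_smul, inner_smul_right]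
      ring_nf)
  refine ⟨hcd, ?_, ?_⟩
  · rw [r1]
    simp [inner_smul_right]
  · exact r2

theorem lev_log_pos {E : Type*} [NormedAddCommGroup E] [InnerProductSpace ℂ E] [CompleteSpace E]
    {Φ : ℂ → E} {Y : Set ℂ} (hY : IsOpen Y) (hΦ : DifferentiableOn ℂ Φ Y) {z : ℂ} (hz : z ∈ Y)
    (w : ℂ) (h0 : Φ z ≠ 0) (hr : ∀ r : ℂ, deriv Φ z ≠ r • Φ z) :
    0 < lev (fun p : ℂ × ℂ => Real.log (‖Φ p.1‖ ^ 2)) (z, w) (1, 0) := by
  have hP : 0 < ‖Φ z‖ ^ 2 := by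
    have := norm_pos_iff.mpr h0
    positivity
  have j1 := (normsq_jet hY hΦ hz w 1).log hP
  have j2 := (normsq_jet hY hΦ hz w I).log hP
  have e : ((I, 0) : ℂ × ℂ) = I • ((1, 0) : ℂ × ℂ) := by ext <;> simp
  rw [e] at j2
  rw [lev_of_jet j1 j2]
  set s : ℂ := inner ℂ (Φ z) (deriv Φ z) with hs
  set s2 : ℂ := inner ℂ (Φ z) (deriv (deriv Φ) z) with hs2
  have hcs : ‖s‖ < ‖Φ z‖ * ‖deriv Φ z‖ := by
    rcases (norm_inner_le_norm (𝕜 := ℂ) (Φ z) (deriv Φ z)).lt_or_eq with h | h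
    · exact h
    · exfalso
      have hd0 : deriv Φ z ≠ 0 := by
        have := hr 0
        simpa using this
      obtain ⟨r, -, hr'⟩ := (norm_inner_eq_norm_iff h0 hd0).mp h
      exact hr r hr'
  have hcs2 : ‖s‖ ^ 2 < (‖Φ z‖ * ‖deriv Φ z‖) ^ 2 := by
    exact pow_lt_pow_left₀ hcs (norm_nonneg _) (by norm_num)
  have hn : ‖s‖ ^ 2 = s.re ^ 2 + s.im ^ 2 := by
    rw [← normSq_eq_norm_sq, normSq_apply]; ring
  have hI : (I * s).re = -s.im := by simp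
  have hI2 : (I ^ 2 * s2).re = -s2.re := by simp
  rw [hI, hI2, one_mul, one_pow, one_mul]
  simp only [norm_one, norm_I, one_pow, one_mul]
  have hP2 : 0 < (‖Φ z‖ ^ 2) ^ 2 := by positivity
  rw [← add_div]
  refine div_pos (div_pos ?_ hP2) (by norm_num)
  nlinarith

/-- the vector of the weight six series -/
noncomputable def Phi (z : ℂ) : HE := z • Psi 0 z + Psi 1 z

theorem differentiableOn_Phi : DifferentiableOn ℂ Phi Yt :=
  (differentiableOn_id.smul (differentiableOn_Psi 0)).add (differentiableOn_Psi 1)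

theorem PP_eq (z : ℂ) : PP z = ‖Phi z‖ ^ 2 := rfl

noncomputable def ev (i : I2) : HE →L[ℂ] ℂ := innerSL ℂ (bas i)

theorem ev_apply (i : I2) (x : HE) : ev i x = (x : I2 → ℂ) i := by
  classical
  unfold ev
  rw [innerSL_apply_apply]
  unfold bas
  rw [lp.inner_single_left]
  simp

theorem ev_Phi {z : ℂ} (hz : z ∈ Yt) (i : I2) : ev i (Phi z) =
    vec i.2 (act (rho i.1) (z, 1)) / NN (act (rho i.1) (z, 1)) := by
  rw [ev_apply, ← comp_comb]
  unfold Phi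
  simp only [lp.coeFn_add, Pi.add_apply, lp.coeFn_smul, Pi.smul_apply, smul_eq_mul, Psi_apply hz]

theorem Phi_no_r {z : ℂ} (hz : z ∈ Yt) (r : ℂ) : deriv Phi z ≠ r • Phi z := by
  intro h
  have hd := (differentiableOn_Phi.differentiableAt (isOpen_Yt.mem_nhds hz)).hasDerivAt
  have h1 : HasDerivAt (fun x => ev (1, 1) (Phi x)) (ev (1, 1) (deriv Phi z)) z :=
    (ev (1, 1)).hasFDerivAt.comp_hasDerivAt z hd
  have h2 : HasDerivAt (fun x => ev (1, 0) (Phi x)) (ev (1, 0) (deriv Phi z)) z :=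
    (ev (1, 0)).hasFDerivAt.comp_hasDerivAt z hd
  have he : ∀ x ∈ Yt, ev (1, 0) (Phi x) = x * ev (1, 1) (Phi x) := by
    intro x hx
    rw [ev_Phi hx, ev_Phi hx]
    simp [vec, map_one, act_one, div_eq_mul_inv]
  have h3 : HasDerivAt (fun x => x * ev (1, 1) (Phi x)) (ev (1, 0) (deriv Phi z)) z :=
    h2.congr_of_eventuallyEq (by
      filter_upwards [isOpen_Yt.mem_nhds hz] with x hx using (he x hx).symm)
  have h4 := ((hasDerivAt_id z).mul h1).unique h3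
  rw [h, map_smul, map_smul, he z hz] at h4
  have h5 : ev (1, 1) (Phi z) ≠ 0 := by
    rw [ev_Phi hz]
    simp only [vec, map_one, act_one]
    have := NN_ne hz 1
    rw [map_one, act_one] at this
    simp [this]
  apply h5
  simp only [smul_eq_mul, one_mul, id] at h4
  linear_combination h4

noncomputable def LP (z : ℂ) : ℝ := Real.log (PP z)

theorem lev_LP_pos {z : ℂ} (hz : z ∈ Yt) (w : ℂ) :
    0 < lev (fun p : ℂ × ℂ => LP p.1) (z, w) (1, 0) :=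
  lev_log_pos isOpen_Yt differentiableOn_Phi hz w (vec_ne hz z) (Phi_no_r hz)

end Pool.Agent.H914R3.LF
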