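import Mathlib
import Pool.Agent.H914R3.LF.Levi

/-!
Strict plurisubharmonicity estimates, continued.
-/

set_option autoImplicit false

open Complex Filter Topology Set

namespace Pool.Agent.H914R3.LF

theorem cont_B2 {D : Set (ℂ × ℂ)} (hD : IsOpen D) {u : ℂ × ℂ → ℝ}
    (hu : ContDiffOn ℝ (⊤ : ℕ∞) u D) : ContinuousOn (fderiv ℝ (fderiv ℝ u)) D := by
  have h1 : ContDiffOn ℝ 1 (fderiv ℝ u) D := hu.fderiv_of_isOpen hD (by norm_cast)
  exact h1.continuousOn_fderiv_of_isOpen hD le_rfl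

theorem cont_fd {D : Set (ℂ × ℂ)} (hD : IsOpen D) {u : ℂ × ℂ → ℝ}
    (hu : ContDiffOn ℝ (⊤ : ℕ∞) u D) : ContinuousOn (fderiv ℝ u) D :=
  hu.continuousOn_fderiv_of_isOpen hD (by norm_cast)

theorem cont_B2v {D : Set (ℂ × ℂ)} (hD : IsOpen D) {u : ℂ × ℂ → ℝ}
    (hu : ContDiffOn ℝ (⊤ : ℕ∞) u D) (v w : ℂ × ℂ) : ContinuousOn (fun p => B2 u p v w) D := by
  unfold B2
  exact ((cont_B2 hD hu).clm_apply continuousOn_const).clm_apply continuousOn_const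

theorem cont_lev {D : Set (ℂ × ℂ)} (hD : IsOpen D) {u : ℂ × ℂ → ℝ}
    (hu : ContDiffOn ℝ (⊤ : ℕ∞) u D) (v : ℂ × ℂ) : ContinuousOn (fun p => lev u p v) D := by
  unfold lev
  exact ((cont_B2v hD hu _ _).add (cont_B2v hD hu _ _)).div_const _

theorem compact_lower {K : Set (ℂ × ℂ)} (hK : IsCompact K) {f : ℂ × ℂ → ℝ}
    (hf : ContinuousOn f K) (hp : ∀ p ∈ K, 0 < f p) : ∃ c > 0, ∀ p ∈ K, c ≤ f p := by
  rcases K.eq_empty_or_nonempty with h | h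
  · exact ⟨1, one_pos, by rw [h]; simp⟩
  · obtain ⟨x, hx, hm⟩ := hK.exists_isMinOn h hf
    exact ⟨f x, hp x hx, fun p hpK => hm hpK⟩

theorem compact_upper {K : Set (ℂ × ℂ)} (hK : IsCompact K) {f : ℂ × ℂ → ℝ}
    (hf : ContinuousOn f K) : ∃ c > 0, ∀ p ∈ K, |f p| ≤ c := by
  obtain ⟨c, hc⟩ := hK.exists_bound_of_continuousOn hf
  exact ⟨max c 1, by positivity, fun p hp => (hc p hp).trans (le_max_left _ _)⟩

theorem num_est {κ0 g0 M σ ε a b t G G1 GI G11 GII : ℝ} (hκ0 : 0 < κ0) (hg0 : 0 < g0)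
    (hM1 : 1 ≤ M) (hσ : σ = g0 / (10 * M)) (hε0 : 0 < ε) (hε1 : ε ≤ 1) (hε2 : ε * (4 * M ^ 2) ≤ g0)
    (hε3 : ε * (21 * M ^ 3) ≤ κ0 * σ ^ 4) (ht : 0 ≤ t) (htt : a ^ 2 + b ^ 2 = t ^ 2) (htM : t ≤ M)
    (hG : g0 ≤ G) (hGM : |G| ≤ M) (h1 : |G1| ≤ M) (hI : |GI| ≤ M) (h11 : |G11| ≤ M)
    (hII : |GII| ≤ M) :
    -(κ0 / 6) ≤ ((((t ^ 2 + ε * G) * (2 + ε * G11) - (2 * a + ε * G1) ^ 2) / (t ^ 2 + ε * G) ^ 2) +
      (((t ^ 2 + ε * G) * (2 + ε * GII) - (2 * b + ε * GI) ^ 2) / (t ^ 2 + ε * G) ^ 2)) / 4 := by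
  have hGp : 0 < G := lt_of_lt_of_le hg0 hG
  have hM0 : 0 < M := by linarith
  have hGM' : G ≤ M := (le_abs_self _).trans hGM
  have hg0M : g0 ≤ M := hG.trans hGM'
  have hQ : 0 < t ^ 2 + ε * G := by positivity
  have hσ0 : 0 < σ := by rw [hσ]; positivity
  have hσM : 10 * M * σ = g0 := by rw [hσ]; field_simp
  have hσ1 : σ ≤ 1 := by nlinarith
  have ha : |a| ≤ t := by apply abs_le_of_sq_le_sq _ ht; nlinarith [sq_nonneg b]
  have hb : |b| ≤ t := by apply abs_le_of_sq_le_sq _ ht; nlinarith [sq_nonneg a]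
  have ha1 : a * G1 ≤ t * M := (le_abs_self _).trans (by
    rw [abs_mul]; exact mul_le_mul ha h1 (abs_nonneg _) ht)
  have hb1 : b * GI ≤ t * M := (le_abs_self _).trans (by
    rw [abs_mul]; exact mul_le_mul hb hI (abs_nonneg _) ht)
  have hs1 : G1 ^ 2 ≤ M ^ 2 := sq_le_sq' (by linarith [(abs_le.mp h1).1]) (abs_le.mp h1).2
  have hs2 : GI ^ 2 ≤ M ^ 2 := sq_le_sq' (by linarith [(abs_le.mp hI).1]) (abs_le.mp hI).2
  have hd : -(2 * M) ≤ G11 + GII := by linarith [(abs_le.mp h11).1, (abs_le.mp hII).1]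
  have hQd : -((t ^ 2 + ε * M) * (2 * M)) ≤ (t ^ 2 + ε * G) * (G11 + GII) := by
    have h3 : -((t ^ 2 + ε * G) * (2 * M)) ≤ (t ^ 2 + ε * G) * (G11 + GII) := by
      rw [← mul_neg]; exact mul_le_mul_of_nonneg_left hd hQ.le
    have h4 : (t ^ 2 + ε * G) * (2 * M) ≤ (t ^ 2 + ε * M) * (2 * M) := by
      apply mul_le_mul_of_nonneg_right _ (by positivity)
      have := mul_le_mul_of_nonneg_left hGM' hε0.le
      linarith
    linarith
  rw [← add_div]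
  set num := (t ^ 2 + ε * G) * (2 + ε * G11) - (2 * a + ε * G1) ^ 2 +
    ((t ^ 2 + ε * G) * (2 + ε * GII) - (2 * b + ε * GI) ^ 2) with hnum
  have hnum1 : num = 4 * ε * G + ε * ((t ^ 2 + ε * G) * (G11 + GII)) - 4 * ε * (a * G1 + b * GI) -
      ε ^ 2 * (G1 ^ 2 + GI ^ 2) := by
    rw [hnum]
    linear_combination (-4) * htt
  have hnum2 : 4 * ε * G - ε * ((t ^ 2 + ε * M) * (2 * M)) - 4 * ε * (t * M + t * M) -
      ε ^ 2 * (M ^ 2 + M ^ 2) ≤ num := by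
    rw [hnum1]
    have a1 := mul_le_mul_of_nonneg_left hQd hε0.le
    have a2 := mul_le_mul_of_nonneg_left (add_le_add ha1 hb1) (by positivity : 0 ≤ 4 * ε)
    have a3 := mul_le_mul_of_nonneg_left (add_le_add hs1 hs2) (by positivity : 0 ≤ ε ^ 2)
    linarith
  have hQ2 : 0 < (t ^ 2 + ε * G) ^ 2 := by positivity
  have hε4 : ε ^ 2 * (4 * M ^ 2) ≤ ε * g0 := by
    have := mul_le_mul_of_nonneg_left hε2 hε0.le
    linarith
  rcases le_or_gt t σ with hts | hts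
  · have hnn : 0 ≤ num := by
      have b1 : t ^ 2 ≤ σ := by nlinarith
      have b2 : M * t ^ 2 ≤ M * σ := mul_le_mul_of_nonneg_left b1 hM0.le
      have b3 : M * t ≤ M * σ := mul_le_mul_of_nonneg_left hts hM0.le
      have b4 : 2 * (M * t ^ 2) + 8 * (M * t) ≤ g0 := by linarith
      have b5 := mul_le_mul_of_nonneg_left b4 hε0.le
      have b6 := mul_le_mul_of_nonneg_left hG hε0.le
      have b7 : 0 < ε * g0 := by positivity
      linarith
    have : 0 ≤ num / (t ^ 2 + ε * G) ^ 2 / 4 := by positivity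
    linarith
  · have hlow : -(14 * M ^ 3 * ε) ≤ num := by
      have b1 : t ^ 2 ≤ M ^ 2 := pow_le_pow_left₀ ht htM 2
      have b2 : M * t ^ 2 ≤ M ^ 3 := by nlinarith
      have b3 : M * t ≤ M ^ 2 := by nlinarith
      have b4 : M ^ 2 ≤ M ^ 3 := pow_le_pow_right₀ hM1 (by norm_num)
      have b5 : 2 * (M * t ^ 2) + 8 * (M * t) + 4 * M ^ 2 ≤ 14 * M ^ 3 := by linarith
      have b6 := mul_le_mul_of_nonneg_left b5 hε0.le
      have b7 : 0 ≤ ε * G := by positivity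
      have b8 : ε ^ 2 * (4 * M ^ 2) ≤ ε * (4 * M ^ 2) := by
        apply mul_le_mul_of_nonneg_right _ (by positivity)
        nlinarith
      linarith
    have hQl : σ ^ 2 ≤ t ^ 2 + ε * G := by
      have : σ ^ 2 ≤ t ^ 2 := pow_le_pow_left₀ hσ0.le hts.le 2
      have : 0 ≤ ε * G := by positivity
      linarith
    have hQl2 : σ ^ 4 ≤ (t ^ 2 + ε * G) ^ 2 := by
      have := pow_le_pow_left₀ (by positivity) hQl 2
      rw [← pow_mul] at this
      simpa using this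
    rw [le_div_iff₀ (by norm_num), le_div_iff₀ hQ2]
    have h5 : κ0 * σ ^ 4 ≤ κ0 * (t ^ 2 + ε * G) ^ 2 := mul_le_mul_of_nonneg_left hQl2 hκ0.le
    linarith

theorem lev_q_bound {D : Set (ℂ × ℂ)} (hD : IsOpen D) {L G : ℂ × ℂ → ℝ}
    (hL : ContDiffOn ℝ (⊤ : ℕ∞) L D) (hG : ContDiffOn ℝ (⊤ : ℕ∞) G D) {K : Set (ℂ × ℂ)}
    (hK : IsCompact K) (hKD : K ⊆ D) (hGpos : ∀ p ∈ K, 0 < G p)
    (hLpos : ∀ p ∈ K, 0 < lev L p (1, 0)) :
    ∃ ε > 0, ∃ κ > 0, ∀ p ∈ K,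
      κ ≤ lev (fun p => (1 / 3) * L p + Real.log (NW p + ε * G p)) p (1, 0) := by
  obtain ⟨κ0, hκ0, hκ⟩ := compact_lower hK ((cont_lev hD hL (1, 0)).mono hKD) hLpos
  obtain ⟨g0, hg0, hg⟩ := compact_lower hK (hG.continuousOn.mono hKD) hGpos
  obtain ⟨m1, hm1, hm1'⟩ := compact_upper hK (hG.continuousOn.mono hKD)
  obtain ⟨m2, hm2, hm2'⟩ := compact_upper hK
    (((cont_fd hD hG).clm_apply (continuousOn_const (c := ((1, 0) : ℂ × ℂ)))).mono hKD)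
  obtain ⟨m3, hm3, hm3'⟩ := compact_upper hK
    (((cont_fd hD hG).clm_apply (continuousOn_const (c := ((I, 0) : ℂ × ℂ)))).mono hKD)
  obtain ⟨m4, hm4, hm4'⟩ := compact_upper hK ((cont_B2v hD hG (1, 0) (1, 0)).mono hKD)
  obtain ⟨m5, hm5, hm5'⟩ := compact_upper hK ((cont_B2v hD hG (I, 0) (I, 0)).mono hKD)
  obtain ⟨m6, hm6, hm6'⟩ := compact_upper hK
    (f := fun p : ℂ × ℂ => ‖p.1 - p.2‖) (by fun_prop)
  set M := 1 + m1 + m2 + m3 + m4 + m5 + m6 with hM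
  have hM1 : 1 ≤ M := by linarith
  set σ := g0 / (10 * M) with hσ
  have hσ0 : 0 < σ := by positivity
  set ε := min (min 1 (g0 / (4 * M ^ 2))) (κ0 * σ ^ 4 / (21 * M ^ 3)) with hε
  have hε0 : 0 < ε := by
    refine lt_min (lt_min one_pos (by positivity)) (by positivity)
  have hε1 : ε ≤ 1 := (min_le_left _ _).trans (min_le_left _ _)
  have hε2 : ε * (4 * M ^ 2) ≤ g0 := by
    have := (min_le_left (min 1 (g0 / (4 * M ^ 2))) (κ0 * σ ^ 4 / (21 * M ^ 3))).trans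
      (min_le_right _ _)
    rw [← hε, le_div_iff₀ (by positivity)] at this
    exact this
  have hε3 : ε * (21 * M ^ 3) ≤ κ0 * σ ^ 4 := by
    have := (min_le_right (min 1 (g0 / (4 * M ^ 2))) (κ0 * σ ^ 4 / (21 * M ^ 3)))
    rw [← hε, le_div_iff₀ (by positivity)] at this
    exact this
  refine ⟨ε, hε0, κ0 / 6, by positivity, fun p hp => ?_⟩
  have hpD := hD.mem_nhds (hKD hp)
  have hLc : ContDiffAt ℝ 2 L p := (hL.contDiffAt hpD).of_le (by norm_cast)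
  have hGc : ContDiffAt ℝ 2 G p := (hG.contDiffAt hpD).of_le (by norm_cast)
  have hGp := hg p hp
  have hNp : 0 ≤ NW p := by unfold NW; positivity
  have hQp : 0 < NW p + ε * G p := by
    have : 0 < ε * G p := mul_pos hε0 (lt_of_lt_of_le hg0 hGp)
    linarith
  have e : I • ((1, 0) : ℂ × ℂ) = ((I, 0) : ℂ × ℂ) := by ext <;> simp
  have j1 := ((Jet.mk' hLc (1, 0)).const_mul (1 / 3)).add
    (((jet_NW p 1).add ((Jet.mk' hGc (1, 0)).const_mul ε)).log hQp)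
  have j2 := ((Jet.mk' hLc (I, 0)).const_mul (1 / 3)).add
    (((jet_NW p I).add ((Jet.mk' hGc (I, 0)).const_mul ε)).log hQp)
  have hlevL : lev L p (1, 0) = (B2 L p (1, 0) (1, 0) + B2 L p (I, 0) (I, 0)) / 4 := by
    unfold lev; rw [e]
  have h0 := hκ p hp
  have n1 := num_est (a := (p.1 - p.2).re) (b := (p.1 - p.2).im) (t := ‖p.1 - p.2‖) hκ0 hg0 hM1 hσ
    hε0 hε1 hε2 hε3 (norm_nonneg _) (by
      rw [← normSq_eq_norm_sq, normSq_apply]; ring)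
    ((le_abs_self _).trans ((hm6' p hp).trans (by linarith))) hGp
    ((hm1' p hp).trans (by linarith)) ((hm2' p hp).trans (by linarith))
    ((hm3' p hp).trans (by linarith)) ((hm4' p hp).trans (by linarith))
    ((hm5' p hp).trans (by linarith))
  rw [← e] at j2
  rw [lev_of_jet j1 j2]
  rw [hlevL, ← e] at h0
  rw [← e] at n1
  change _ ≤ ((((NW p + ε * G p) * _ - _) / (NW p + ε * G p) ^ 2) +
    (((NW p + ε * G p) * _ - _) / (NW p + ε * G p) ^ 2)) / 4 at n1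
  simp only [one_re, one_im, I_re, I_im] at *
  ring_nf at n1 h0 ⊢
  linarith

end Pool.Agent.H914R3.LF
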