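import Mathlib
import Pool.Agent.H914R3.LF.Est

/-!
Strict plurisubharmonicity of `-r ^ η`.
-/

set_option autoImplicit false

open Complex Filter Topology Set

namespace Pool.Agent.H914R3.LF

theorem num_est2 {κ M M1 η y z b br bi q1 q2 l : ℝ} (hκ : 0 < κ) (hM : 0 < M) (hM1 : 0 < M1)
    (hη : 0 < η) (hη1 : η ≤ 1 / 4) (hη2 : η * (4 * M1 ^ 2) ≤ κ) (hy : 0 < y)
    (hy2 : y ^ 2 * (8 * (M ^ 2 / κ + M + κ + 1)) ≤ 1) (_hz : 0 ≤ z) (_hb : 0 ≤ b)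
    (hbb : br ^ 2 + bi ^ 2 = b ^ 2) (hq1 : |q1| ≤ M1 * (z + b)) (hq2 : |q2| ≤ M1 * (z + b))
    (hl : z ^ 2 * κ - M * (z * b) - M * b ^ 2 / 2 ≤ l) (h0 : 0 < z ∨ 0 < b) :
    0 < l + b ^ 2 / (4 * y ^ 2) - η * ((bi / y - q1) ^ 2 + (br / y - q2) ^ 2) / 4 := by
  have hs1 : q1 ^ 2 ≤ 2 * M1 ^ 2 * (z ^ 2 + b ^ 2) := by
    have h1 : q1 ^ 2 ≤ (M1 * (z + b)) ^ 2 := sq_le_sq' (by linarith [(abs_le.mp hq1).1])
      (abs_le.mp hq1).2
    have h2 : (z + b) ^ 2 ≤ 2 * (z ^ 2 + b ^ 2) := by nlinarith [sq_nonneg (z - b)]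
    have h3 := mul_le_mul_of_nonneg_left h2 (by positivity : 0 ≤ M1 ^ 2)
    nlinarith
  have hs2 : q2 ^ 2 ≤ 2 * M1 ^ 2 * (z ^ 2 + b ^ 2) := by
    have h1 : q2 ^ 2 ≤ (M1 * (z + b)) ^ 2 := sq_le_sq' (by linarith [(abs_le.mp hq2).1])
      (abs_le.mp hq2).2
    have h2 : (z + b) ^ 2 ≤ 2 * (z ^ 2 + b ^ 2) := by nlinarith [sq_nonneg (z - b)]
    have h3 := mul_le_mul_of_nonneg_left h2 (by positivity : 0 ≤ M1 ^ 2)
    nlinarith
  set T := b ^ 2 / y ^ 2 with hT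
  have hT1 : (bi / y - q1) ^ 2 + (br / y - q2) ^ 2 ≤ 2 * T + 8 * M1 ^ 2 * (z ^ 2 + b ^ 2) := by
    have h1 : (bi / y - q1) ^ 2 ≤ 2 * (bi / y) ^ 2 + 2 * q1 ^ 2 := by
      nlinarith [sq_nonneg (bi / y + q1)]
    have h2 : (br / y - q2) ^ 2 ≤ 2 * (br / y) ^ 2 + 2 * q2 ^ 2 := by
      nlinarith [sq_nonneg (br / y + q2)]
    have h3 : 2 * (bi / y) ^ 2 + 2 * (br / y) ^ 2 = 2 * T := by
      rw [hT, ← hbb]; field_simp; ring
    linarith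
  have hTe : b ^ 2 / (4 * y ^ 2) = T / 4 := by rw [hT]; field_simp
  rw [hTe]
  have hT0 : 0 ≤ T := by rw [hT]; positivity
  have hTl : 8 * (M ^ 2 / κ + M + κ + 1) * b ^ 2 ≤ T := by
    rw [hT, le_div_iff₀ (by positivity)]
    have := mul_le_mul_of_nonneg_left hy2 (by positivity : 0 ≤ b ^ 2)
    linarith
  have h1 := mul_le_mul_of_nonneg_left hT1 hη.le
  have h2 : η * T ≤ T / 4 := by nlinarith
  have h3 : η * (4 * M1 ^ 2) * (z ^ 2 + b ^ 2) ≤ κ * (z ^ 2 + b ^ 2) :=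
    mul_le_mul_of_nonneg_right hη2 (by positivity)
  have h4 : M * (z * b) ≤ κ / 4 * z ^ 2 + M ^ 2 / κ * b ^ 2 := by
    have : 0 ≤ (κ / 2 * z - M * b) ^ 2 / κ := by positivity
    have e : (κ / 2 * z - M * b) ^ 2 / κ = κ / 4 * z ^ 2 - M * (z * b) + M ^ 2 / κ * b ^ 2 := by
      field_simp; ring
    linarith
  have h5 : 0 < κ / 4 * z ^ 2 + b ^ 2 := by
    rcases h0 with h | h
    · have : 0 < κ / 4 * z ^ 2 := by positivity
      nlinarith [sq_nonneg b]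
    · have : 0 < b ^ 2 := by positivity
      have : 0 ≤ κ / 4 * z ^ 2 := by positivity
      linarith
  have h6 : 0 ≤ M ^ 2 / κ * b ^ 2 := by positivity
  have h7 : 0 ≤ M * b ^ 2 := by positivity
  have h8 : 0 ≤ κ * b ^ 2 := by positivity
  nlinarith

theorem cont_B2norm {D : Set (ℂ × ℂ)} (hD : IsOpen D) {u : ℂ × ℂ → ℝ}
    (hu : ContDiffOn ℝ (⊤ : ℕ∞) u D) : ContinuousOn (fun p => ‖fderiv ℝ (fderiv ℝ u) p‖) D := by
  have h1 : ContDiffOn ℝ 1 (fderiv ℝ u) D := hu.fderiv_of_isOpen hD (by norm_cast)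
  exact continuous_norm.comp_continuousOn (h1.continuousOn_fderiv_of_isOpen hD le_rfl)

theorem cont_fdnorm {D : Set (ℂ × ℂ)} (hD : IsOpen D) {u : ℂ × ℂ → ℝ}
    (hu : ContDiffOn ℝ (⊤ : ℕ∞) u D) : ContinuousOn (fun p => ‖fderiv ℝ u p‖) D :=
  continuous_norm.comp_continuousOn (hu.continuousOn_fderiv_of_isOpen hD (by norm_cast))

theorem psh_est {D : Set (ℂ × ℂ)} (hD : IsOpen D) {q : ℂ × ℂ → ℝ}
    (hq : ContDiffOn ℝ (⊤ : ℕ∞) q D) {K : Set (ℂ × ℂ)} (hK : IsCompact K) (hKD : K ⊆ D) {κ : ℝ}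
    (hκ : 0 < κ) (hlev : ∀ p ∈ K, κ ≤ lev q p (1, 0)) :
    ∃ η : ℝ, 0 < η ∧ η < 1 ∧ ∃ δ > 0, ∀ p ∈ K, 0 < p.2.im → p.2.im ≤ δ → ∀ v : ℂ × ℂ, v ≠ 0 →
      0 < lev (fun p => -Real.exp (η * (Real.log p.2.im - q p))) p v := by
  obtain ⟨M, hM, hM'⟩ := compact_upper hK ((cont_B2norm hD hq).mono hKD)
  obtain ⟨M1, hM1, hM1'⟩ := compact_upper hK ((cont_fdnorm hD hq).mono hKD)
  set η := min (1 / 4) (κ / (4 * M1 ^ 2)) with hη
  have hη0 : 0 < η := lt_min (by norm_num) (by positivity)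
  have hη1 : η ≤ 1 / 4 := min_le_left _ _
  have hη2 : η * (4 * M1 ^ 2) ≤ κ := by
    have := min_le_right (1 / 4) (κ / (4 * M1 ^ 2))
    rwa [← hη, le_div_iff₀ (by positivity)] at this
  set C := 8 * (M ^ 2 / κ + M + κ + 1) with hC
  have hC0 : 1 < C := by
    have : 0 < M ^ 2 / κ := by positivity
    linarith
  refine ⟨η, hη0, by linarith, 1 / C, by positivity, fun p hp hy hyδ v hv => ?_⟩
  have hqc : ContDiffAt ℝ 2 q p := (hq.contDiffAt (hD.mem_nhds (hKD hp))).of_le (by norm_cast)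
  have j1 := ((((jet_im p v).log hy).add (Jet.mk' hqc v).neg).const_mul η).exp.neg
  have j2 := ((((jet_im p (I • v)).log hy).add (Jet.mk' hqc (I • v)).neg).const_mul η).exp.neg
  have e : (fun p : ℂ × ℂ => -Real.exp (η * (Real.log p.2.im - q p))) =
      fun p : ℂ × ℂ => -Real.exp (η * (Real.log p.2.im + -q p)) := by
    funext p; rw [sub_eq_add_neg]
  rw [e, lev_of_jet j1 j2]
  obtain ⟨ζ, β⟩ := v
  have hx1 : (I • ((ζ, β) : ℂ × ℂ)).2.im = β.re := by simp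
  rw [hx1]
  simp only
  have hb1 := (fderiv ℝ q p).le_opNorm (ζ, β)
  have hb2 := (fderiv ℝ q p).le_opNorm (I • (ζ, β))
  have hn : ‖((ζ, β) : ℂ × ℂ)‖ ≤ ‖ζ‖ + ‖β‖ := by
    rw [Prod.norm_def]
    exact max_le (by simp) (by simp)
  have hn2 : ‖I • ((ζ, β) : ℂ × ℂ)‖ ≤ ‖ζ‖ + ‖β‖ := by
    rw [norm_smul, norm_I, one_mul]; exact hn
  have hM1p := hM1' p hp
  rw [abs_of_nonneg (norm_nonneg _)] at hM1p
  have hq1 : |fderiv ℝ q p (ζ, β)| ≤ M1 * (‖ζ‖ + ‖β‖) :=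
    hb1.trans (mul_le_mul hM1p hn (norm_nonneg _) hM1.le)
  have hq2 : |fderiv ℝ q p (I • (ζ, β))| ≤ M1 * (‖ζ‖ + ‖β‖) :=
    hb2.trans (mul_le_mul hM1p hn2 (norm_nonneg _) hM1.le)
  have hMp := (le_abs_self _).trans (hM' p hp)
  have hl := lev_ge q p ζ β hMp
  have hl2 : ‖ζ‖ ^ 2 * κ - M * (‖ζ‖ * ‖β‖) - M * ‖β‖ ^ 2 / 2 ≤ lev q p (ζ, β) := by
    have := mul_le_mul_of_nonneg_left (hlev p hp) (by positivity : 0 ≤ ‖ζ‖ ^ 2)
    linarith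
  have h0 : 0 < ‖ζ‖ ∨ 0 < ‖β‖ := by
    by_contra hcon
    push Not at hcon
    apply hv
    have a1 := norm_le_zero_iff.mp hcon.1
    have a2 := norm_le_zero_iff.mp hcon.2
    rw [a1, a2]; rfl
  have hy2 : p.2.im ^ 2 * C ≤ 1 := by
    rw [le_div_iff₀ (by positivity)] at hyδ
    have : p.2.im ≤ 1 := by nlinarith
    nlinarith
  have key := num_est2 (y := p.2.im) (br := β.re) (bi := β.im) hκ hM hM1 hη0 hη1 hη2 hy hy2
    (norm_nonneg ζ) (norm_nonneg β) (by rw [← normSq_eq_norm_sq, normSq_apply]; ring) hq1 hq2 hl2 h0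
  unfold lev at key
  set E := Real.exp (η * (Real.log p.2.im + -q p)) with hE
  have hE0 : 0 < E := Real.exp_pos _
  have hbb : ‖β‖ ^ 2 = β.re ^ 2 + β.im ^ 2 := by rw [← normSq_eq_norm_sq, normSq_apply]; ring
  rw [hbb] at key
  have hmul := mul_pos (mul_pos hE0 hη0) key
  refine lt_of_lt_of_eq hmul ?_
  field_simp
  ring

end Pool.Agent.H914R3.LF
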