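import Mathlib
import Pool.Agent.H914R3.LF.Est2

/-!
The invariant defining function and strict plurisubharmonicity of `-r ^ η` near the boundary.
-/

set_option autoImplicit false

open Complex Filter Topology Set

namespace Pool.Agent.H914R3.LF

/-- the part `Y × ℂ` of `ℂ²` -/
def DY : Set (ℂ × ℂ) := {p | p.1 ∈ Yt}

theorem isOpen_DY : IsOpen DY := isOpen_Yt.preimage continuous_fst

noncomputable def GG (p : ℂ × ℂ) : ℝ := Real.exp (-(5 / 3) * LP p.1) * SS p.1 p.2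

/-- the metric factor -/
noncomputable def Qf (ε : ℝ) (p : ℂ × ℂ) : ℝ := Real.exp ((1 / 3) * LP p.1) * (NW p + ε * GG p)

/-- the invariant boundary distance -/
noncomputable def rr (ε : ℝ) (p : ℂ × ℂ) : ℝ := p.2.im / Qf ε p

theorem contDiffOn_LP : ContDiffOn ℝ (⊤ : ℕ∞) (fun p : ℂ × ℂ => LP p.1) DY := by
  have h : ContDiffOn ℝ (⊤ : ℕ∞) LP Yt := contDiffOn_PP.log (fun z hz => (PP_pos hz).ne')
  exact h.comp contDiff_fst.contDiffOn (fun p hp => hp)

theorem contDiffOn_GG : ContDiffOn ℝ (⊤ : ℕ∞) GG DY := by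
  have h1 : ContDiffOn ℝ (⊤ : ℕ∞) (fun p : ℂ × ℂ => SS p.1 p.2) DY :=
    contDiffOn_SS.mono (fun p hp => ⟨hp, mem_univ _⟩)
  exact ((contDiffOn_const.mul contDiffOn_LP).exp).mul h1

theorem contDiff_NW : ContDiff ℝ (⊤ : ℕ∞) NW := by
  unfold NW
  exact (contDiff_fst.sub contDiff_snd).norm_sq ℂ

theorem GG_pos {p : ℂ × ℂ} (hp : p.1 ∈ Yt) : 0 < GG p :=
  mul_pos (Real.exp_pos _) (SS_pos hp _)

theorem NWG_pos {ε : ℝ} (hε : 0 < ε) {p : ℂ × ℂ} (hp : p.1 ∈ Yt) : 0 < NW p + ε * GG p := by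
  have h1 := GG_pos hp
  have h2 : 0 ≤ NW p := by unfold NW; positivity
  positivity

theorem Qf_pos {ε : ℝ} (hε : 0 < ε) {p : ℂ × ℂ} (hp : p.1 ∈ Yt) : 0 < Qf ε p :=
  mul_pos (Real.exp_pos _) (NWG_pos hε hp)

theorem contDiffOn_Qf (ε : ℝ) : ContDiffOn ℝ (⊤ : ℕ∞) (Qf ε) DY := by
  unfold Qf
  exact ((contDiffOn_const.mul contDiffOn_LP).exp).mul
    (contDiff_NW.contDiffOn.add (contDiffOn_const.mul contDiffOn_GG))

theorem contDiffOn_qf {ε : ℝ} (hε : 0 < ε) : ContDiffOn ℝ (⊤ : ℕ∞)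
    (fun p : ℂ × ℂ => (1 / 3) * LP p.1 + Real.log (NW p + ε * GG p)) DY := by
  exact (contDiffOn_const.mul contDiffOn_LP).add
    ((contDiff_NW.contDiffOn.add (contDiffOn_const.mul contDiffOn_GG)).log
      (fun p hp => (NWG_pos hε hp).ne'))

theorem exp_qf {ε : ℝ} (hε : 0 < ε) {p : ℂ × ℂ} (hp : p.1 ∈ Yt) :
    Real.exp ((1 / 3) * LP p.1 + Real.log (NW p + ε * GG p)) = Qf ε p := by
  rw [Real.exp_add, Real.exp_log (NWG_pos hε hp)]; rfl

theorem contDiffOn_rr {ε : ℝ} (hε : 0 < ε) : ContDiffOn ℝ (⊤ : ℕ∞) (rr ε) DY := by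
  unfold rr
  refine ContDiffOn.div ?_ (contDiffOn_Qf ε) (fun p hp => (Qf_pos hε hp).ne')
  exact ((imCLM.comp (ContinuousLinearMap.snd ℝ ℂ ℂ)).contDiff).contDiffOn

/-! invariance -/

theorem mob_sub (M : SL2) {z w : ℂ} (hz : den M z ≠ 0) (hw : den M w ≠ 0) :
    mob M z - mob M w = (z - w) / (den M z * den M w) := by
  have hdet : (M.1 0 0 : ℂ) * M.1 1 1 - (M.1 0 1 : ℂ) * M.1 1 0 = 1 := by
    have := M.2
    rw [Matrix.det_fin_two] at this
    exact_mod_cast this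
  unfold mob
  rw [div_sub_div _ _ hz hw]
  congr 1
  unfold den
  linear_combination (z - w) * hdet

theorem im_mob (M : SL2) {w : ℂ} (hw : den M w ≠ 0) :
    (mob M w).im = w.im / ‖den M w‖ ^ 2 := by
  have hdet : M.1 0 0 * M.1 1 1 - M.1 0 1 * M.1 1 0 = 1 := by
    have := M.2
    rwa [Matrix.det_fin_two] at this
  have hn : normSq (den M w) ≠ 0 := by rwa [Ne, normSq_eq_zero]
  unfold mob
  rw [Complex.div_im, ← normSq_eq_norm_sq]
  rw [← sub_div]
  congr 1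
  simp only [den, add_re, add_im, mul_re, mul_im, ofReal_re, ofReal_im]
  linear_combination w.im * hdet

theorem den_ne_of_im (M : SL2) {w : ℂ} (hw : w.im ≠ 0) : den M w ≠ 0 := by
  intro h
  have hdet : M.1 0 0 * M.1 1 1 - M.1 0 1 * M.1 1 0 = 1 := by
    have := M.2
    rwa [Matrix.det_fin_two] at this
  have h1 := congrArg im h
  have h2 := congrArg re h
  simp only [den, add_re, add_im, mul_re, mul_im, ofReal_re, ofReal_im, zero_re, zero_im] at h1 h2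
  have h3 : M.1 1 0 = 0 := by
    have : M.1 1 0 * w.im = 0 := by linarith
    rcases mul_eq_zero.mp this with h | h
    · exact h
    · exact absurd h hw
  rw [h3] at h2 hdet
  have h4 : M.1 1 1 = 0 := by linarith
  rw [h4] at hdet
  norm_num at hdet

theorem LP_mob {z : ℂ} (hz : z ∈ Yt) (g : G) :
    LP (mob (rho g) z) = LP z + 6 * Real.log ‖den (rho g) z‖ := by
  unfold LP
  have hd : ‖den (rho g) z‖ ≠ 0 := norm_ne_zero_iff.mpr (den_ne hz g)
  rw [PP_mob hz g, Real.log_mul (pow_ne_zero _ hd) (PP_pos hz).ne', Real.log_pow]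
  push_cast; ring

/-- action on pairs -/
noncomputable def am (g : G) (p : ℂ × ℂ) : ℂ × ℂ := (mob (rho g) p.1, mob (rho g) p.2)

theorem Qf_am {ε : ℝ} {p : ℂ × ℂ} (hp : p.1 ∈ Yt) (g : G) (hw : den (rho g) p.2 ≠ 0) :
    Qf ε (am g p) * ‖den (rho g) p.2‖ ^ 2 = Qf ε p := by
  have hz := den_ne hp g
  have hdz : 0 < ‖den (rho g) p.1‖ := norm_pos_iff.mpr hz
  have hdw : 0 < ‖den (rho g) p.2‖ := norm_pos_iff.mpr hw
  have e1 : Real.exp ((1 / 3) * LP (mob (rho g) p.1)) =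
      Real.exp ((1 / 3) * LP p.1) * ‖den (rho g) p.1‖ ^ 2 := by
    rw [LP_mob hp g, mul_add, Real.exp_add]
    congr 1
    rw [show (1 / 3 : ℝ) * (6 * Real.log ‖den (rho g) p.1‖) = (2 : ℕ) * Real.log ‖den (rho g) p.1‖ by
      push_cast; ring, ← Real.log_pow, Real.exp_log (by positivity)]
  have e2 : Real.exp (-(5 / 3) * LP (mob (rho g) p.1)) * ‖den (rho g) p.1‖ ^ 10 =
      Real.exp (-(5 / 3) * LP p.1) := by
    rw [LP_mob hp g, mul_add, Real.exp_add]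
    rw [show -(5 / 3 : ℝ) * (6 * Real.log ‖den (rho g) p.1‖) =
      -((10 : ℕ) * Real.log ‖den (rho g) p.1‖) by
      push_cast; ring, ← Real.log_pow, Real.exp_neg, Real.exp_log (by positivity)]
    field_simp
  have e3 : NW (am g p) * (‖den (rho g) p.1‖ ^ 2 * ‖den (rho g) p.2‖ ^ 2) = NW p := by
    unfold NW am
    simp only
    rw [mob_sub _ hz hw, norm_div, norm_mul]
    field_simp
  have e4 := SS_mob hp g hw
  have e5 : GG (am g p) * (‖den (rho g) p.1‖ ^ 2 * ‖den (rho g) p.2‖ ^ 2) = GG p := by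
    unfold GG am
    simp only
    rw [← e2]
    have h8 : ‖den (rho g) p.1‖ ^ 8 ≠ 0 := by positivity
    apply mul_right_cancel₀ h8
    linear_combination (Real.exp (-(5 / 3) * LP (mob (rho g) p.1)) * ‖den (rho g) p.1‖ ^ 10) * e4
  unfold Qf
  rw [show (am g p).1 = mob (rho g) p.1 from rfl, e1, ← e3, ← e5]
  ring

theorem rr_am {ε : ℝ} {p : ℂ × ℂ} (hp : p.1 ∈ Yt) (g : G) (hw : den (rho g) p.2 ≠ 0) :
    rr ε (am g p) = rr ε p := by
  have hdw : ‖den (rho g) p.2‖ ≠ 0 := norm_ne_zero_iff.mpr hw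
  unfold rr
  rw [← Qf_am hp g hw]
  show (mob (rho g) p.2).im / _ = _
  rw [im_mob _ hw, div_div, mul_comm]

theorem am_mem {p : ℂ × ℂ} (hp : p ∈ DY) (g : G) : am g p ∈ DY := mob_mem hp g

theorem hasDerivAt_mob (M : SL2) {z : ℂ} (hz : den M z ≠ 0) :
    HasDerivAt (mob M) (((den M z) ^ 2)⁻¹) z := by
  have hdet : (M.1 0 0 : ℂ) * M.1 1 1 - (M.1 0 1 : ℂ) * M.1 1 0 = 1 := by
    have := M.2
    rw [Matrix.det_fin_two] at this
    exact_mod_cast this
  have h1 : HasDerivAt (fun z : ℂ => (M.1 0 0 : ℂ) * z + (M.1 0 1 : ℂ)) (M.1 0 0 : ℂ) z := by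
    simpa using ((hasDerivAt_id z).const_mul (M.1 0 0 : ℂ)).add_const (M.1 0 1 : ℂ)
  have h2 : HasDerivAt (den M) (M.1 1 0 : ℂ) z := by
    unfold den
    simpa using ((hasDerivAt_id z).const_mul (M.1 1 0 : ℂ)).add_const (M.1 1 1 : ℂ)
  have h3 := h1.div h2 hz
  refine h3.congr_deriv ?_
  rw [div_eq_iff (pow_ne_zero 2 hz), inv_mul_cancel₀ (pow_ne_zero 2 hz)]
  unfold den
  linear_combination hdet

theorem contDiffAt_mob (M : SL2) {z : ℂ} (hz : den M z ≠ 0) {n : WithTop ℕ∞} :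
    ContDiffAt ℂ n (mob M) z := by
  unfold mob
  have h1 : ContDiffAt ℂ n (den M) z := by unfold den; fun_prop
  exact ContDiffAt.div (by fun_prop) h1 hz

theorem contDiffAt_am {p : ℂ × ℂ} (g : G) (hz : den (rho g) p.1 ≠ 0) (hw : den (rho g) p.2 ≠ 0)
    {n : WithTop ℕ∞} : ContDiffAt ℂ n (am g) p := by
  unfold am
  refine ContDiffAt.prodMk ?_ ?_
  · exact (contDiffAt_mob (rho g) hz).comp p contDiffAt_fst
  · exact (contDiffAt_mob (rho g) hw).comp p contDiffAt_snd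

theorem fderiv_am {p : ℂ × ℂ} (g : G) (hz : den (rho g) p.1 ≠ 0) (hw : den (rho g) p.2 ≠ 0)
    (v : ℂ × ℂ) : fderiv ℂ (am g) p v =
      (v.1 * ((den (rho g) p.1) ^ 2)⁻¹, v.2 * ((den (rho g) p.2) ^ 2)⁻¹) := by
  have h1 : HasFDerivAt (fun p : ℂ × ℂ => mob (rho g) p.1) _ p :=
    (hasDerivAt_mob (rho g) hz).hasFDerivAt.comp p hasFDerivAt_fst
  have h2 : HasFDerivAt (fun p : ℂ × ℂ => mob (rho g) p.2) _ p :=
    (hasDerivAt_mob (rho g) hw).hasFDerivAt.comp p hasFDerivAt_snd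
  have h3 : HasFDerivAt (am g) _ p := h1.prodMk h2
  rw [h3.fderiv]
  simp

/-- the big compact set -/
def K1 : Set ℂ := F0c ∪ mob (rho (FreeGroup.of 1)) '' F0c

theorem K1_subset : K1 ⊆ Yt := by
  rintro z (h | ⟨w, hw, rfl⟩)
  · exact F0c_subset h
  · exact mob_mem (F0c_subset hw) _

theorem isCompact_K1 : IsCompact K1 := by
  refine isCompact_F0c.union (isCompact_F0c.image_of_continuousOn ?_)
  intro z hz
  exact (continuousAt_mob _ (den_ne (F0c_subset hz) _)).continuousWithinAt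

theorem act_ne {M : SL2} {Z : ℂ × ℂ} (hZ : Z ≠ 0) : act M Z ≠ 0 := by
  intro h
  apply hZ
  have h1 := act_mul M⁻¹ M Z
  rw [inv_mul_cancel, act_one, h] at h1
  rw [h1]
  ext <;> simp [act]

theorem exists_compact_rep {p : ℂ × ℂ} (hp : p.1 ∈ Yt) :
    ∃ g : G, den (rho g) p.2 ≠ 0 ∧ mob (rho g) p.1 ∈ K1 ∧ ‖mob (rho g) p.2‖ ≤ 3 := by
  obtain ⟨g, hg⟩ := exists_F0c hp
  have hV0 : act (rho g) (p.2, 1) ≠ 0 := act_ne (by simp [Prod.ext_iff])
  rw [act_col] at hV0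
  rcases le_or_gt ‖(((rho g).1 0 0 : ℂ) * p.2 + ((rho g).1 0 1 : ℂ))‖ (3 * ‖den (rho g) p.2‖)
    with h | h
  · have hd : den (rho g) p.2 ≠ 0 := by
      intro h0
      rw [h0, norm_zero, mul_zero] at h
      apply hV0
      rw [norm_le_zero_iff.mp h, h0]; rfl
    refine ⟨g, hd, Or.inl hg, ?_⟩
    unfold mob
    rw [norm_div, div_le_iff₀ (norm_pos_iff.mpr hd)]
    exact h
  · set a := (((rho g).1 0 0 : ℂ) * p.2 + ((rho g).1 0 1 : ℂ)) with ha
    set b := den (rho g) p.2 with hb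
    have hcol := act_mul (rho (FreeGroup.of 1)) (rho g) (p.2, 1)
    rw [← map_mul, act_col, act_col, ← ha, ← hb] at hcol
    have hB : (rho (FreeGroup.of 1)).1 = !![10001 / 200, 9999 / 200; 9999 / 200, 10001 / 200] := by
      have : rho (FreeGroup.of 1) = gen 1 := FreeGroup.lift_apply_of ..
      rw [this, gen1_val]
    have h1 : ((rho (FreeGroup.of 1 * g)).1 0 0 : ℂ) * p.2 + ((rho (FreeGroup.of 1 * g)).1 0 1 : ℂ) =
        10001 / 200 * a + 9999 / 200 * b := by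
      have := congrArg Prod.fst hcol
      simp only [act, hB] at this
      simpa using this
    have h2 : den (rho (FreeGroup.of 1 * g)) p.2 = 9999 / 200 * a + 10001 / 200 * b := by
      have := congrArg Prod.snd hcol
      simp only [act, hB] at this
      simpa using this
    have hbn := norm_nonneg b
    have e1 : ‖(10001 / 200 * a + 9999 / 200 * b : ℂ)‖ ≤ 10001 / 200 * ‖a‖ + 9999 / 200 * ‖b‖ := by
      refine (norm_add_le _ _).trans ?_
      rw [norm_mul, norm_mul]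
      norm_num
    have e2 : 9999 / 200 * ‖a‖ - 10001 / 200 * ‖b‖ ≤ ‖(9999 / 200 * a + 10001 / 200 * b : ℂ)‖ := by
      have := norm_sub_norm_le (9999 / 200 * a) (-(10001 / 200 * b))
      rw [sub_neg_eq_add, norm_neg, norm_mul, norm_mul] at this
      norm_num at this
      norm_num
      linarith
    have hpos : 0 < ‖(9999 / 200 * a + 10001 / 200 * b : ℂ)‖ := by linarith
    have hd : den (rho (FreeGroup.of 1 * g)) p.2 ≠ 0 := by
      rw [h2]; exact norm_pos_iff.mp hpos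
    refine ⟨FreeGroup.of 1 * g, hd, Or.inr ⟨_, hg, (mob_rho_mul hp _ _).symm⟩, ?_⟩
    unfold mob
    rw [norm_div, div_le_iff₀ (norm_pos_iff.mpr hd), h1, h2]
    linarith

theorem psh_final : ∃ ε : ℝ, 0 < ε ∧ ∃ η : ℝ, 0 < η ∧ η < 1 ∧ ∃ δ : ℝ, 0 < δ ∧ ∀ p : ℂ × ℂ, p ∈ DY →
    0 < p.2.im → rr ε p < δ → ∀ v : ℂ × ℂ, v ≠ 0 → 0 < lev (fun p => -(rr ε p) ^ η) p v := by
  have hK : IsCompact (K1 ×ˢ Metric.closedBall (0 : ℂ) 3) :=
    isCompact_K1.prod (isCompact_closedBall _ _)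
  have hKD : K1 ×ˢ Metric.closedBall (0 : ℂ) 3 ⊆ DY := fun p hp => K1_subset hp.1
  obtain ⟨ε, hε, κ, hκ, hlev⟩ := lev_q_bound isOpen_DY contDiffOn_LP contDiffOn_GG hK hKD
    (fun p hp => GG_pos (hKD hp)) (fun p hp => lev_LP_pos (hKD hp) p.2)
  obtain ⟨η, hη0, hη1, δ0, hδ0, hpsh⟩ := psh_est isOpen_DY (contDiffOn_qf hε) hK hKD hκ hlev
  obtain ⟨QM, hQM, hQM'⟩ := compact_upper hK ((contDiffOn_Qf ε).continuousOn.mono hKD)
  refine ⟨ε, hε, η, hη0, hη1, δ0 / QM, by positivity, fun p hp hy hr v hv => ?_⟩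
  obtain ⟨g, hgw, hg1, hg2⟩ := exists_compact_rep hp
  have hz := den_ne hp g
  have hpK : am g p ∈ K1 ×ˢ Metric.closedBall (0 : ℂ) 3 := ⟨hg1, mem_closedBall_zero_iff.mpr hg2⟩
  have hpD := hKD hpK
  have hy' : 0 < (am g p).2.im := by
    show 0 < (mob (rho g) p.2).im
    rw [im_mob _ hgw]
    have := norm_pos_iff.mpr hgw
    positivity
  have hQ := Qf_pos hε hpD
  have hyδ : (am g p).2.im ≤ δ0 := by
    have h1 : rr ε (am g p) < δ0 / QM := by rw [rr_am hp g hgw]; exact hr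
    have h2 : (am g p).2.im = rr ε (am g p) * Qf ε (am g p) := by
      unfold rr; field_simp
    have h3 := (le_abs_self _).trans (hQM' _ hpK)
    have h4 : 0 ≤ rr ε (am g p) := by unfold rr; positivity
    rw [h2]
    calc rr ε (am g p) * Qf ε (am g p) ≤ rr ε (am g p) * QM := mul_le_mul_of_nonneg_left h3 h4
      _ ≤ δ0 / QM * QM := mul_le_mul_of_nonneg_right h1.le hQM.le
      _ = δ0 := by field_simp
  have hfv : fderiv ℂ (am g) p v ≠ 0 := by
    rw [fderiv_am g hz hgw]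
    intro h
    apply hv
    have a1 := congrArg Prod.fst h
    have a2 := congrArg Prod.snd h
    simp only [Prod.fst_zero, Prod.snd_zero, mul_eq_zero, inv_eq_zero, pow_eq_zero_iff, ne_eq,
      OfNat.ofNat_ne_zero, not_false_eq_true, hz, hgw, or_false] at a1 a2
    exact Prod.ext a1 a2
  have hmain := hpsh _ hpK hy' hyδ _ hfv
  have hU : ∀ p0 : ℂ × ℂ, p0 ∈ DY → 0 < p0.2.im → ∀ᶠ x in 𝓝 p0, x ∈ DY ∧ 0 < x.2.im := by
    intro p0 h1 h2
    have h3 : IsOpen {x : ℂ × ℂ | 0 < x.2.im} :=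
      isOpen_lt continuous_const (continuous_im.comp continuous_snd)
    exact Filter.Eventually.and (isOpen_DY.mem_nhds h1) (h3.mem_nhds h2)
  have hE : (fun p => -(rr ε p) ^ η) =ᶠ[𝓝 (am g p)] (fun p => -Real.exp (η * (Real.log p.2.im -
      ((1 / 3) * LP p.1 + Real.log (NW p + ε * GG p))))) := by
    filter_upwards [hU _ hpD hy'] with x hx
    have hQx := Qf_pos hε hx.1
    have hr : 0 < rr ε x := div_pos hx.2 hQx
    rw [Real.rpow_def_of_pos hr]
    unfold rr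
    rw [Real.log_div hx.2.ne' hQx.ne', ← exp_qf hε hx.1, Real.log_exp]
    ring_nf
  have hE2 : (fun p => -(rr ε p) ^ η) =ᶠ[𝓝 p] (fun x => (fun p => -(rr ε p) ^ η) (am g x)) := by
    filter_upwards [hU _ hp hy] with x hx
    rw [rr_am hx.1 g (den_ne_of_im _ hx.2.ne')]
  have hr0 : 0 < rr ε (am g p) := div_pos hy' hQ
  have hsm : ContDiffAt ℝ 2 (fun p => -(rr ε p) ^ η) (am g p) := by
    have h1 : ContDiffAt ℝ 2 (rr ε) (am g p) :=
      ((contDiffOn_rr hε).contDiffAt (isOpen_DY.mem_nhds hpD)).of_le (by norm_cast)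
    exact (h1.rpow_const_of_ne hr0.ne').neg
  rw [lev_congr hE2, lev_holo (u := fun p => -(rr ε p) ^ η) (contDiffAt_am g hz hgw) hsm,
    lev_congr hE]
  exact hmain

end Pool.Agent.H914R3.LF
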