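import Mathlib
import Pool.Agent.H914R3.LF.Psh

/-!
A bounded holomorphic function on the upper half plane invariant under the Schottky group.
-/

set_option autoImplicit false

open Complex Filter Topology Set ComplexConjugate

namespace Pool.Agent.H914R3.LF

/-- real action on `ℝ²` -/
def ra (M : SL2) (y : ℝ × ℝ) : ℝ × ℝ :=
  (M.1 0 0 * y.1 + M.1 0 1 * y.2, M.1 1 0 * y.1 + M.1 1 1 * y.2)

theorem ra_one (y : ℝ × ℝ) : ra 1 y = y := by
  ext <;> simp [ra]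

theorem ra_mul (M N : SL2) (y : ℝ × ℝ) : ra (M * N) y = ra M (ra N y) := by
  ext
  · simp [ra, Matrix.mul_apply, Fin.sum_univ_two]; ring
  · simp [ra, Matrix.mul_apply, Fin.sum_univ_two]; ring

/-- base vectors -/
def bv (b : Bool × Bool) : ℝ × ℝ :=
  if b.2 then ((if b.1 then 2 else -2), 1) else ((if b.1 then 1 else -1), 2)

abbrev J := G × (Bool × Bool)

noncomputable def YY (j : J) : ℝ × ℝ := ra (rho j.1) (bv j.2)

def nY (y : ℝ × ℝ) : ℝ := y.1 ^ 2 + y.2 ^ 2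

theorem act_real (M : SL2) (y : ℝ × ℝ) :
    act M ((y.1 : ℂ), (y.2 : ℂ)) = (((ra M y).1 : ℂ), ((ra M y).2 : ℂ)) := by
  ext <;> simp [act, ra]

theorem F1_bv (b : Bool × Bool) : F1 (((bv b).1 : ℂ), ((bv b).2 : ℂ)) := by
  obtain ⟨b1, b2⟩ := b
  rintro ⟨i, c⟩
  fin_cases i <;> cases c <;> cases b1 <;> cases b2 <;> simp [es, cs, bv] <;> norm_num

theorem NN_bv (b : Bool × Bool) : ‖NN (((bv b).1 : ℂ), ((bv b).2 : ℂ))‖ = 6 := by
  obtain ⟨b1, b2⟩ := b
  cases b1 <;> cases b2 <;> simp [NN, bv] <;> norm_num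

theorem NN_le (y : ℝ × ℝ) : ‖NN ((y.1 : ℂ), (y.2 : ℂ))‖ ≤ nY y ^ 2 := by
  have e : NN ((y.1 : ℂ), (y.2 : ℂ)) = ((y.1 * y.2 * (y.1 ^ 2 - y.2 ^ 2) : ℝ) : ℂ) := by
    simp [NN]
  rw [e, Complex.norm_real, Real.norm_eq_abs]
  unfold nY
  rw [abs_le]
  constructor
  · nlinarith [sq_nonneg (y.1 + y.2), sq_nonneg (y.1 - y.2), sq_nonneg (y.1 ^ 2 - y.2 ^ 2),
      sq_nonneg (y.1 * y.2), sq_nonneg (y.1 * y.2 + (y.1 ^ 2 - y.2 ^ 2)),
      sq_nonneg (y.1 * y.2 - (y.1 ^ 2 - y.2 ^ 2))]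
  · nlinarith [sq_nonneg (y.1 + y.2), sq_nonneg (y.1 - y.2), sq_nonneg (y.1 ^ 2 - y.2 ^ 2),
      sq_nonneg (y.1 * y.2), sq_nonneg (y.1 * y.2 + (y.1 ^ 2 - y.2 ^ 2)),
      sq_nonneg (y.1 * y.2 - (y.1 ^ 2 - y.2 ^ 2))]

theorem nY_bound (j : J) : 44 ^ j.1.toWord.length / 50 ≤ nY (YY j) := by
  have h1 := word_bound (F1_bv j.2) j.1
  rw [act_real, NN_bv] at h1
  have h2 := NN_le (ra (rho j.1) (bv j.2))
  have h3 : (44 ^ j.1.toWord.length / 50 : ℝ) ^ 2 ≤ nY (YY j) ^ 2 := by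
    have h4 : (44 : ℝ) ^ j.1.toWord.length * 44 ^ j.1.toWord.length ≤ 1999 ^ j.1.toWord.length := by
      rw [← mul_pow]
      exact pow_le_pow_left₀ (by norm_num) (by norm_num) _
    have h5 : (0 : ℝ) < 1999 ^ j.1.toWord.length := by positivity
    unfold YY
    nlinarith
  have h6 : 0 ≤ nY (YY j) := by unfold nY; positivity
  exact le_of_sq_le_sq h3 h6

theorem nY_pos (j : J) : 0 < nY (YY j) := lt_of_lt_of_le (by positivity) (nY_bound j)

noncomputable def T (y : ℝ × ℝ) (w : ℂ) : ℂ :=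
  I * (y.1 * w + y.2) / ((nY y : ℂ) * (w * y.2 - y.1))

theorem lin_lower {y : ℝ × ℝ} {w : ℂ} (hw : 0 < w.im) :
    |y.1| + |y.2| ≤ ‖w * y.2 - y.1‖ * (1 + (‖w‖ + 1) / w.im) := by
  have h1 : |y.2| * w.im ≤ ‖w * y.2 - y.1‖ := by
    have := abs_im_le_norm (w * y.2 - y.1)
    simp only [sub_im, mul_im, ofReal_im, ofReal_re, mul_zero, zero_add, sub_zero] at this
    rw [abs_mul, abs_of_pos hw] at this
    linarith
  have h2 : |y.1| ≤ ‖w * y.2 - y.1‖ + ‖w‖ * |y.2| := by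
    have e : (y.1 : ℂ) = w * y.2 - (w * y.2 - y.1) := by ring
    have h3 : ‖(y.1 : ℂ)‖ ≤ ‖w * y.2‖ + ‖w * y.2 - y.1‖ := by
      conv_lhs => rw [e]
      exact norm_sub_le _ _
    rw [Complex.norm_real, Real.norm_eq_abs, norm_mul, Complex.norm_real, Real.norm_eq_abs] at h3
    linarith
  have h4 : |y.2| ≤ ‖w * y.2 - y.1‖ / w.im := by
    rw [le_div_iff₀ hw]; exact h1
  have h5 : ‖w‖ * |y.2| ≤ ‖w‖ * (‖w * y.2 - y.1‖ / w.im) :=
    mul_le_mul_of_nonneg_left h4 (norm_nonneg _)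
  have e : ‖w * y.2 - y.1‖ * (1 + (‖w‖ + 1) / w.im) =
      ‖w * y.2 - y.1‖ + ‖w‖ * (‖w * y.2 - y.1‖ / w.im) + ‖w * y.2 - y.1‖ / w.im := by
    field_simp
    ring
  rw [e]
  linarith

theorem den_T_ne {y : ℝ × ℝ} (hy : 0 < nY y) {w : ℂ} (hw : 0 < w.im) : w * y.2 - y.1 ≠ 0 := by
  intro h
  have h1 := lin_lower (y := y) hw
  rw [h, norm_zero, zero_mul] at h1
  have a1 := abs_nonneg y.1
  have a2 := abs_nonneg y.2
  have b1 : y.1 = 0 := abs_eq_zero.mp (by linarith)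
  have b2 : y.2 = 0 := abs_eq_zero.mp (by linarith)
  unfold nY at hy
  rw [b1, b2] at hy
  norm_num at hy

theorem T_bound {y : ℝ × ℝ} (hy : 0 < nY y) {w : ℂ} (hw : 0 < w.im) :
    ‖T y w‖ ≤ (‖w‖ + 1) * (1 + (‖w‖ + 1) / w.im) / nY y := by
  have hd := norm_pos_iff.mpr (den_T_ne hy hw)
  unfold T
  rw [norm_div, norm_mul, norm_mul, norm_I, one_mul, Complex.norm_real, Real.norm_eq_abs,
    abs_of_pos hy, div_le_div_iff₀ (by positivity) hy]
  have h1 : ‖(y.1 * w + y.2 : ℂ)‖ ≤ |y.1| * ‖w‖ + |y.2| := by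
    refine (norm_add_le _ _).trans ?_
    rw [norm_mul, Complex.norm_real, Complex.norm_real, Real.norm_eq_abs, Real.norm_eq_abs]
  have h2 : |y.1| * ‖w‖ + |y.2| ≤ (‖w‖ + 1) * (|y.1| + |y.2|) := by
    have := norm_nonneg w
    have := abs_nonneg y.1
    have := abs_nonneg y.2
    nlinarith
  have h3 := lin_lower (y := y) hw
  have h4 : 0 ≤ ‖w‖ + 1 := by positivity
  have h5 := mul_le_mul_of_nonneg_left h3 h4
  have h6 : ‖(y.1 * w + y.2 : ℂ)‖ ≤
      (‖w‖ + 1) * (‖w * y.2 - y.1‖ * (1 + (‖w‖ + 1) / w.im)) := h1.trans (h2.trans h5)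
  have h7 := mul_le_mul_of_nonneg_right h6 hy.le
  linarith

theorem re_T {y : ℝ × ℝ} (hy : 0 < nY y) {w : ℂ} (hw : 0 < w.im) :
    (T y w).re = w.im / ‖w * y.2 - y.1‖ ^ 2 := by
  have hd := den_T_ne hy hw
  have hn : normSq (w * y.2 - y.1) ≠ 0 := by rwa [Ne, normSq_eq_zero]
  have e : T y w = (((nY y)⁻¹ : ℝ) : ℂ) * (I * (y.1 * w + y.2) / (w * y.2 - y.1)) := by
    unfold T
    have hy' : (nY y : ℂ) ≠ 0 := by exact_mod_cast hy.ne'
    push_cast
    field_simp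
  rw [e, re_ofReal_mul, Complex.div_re, ← normSq_eq_norm_sq, ← add_div, ← mul_div_assoc]
  congr 1
  simp only [mul_re, mul_im, add_re, add_im, sub_re, sub_im, I_re, I_im, ofReal_re, ofReal_im]
  have hy' : nY y ≠ 0 := hy.ne'
  unfold nY at hy' ⊢
  field_simp
  ring

theorem T_nonneg {y : ℝ × ℝ} (hy : 0 < nY y) {w : ℂ} (hw : 0 < w.im) : 0 ≤ (T y w).re := by
  rw [re_T hy hw]; positivity

def HH : Set ℂ := {w | 0 < w.im}

theorem isOpen_HH : IsOpen HH := isOpen_lt continuous_const continuous_im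

noncomputable def ub (C : ℝ) (j : J) : ℝ := C * (50 * (1 / 44) ^ j.1.toWord.length)

theorem summable_ub (C : ℝ) : Summable (ub C) := by
  unfold ub
  apply Summable.mul_left
  refine (summable_prod_of_nonneg (fun i => by positivity)).mpr ⟨fun g => Summable.of_finite, ?_⟩
  simp only [tsum_fintype, Finset.sum_const, nsmul_eq_mul]
  apply Summable.mul_left
  apply Summable.mul_left
  exact summable_word (c := 1 / 44) (by norm_num) (by norm_num)

theorem T_ub {C : ℝ} {w : ℂ} (hw : 0 < w.im) (hC : (‖w‖ + 1) * (1 + (‖w‖ + 1) / w.im) ≤ C)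
    (j : J) : ‖T (YY j) w‖ ≤ ub C j := by
  have hC0 : 0 ≤ C := le_trans (by positivity) hC
  refine (T_bound (nY_pos j) hw).trans ?_
  have h1 := nY_bound j
  have h2 : (nY (YY j))⁻¹ ≤ 50 * (1 / 44) ^ j.1.toWord.length := by
    have h3 := inv_anti₀ (by positivity) h1
    refine h3.trans (le_of_eq ?_)
    rw [one_div, inv_pow, inv_div]
    ring
  unfold ub
  rw [div_eq_mul_inv]
  exact mul_le_mul hC h2 (inv_nonneg.mpr (nY_pos j).le) hC0

theorem summable_T {w : ℂ} (hw : 0 < w.im) : Summable fun j => T (YY j) w :=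
  Summable.of_norm_bounded (summable_ub _) (fun j => T_ub hw le_rfl j)

noncomputable def gF (w : ℂ) : ℂ := ∑' j : J, T (YY j) w

theorem differentiableOn_T (j : J) : DifferentiableOn ℂ (T (YY j)) HH := by
  intro w hw
  unfold T
  have hd : (nY (YY j) : ℂ) * (w * (YY j).2 - (YY j).1) ≠ 0 := by
    refine mul_ne_zero ?_ (den_T_ne (nY_pos j) hw)
    exact_mod_cast (nY_pos j).ne'
  have h1 : DifferentiableAt ℂ (fun w : ℂ => I * ((YY j).1 * w + (YY j).2)) w := by fun_prop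
  have h2 : DifferentiableAt ℂ (fun w : ℂ => (nY (YY j) : ℂ) * (w * (YY j).2 - (YY j).1)) w := by
    fun_prop
  exact (h1.div h2 hd).differentiableWithinAt

theorem differentiableOn_gF : DifferentiableOn ℂ gF HH := by
  intro w hw
  have hw' : 0 < w.im := hw
  set m := w.im / 2 with hm
  set R := ‖w‖ + 1 with hR
  have hU : IsOpen {v : ℂ | m < v.im ∧ ‖v‖ < R} :=
    (isOpen_lt continuous_const continuous_im).inter (isOpen_lt continuous_norm continuous_const)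
  have hwU : w ∈ {v : ℂ | m < v.im ∧ ‖v‖ < R} := ⟨by rw [hm]; linarith, by rw [hR]; linarith⟩
  have hm0 : 0 < m := by rw [hm]; positivity
  have : DifferentiableOn ℂ gF {v : ℂ | m < v.im ∧ ‖v‖ < R} := by
    refine differentiableOn_tsum_of_summable_norm (summable_ub ((R + 1) * (1 + (R + 1) / m)))
      (fun j => ?_) hU (fun j v hv => ?_)
    · exact (differentiableOn_T j).mono (fun v hv => hm0.trans hv.1)
    · have hv0 : 0 < v.im := hm0.trans hv.1
      refine T_ub hv0 ?_ j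
      have h1 : ‖v‖ + 1 ≤ R + 1 := by linarith [hv.2]
      have h2 : (‖v‖ + 1) / v.im ≤ (R + 1) / m := by
        apply div_le_div₀ (by positivity) h1 hm0 hv.1.le
      apply mul_le_mul h1 (by linarith) (by positivity) (by positivity)
  exact (this.differentiableAt (hU.mem_nhds hwU)).differentiableWithinAt

theorem re_gF {w : ℂ} (hw : 0 < w.im) : (gF w).re = ∑' j : J, (T (YY j) w).re :=
  re_tsum (summable_T hw)

theorem summable_re_T {w : ℂ} (hw : 0 < w.im) : Summable fun j => (T (YY j) w).re :=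
  (reCLM.hasSum (summable_T hw).hasSum).summable

theorem mob_im_pos (M : SL2) {w : ℂ} (hw : 0 < w.im) : 0 < (mob M w).im := by
  have h := den_ne_of_im M hw.ne'
  rw [im_mob M h]
  have := norm_pos_iff.mpr h
  positivity

theorem ra_pos (M : SL2) {y : ℝ × ℝ} (hy : 0 < nY y) : 0 < nY (ra M y) := by
  by_contra hcon
  have h0 : nY (ra M y) = 0 := le_antisymm (not_lt.mp hcon) (by unfold nY; positivity)
  unfold nY at h0
  have h1 : (ra M y).1 = 0 := by nlinarith [sq_nonneg (ra M y).1, sq_nonneg (ra M y).2]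
  have h2 : (ra M y).2 = 0 := by nlinarith [sq_nonneg (ra M y).1, sq_nonneg (ra M y).2]
  have h3 : ra M⁻¹ (ra M y) = y := by rw [← ra_mul, inv_mul_cancel, ra_one]
  have h4 : ra M y = (0, 0) := Prod.ext h1 h2
  rw [h4] at h3
  unfold nY at hy
  rw [← h3] at hy
  simp [ra] at hy

theorem re_T_mob (M : SL2) {y : ℝ × ℝ} (hy : 0 < nY y) {w : ℂ} (hw : 0 < w.im) :
    (T (ra M y) (mob M w)).re = (T y w).re := by
  have h := den_ne_of_im M hw.ne'
  have hdet : (M.1 0 0 : ℂ) * M.1 1 1 - (M.1 0 1 : ℂ) * M.1 1 0 = 1 := by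
    have := M.2
    rw [Matrix.det_fin_two] at this
    exact_mod_cast this
  rw [re_T (ra_pos M hy) (mob_im_pos M hw), re_T hy hw, im_mob M h]
  have e : mob M w * ((ra M y).2 : ℂ) - ((ra M y).1 : ℂ) = (w * y.2 - y.1) / den M w := by
    rw [eq_div_iff h]
    have h1 : mob M w * den M w = (M.1 0 0 : ℂ) * w + (M.1 0 1 : ℂ) := by
      unfold mob; field_simp
    have h2 : ((ra M y).2 : ℂ) = (M.1 1 0 : ℂ) * y.1 + (M.1 1 1 : ℂ) * y.2 := by
      simp [ra]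
    have h3 : ((ra M y).1 : ℂ) = (M.1 0 0 : ℂ) * y.1 + (M.1 0 1 : ℂ) * y.2 := by
      simp [ra]
    rw [h2, h3, sub_mul, mul_right_comm, h1]
    unfold den
    linear_combination (w * y.2 - y.1) * hdet
  rw [e, norm_div, div_pow]
  have hd : ‖den M w‖ ^ 2 ≠ 0 := pow_ne_zero _ (norm_ne_zero_iff.mpr h)
  have hd2 : ‖w * (y.2 : ℂ) - y.1‖ ^ 2 ≠ 0 := pow_ne_zero _ (norm_ne_zero_iff.mpr (den_T_ne hy hw))
  field_simp

theorem re_gF_mob (h : G) {w : ℂ} (hw : 0 < w.im) : (gF (mob (rho h) w)).re = (gF w).re := by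
  rw [re_gF (mob_im_pos _ hw), re_gF hw]
  rw [← Equiv.tsum_eq (Equiv.prodCongr (Equiv.mulLeft h) (Equiv.refl (Bool × Bool)))]
  congr 1
  funext j
  have e : YY (Equiv.prodCongr (Equiv.mulLeft h) (Equiv.refl (Bool × Bool)) j) =
      ra (rho h) (YY j) := by
    obtain ⟨g, b⟩ := j
    show ra (rho (h * g)) (bv b) = ra (rho h) (ra (rho g) (bv b))
    rw [map_mul, ra_mul]
  rw [e, re_T_mob _ (nY_pos j) hw]

end Pool.Agent.H914R3.LF
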