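import Mathlib
import Pool.Agent.H914R3.LF.Psh

/-!
The quotient manifold.
-/

set_option autoImplicit false

open Complex Filter Topology Set
open scoped Manifold ContDiff

namespace Pool.Agent.H914R3.LF

/-- the equivalence relation on `Y × ℂ` -/
def rel (p q : ℂ × ℂ) : Prop := ∃ g : G, den (rho g) p.2 ≠ 0 ∧ am g p = q

theorem am_one (p : ℂ × ℂ) : am 1 p = p := by simp [am, map_one, mob_one]

theorem rel_refl (p : ℂ × ℂ) : rel p p := ⟨1, by simp [map_one, den_one], am_one p⟩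

theorem den_inv_ne {w : ℂ} {g : G} (hg : den (rho g) w ≠ 0) :
    den (rho g⁻¹) (mob (rho g) w) ≠ 0 := by
  have h1 := den_mul (rho g⁻¹) (rho g) w hg
  rw [← map_mul, inv_mul_cancel, map_one, den_one] at h1
  intro h0
  rw [h0, mul_zero] at h1
  exact one_ne_zero h1

theorem am_inv_self {p : ℂ × ℂ} (hp : p ∈ DY) {g : G} (hg : den (rho g) p.2 ≠ 0) :
    am g⁻¹ (am g p) = p := by
  unfold am
  refine Prod.ext (mob_inv_self hp g) ?_
  simp only
  rw [← mob_mul _ _ _ hg, ← map_mul, inv_mul_cancel, map_one, mob_one]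

theorem am_mul {p : ℂ × ℂ} (hp : p ∈ DY) {g : G} (hg : den (rho g) p.2 ≠ 0) (h : G) :
    am (h * g) p = am h (am g p) := by
  unfold am
  refine Prod.ext (mob_rho_mul hp _ _) ?_
  simp only
  rw [map_mul, mob_mul _ _ _ hg]

theorem rel_symm {p q : ℂ × ℂ} (hp : p ∈ DY) (h : rel p q) : rel q p := by
  obtain ⟨g, hg, rfl⟩ := h
  exact ⟨g⁻¹, den_inv_ne hg, am_inv_self hp hg⟩

theorem rel_trans {p q r : ℂ × ℂ} (hp : p ∈ DY) (h1 : rel p q) (h2 : rel q r) : rel p r := by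
  obtain ⟨g, hg, rfl⟩ := h1
  obtain ⟨h, hh, rfl⟩ := h2
  refine ⟨h * g, ?_, am_mul hp hg h⟩
  rw [map_mul, den_mul _ _ _ hg]
  exact mul_ne_zero hg hh

/-- the total space upstairs -/
abbrev DYt := {p : ℂ × ℂ // p ∈ DY}

def sX : Setoid DYt where
  r p q := rel p.1 q.1
  iseqv := ⟨fun p => rel_refl p.1, fun {p _} h => rel_symm p.2 h, fun {p _ _} h1 h2 =>
    rel_trans p.2 h1 h2⟩

/-- the compact complex surface -/
def X : Type := Quotient sX

instance : TopologicalSpace X := inferInstanceAs (TopologicalSpace (Quotient sX))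

/-- the projection -/
def mkX (p : DYt) : X := Quotient.mk sX p

theorem two_mem : (2 : ℂ) ∈ F0c := by
  rintro ⟨i, b⟩
  fin_cases i <;> cases b <;> simp [es, cs] <;> norm_num

open Classical in
/-- the projection, extended by a constant -/
noncomputable def pr (p : ℂ × ℂ) : X :=
  if h : p ∈ DY then mkX ⟨p, h⟩ else mkX ⟨(2, 0), F0c_subset two_mem⟩

theorem pr_of {p : ℂ × ℂ} (h : p ∈ DY) : pr p = mkX ⟨p, h⟩ := dif_pos h

theorem pr_val (p : DYt) : pr p.1 = mkX p := pr_of p.2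

theorem pr_eq {p q : ℂ × ℂ} (hp : p ∈ DY) (hq : q ∈ DY) : pr p = pr q ↔ rel p q := by
  rw [pr_of hp, pr_of hq]
  exact Quotient.eq (r := sX)

theorem pr_surj (x : X) : ∃ p ∈ DY, pr p = x := by
  obtain ⟨p, hp⟩ := Quotient.exists_rep (s := sX) x
  exact ⟨p.1, p.2, (pr_val p).trans hp⟩

theorem continuous_mk : Continuous mkX := continuous_quot_mk

theorem pr_continuousOn : ContinuousOn pr DY := by
  rw [continuousOn_iff_continuous_domRestrict]
  have : DY.domRestrict pr = mkX := by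
    funext p; exact pr_val p
  rw [this]
  exact continuous_mk

theorem isOpen_W (g : G) : IsOpen {p : ℂ × ℂ | p ∈ DY ∧ den (rho g) p.2 ≠ 0} := by
  have h1 : IsOpen {p : ℂ × ℂ | den (rho g) p.2 ≠ 0} := by
    have : Continuous fun p : ℂ × ℂ => den (rho g) p.2 := by unfold den; fun_prop
    exact isOpen_ne_fun this continuous_const
  exact isOpen_DY.inter h1

theorem am_continuousOn (g : G) : ContinuousOn (am g) {p : ℂ × ℂ | p ∈ DY ∧ den (rho g) p.2 ≠ 0} :=
  fun _ hp => (contDiffAt_am (n := 0) g (den_ne hp.1 g) hp.2).continuousAt.continuousWithinAt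

theorem isOpen_image_pr {U : Set (ℂ × ℂ)} (hU : IsOpen U) (hUD : U ⊆ DY) : IsOpen (pr '' U) := by
  have h1 : IsOpen (mkX ⁻¹' (pr '' U)) := by
    have e : mkX ⁻¹' (pr '' U) =
        ⋃ g : G, (Subtype.val ⁻¹' ({p : ℂ × ℂ | p ∈ DY ∧ den (rho g) p.2 ≠ 0} ∩ am g ⁻¹' U)) := by
      ext p
      simp only [mem_preimage, mem_image, mem_iUnion, mem_inter_iff, mem_ofPred_eq]
      constructor
      · rintro ⟨q, hq, he⟩
        rw [← pr_val, eq_comm, pr_eq p.2 (hUD hq)] at he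
        obtain ⟨g, hg, hgq⟩ := he
        exact ⟨g, ⟨p.2, hg⟩, by rw [hgq]; exact hq⟩
      · rintro ⟨g, ⟨-, hg⟩, hgU⟩
        refine ⟨am g p.1, hgU, ?_⟩
        rw [← pr_val, eq_comm, pr_eq p.2 (hUD hgU)]
        exact ⟨g, hg, rfl⟩
    rw [e]
    refine isOpen_iUnion fun g => ?_
    exact ((am_continuousOn g).isOpen_inter_preimage (isOpen_W g) hU).preimage continuous_subtype_val
  exact h1

theorem isOpenMap_mk : IsOpenMap mkX := by
  intro U hU
  obtain ⟨V, hV, rfl⟩ := isOpen_induced_iff.mp hU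
  have e : mkX '' (Subtype.val ⁻¹' V) = pr '' (V ∩ DY) := by
    ext x
    constructor
    · rintro ⟨p, hp, rfl⟩
      exact ⟨p.1, ⟨hp, p.2⟩, pr_val p⟩
    · rintro ⟨p, hp, rfl⟩
      exact ⟨⟨p, hp.2⟩, hp.1, (pr_of hp.2).symm⟩
  rw [e]
  exact isOpen_image_pr (hV.inter isOpen_DY) inter_subset_right

theorem isOpenQuotientMap_mk : IsOpenQuotientMap mkX :=
  ⟨Quotient.exists_rep, continuous_mk, isOpenMap_mk⟩

instance : SecondCountableTopology X :=
  isOpenQuotientMap_mk.isQuotientMap.secondCountableTopology isOpenMap_mk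

theorem pole_iff (M : SL2) (w u : ℂ) : (den M w ≠ 0 ∧ mob M w = u) ↔
    (M.1 0 0 : ℂ) * w + (M.1 0 1 : ℂ) = u * den M w := by
  constructor
  · rintro ⟨h1, h2⟩
    rw [← h2]; unfold mob; field_simp
  · intro h
    have h1 : den M w ≠ 0 := by
      intro h0
      have hV0 : act M (w, 1) ≠ 0 := act_ne (by simp [Prod.ext_iff])
      apply hV0
      rw [act_col, h, h0, mul_zero]; rfl
    refine ⟨h1, ?_⟩
    unfold mob
    rw [h]; field_simp

instance : T2Space X := by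
  rw [t2Space_iff_of_isOpenQuotientMap isOpenQuotientMap_mk]
  have e : {q : DYt × DYt | mkX q.1 = mkX q.2} =
      ⋃ g : G, {q : DYt × DYt | mob (rho g) q.1.1.1 = q.2.1.1 ∧
        ((rho g).1 0 0 : ℂ) * q.1.1.2 + ((rho g).1 0 1 : ℂ) = q.2.1.2 * den (rho g) q.1.1.2} := by
    ext ⟨p, q⟩
    simp only [mem_ofPred_eq, mem_iUnion]
    rw [← pr_val, ← pr_val, pr_eq p.2 q.2]
    constructor
    · rintro ⟨g, hg, he⟩
      exact ⟨g, congrArg Prod.fst he, (pole_iff _ _ _).mp ⟨hg, congrArg Prod.snd he⟩⟩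
    · rintro ⟨g, h1, h2⟩
      obtain ⟨h3, h4⟩ := (pole_iff _ _ _).mpr h2
      exact ⟨g, h3, Prod.ext h1 h4⟩
  rw [e]
  apply LocallyFinite.isClosed_iUnion
  · rintro ⟨p, q⟩
    obtain ⟨g0, h0⟩ := p.2
    obtain ⟨g1, h1⟩ := q.2
    refine ⟨{r : DYt × DYt | r.1.1.1 ∈ Nb g0 ∧ r.2.1.1 ∈ Nb g1}, ?_, ?_⟩
    · have a1 : IsOpen {r : DYt × DYt | r.1.1.1 ∈ Nb g0} :=
        (isOpen_Nb g0).preimage (by fun_prop)
      have a2 : IsOpen {r : DYt × DYt | r.2.1.1 ∈ Nb g1} :=
        (isOpen_Nb g1).preimage (by fun_prop)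
      exact (a1.inter a2).mem_nhds ⟨h0, h1⟩
    · refine (proper_disc g0 g1).subset ?_
      rintro g ⟨r, ⟨hr1, -⟩, hr2, hr3⟩
      exact ⟨r.1.1.1, hr2, by rw [hr1]; exact hr3⟩
  · intro g
    have c1 : Continuous fun q : DYt × DYt => mob (rho g) q.1.1.1 := by
      rw [continuous_iff_continuousAt]
      intro q
      have h1 := continuousAt_mob (rho g) (den_ne q.1.2 g)
      have h2 : Continuous fun q : DYt × DYt => q.1.1.1 := by fun_prop
      exact ContinuousAt.comp (f := fun q : DYt × DYt => q.1.1.1) h1 h2.continuousAt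
    have c2 : Continuous fun q : DYt × DYt => q.2.1.1 := by fun_prop
    have c3 : Continuous fun q : DYt × DYt =>
      ((rho g).1 0 0 : ℂ) * q.1.1.2 + ((rho g).1 0 1 : ℂ) := by fun_prop
    have c4 : Continuous fun q : DYt × DYt => q.2.1.2 * den (rho g) q.1.1.2 := by
      unfold den; fun_prop
    exact (isClosed_eq c1 c2).inter (isClosed_eq c3 c4)

instance : CompactSpace X := by
  constructor
  have hK : IsCompact (K1 ×ˢ Metric.closedBall (0 : ℂ) 3) :=
    isCompact_K1.prod (isCompact_closedBall _ _)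
  have hKD : K1 ×ˢ Metric.closedBall (0 : ℂ) 3 ⊆ DY := fun p hp => K1_subset hp.1
  have h1 := hK.image_of_continuousOn (pr_continuousOn.mono hKD)
  have e : pr '' (K1 ×ˢ Metric.closedBall (0 : ℂ) 3) = univ := by
    rw [eq_univ_iff_forall]
    intro x
    obtain ⟨p, hp, rfl⟩ := pr_surj x
    obtain ⟨g, hg, h1, h2⟩ := exists_compact_rep hp
    refine ⟨am g p, ⟨h1, mem_closedBall_zero_iff.mpr h2⟩, ?_⟩
    rw [eq_comm, pr_eq hp (am_mem hp g)]
    exact ⟨g, hg, rfl⟩
  rwa [e] at h1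

/-! charts -/

structure Small (N : Set ℂ) : Prop where
  op : IsOpen N
  sub : N ⊆ Yt
  free : ∀ g : G, ∀ y ∈ N, mob (rho g) y ∈ N → g = 1

theorem Small.subD {N : Set ℂ} (h : Small N) : N ×ˢ (univ : Set ℂ) ⊆ DY := fun _ hp => h.sub hp.1

theorem Small.inj {N : Set ℂ} (h : Small N) : InjOn pr (N ×ˢ (univ : Set ℂ)) := by
  intro p hp q hq he
  rw [pr_eq (h.subD hp) (h.subD hq)] at he
  obtain ⟨g, hg, hgq⟩ := he
  have h1 : g = 1 := h.free g p.1 hp.1 (by
    have := congrArg Prod.fst hgq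
    change mob (rho g) p.1 = q.1 at this
    rw [this]; exact hq.1)
  rw [← hgq, h1, am_one]

/-- the local parametrisation -/
noncomputable def par (N : Set ℂ) (h : Small N) : OpenPartialHomeomorph (ℂ × ℂ) X :=
  OpenPartialHomeomorph.ofContinuousOpenRestrict
    (InjOn.toPartialEquiv pr (N ×ˢ (univ : Set ℂ)) h.inj)
    (pr_continuousOn.mono h.subD)
    (by
      intro U hU
      obtain ⟨V, hV, rfl⟩ := isOpen_induced_iff.mp hU
      have e : ((InjOn.toPartialEquiv pr (N ×ˢ (univ : Set ℂ)) h.inj).source.domRestrict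
          (InjOn.toPartialEquiv pr (N ×ˢ (univ : Set ℂ)) h.inj)) '' (Subtype.val ⁻¹' V) =
          pr '' (V ∩ N ×ˢ (univ : Set ℂ)) := by
        ext x
        constructor
        · rintro ⟨p, hp, rfl⟩
          exact ⟨p.1, ⟨hp, p.2⟩, rfl⟩
        · rintro ⟨p, hp, rfl⟩
          exact ⟨⟨p, hp.2⟩, hp.1, rfl⟩
      rw [e]
      exact isOpen_image_pr (hV.inter (h.op.prod isOpen_univ)) (inter_subset_right.trans h.subD))
    (h.op.prod isOpen_univ)

theorem par_coe (N : Set ℂ) (h : Small N) : ⇑(par N h) = pr := rfl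

theorem par_source (N : Set ℂ) (h : Small N) : (par N h).source = N ×ˢ (univ : Set ℂ) := rfl

theorem exists_Small (x : X) : ∃ N, ∃ p : ℂ × ℂ, Small N ∧ p.1 ∈ N ∧ pr p = x := by
  obtain ⟨p, hp, hpx⟩ := pr_surj x
  obtain ⟨N, h1, h2, h3, h4⟩ := exists_small hp
  exact ⟨N, p, ⟨h1, h3, h4⟩, h2, hpx⟩

noncomputable def NX (x : X) : Set ℂ := (exists_Small x).choose

noncomputable def pX (x : X) : ℂ × ℂ := (exists_Small x).choose_spec.choose

theorem NX_small (x : X) : Small (NX x) := (exists_Small x).choose_spec.choose_spec.1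

theorem pX_mem (x : X) : (pX x).1 ∈ NX x := (exists_Small x).choose_spec.choose_spec.2.1

theorem pr_pX (x : X) : pr (pX x) = x := (exists_Small x).choose_spec.choose_spec.2.2

theorem pX_DY (x : X) : pX x ∈ DY := (NX_small x).sub (pX_mem x)

noncomputable def chX (x : X) : OpenPartialHomeomorph X (ℂ × ℂ) := (par (NX x) (NX_small x)).symm

theorem chX_symm (x : X) : ⇑(chX x).symm = pr := rfl

theorem chX_target (x : X) : (chX x).target = NX x ×ˢ (univ : Set ℂ) := rfl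

theorem mem_chX_source (x : X) : x ∈ (chX x).source := by
  have h : pr (pX x) ∈ (chX x).source :=
    (par (NX x) (NX_small x)).map_source (show pX x ∈ (par (NX x) (NX_small x)).source from
      ⟨pX_mem x, mem_univ _⟩)
  rwa [pr_pX] at h

theorem chX_pr {x : X} {p : ℂ × ℂ} (hp : p.1 ∈ NX x) : chX x (pr p) = p :=
  (par (NX x) (NX_small x)).left_inv (show p ∈ (par (NX x) (NX_small x)).source from
      ⟨hp, mem_univ _⟩)

theorem chX_self (x : X) : chX x x = pX x := by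
  conv_lhs => rw [← pr_pX x]
  rw [chX_pr]
  rw [pr_pX]; exact pX_mem x

noncomputable instance : ChartedSpace (ℂ × ℂ) X where
  atlas := range chX
  chartAt := chX
  mem_chart_source := mem_chX_source
  chart_mem_atlas x := mem_range_self x

/-- transition maps are locally given by the group -/
theorem transition {x y : X} {p : ℂ × ℂ} (hp : p ∈ ((chX x).symm ≫ₕ chX y).source) :
    ∃ g : G, den (rho g) p.1 ≠ 0 ∧ den (rho g) p.2 ≠ 0 ∧
      ⇑((chX x).symm ≫ₕ chX y) =ᶠ[𝓝 p] am g := by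
  rw [OpenPartialHomeomorph.trans_source] at hp
  obtain ⟨hp1, hp2⟩ := hp
  have hp1' : p ∈ NX x ×ˢ (univ : Set ℂ) := hp1
  have hpD : p ∈ DY := (NX_small x).sub hp1'.1
  have hp2' : pr p ∈ (chX y).source := hp2
  set q := chX y (pr p) with hq
  have hqt : q ∈ (chX y).target := (chX y).map_source hp2'
  have hq1 : q.1 ∈ NX y := hqt.1
  have hqD : q ∈ DY := (NX_small y).sub hq1
  have hpq : pr q = pr p := (chX y).left_inv hp2'
  obtain ⟨g, hg, hgq⟩ := (pr_eq hpD hqD).mp hpq.symm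
  refine ⟨g, den_ne hpD g, hg, ?_⟩
  have hc : ContinuousAt (am g) p := (contDiffAt_am (n := 0) g (den_ne hpD g) hg).continuousAt
  have hO : IsOpen (NX y ×ˢ (univ : Set ℂ)) := (NX_small y).op.prod isOpen_univ
  have h1 : ∀ᶠ r in 𝓝 p, am g r ∈ NX y ×ˢ (univ : Set ℂ) := by
    apply hc.eventually_mem
    rw [hgq]
    exact hO.mem_nhds ⟨hq1, mem_univ _⟩
  filter_upwards [h1, (isOpen_W g).mem_nhds ⟨hpD, hg⟩] with r hr1 hr2
  show chX y (pr r) = am g r
  have : pr r = pr (am g r) := by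
    rw [pr_eq hr2.1 (am_mem hr2.1 g)]
    exact ⟨g, hr2.2, rfl⟩
  rw [this, chX_pr hr1.1]

instance : IsManifold 𝓘(ℂ, ℂ × ℂ) ω X := by
  apply isManifold_of_contDiffOn
  rintro e e' ⟨x, rfl⟩ ⟨y, rfl⟩
  intro p hp
  have hp' : p ∈ ((chX x).symm ≫ₕ chX y).source := by simpa using hp
  obtain ⟨g, h1, h2, h3⟩ := transition hp'
  have h4 : ContDiffAt ℂ ω (⇑((chX x).symm ≫ₕ chX y)) p :=
    (contDiffAt_am g h1 h2).congr_of_eventuallyEq h3
  have h5 : (𝓘(ℂ, ℂ × ℂ) ∘ ⇑((chX x).symm ≫ₕ chX y) ∘ 𝓘(ℂ, ℂ × ℂ).symm) =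
    ⇑((chX x).symm ≫ₕ chX y) := by
    funext r; rfl
  rw [h5]
  exact h4.contDiffWithinAt

end Pool.Agent.H914R3.LF
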