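import Mathlib
import Pool.Agent.H914R3.LF.Quot

/-!
Connectedness of the domain and of the manifold.
-/

set_option autoImplicit false

open Complex Filter Topology Set ComplexConjugate

namespace Pool.Agent.H914R3.LF

def F1c : Set ℂ := {z | F1 (z, 1)}

theorem mem_F1c (z : ℂ) : z ∈ F1c ↔ (‖z‖ < 200 ∧ 1 < 200 * ‖z‖) ∧
    (‖z + 1‖ < 200 * ‖z - 1‖ ∧ ‖z - 1‖ < 200 * ‖z + 1‖) := by
  unfold F1c F1
  simp only [mem_ofPred_eq]
  constructor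
  · intro h
    have h1 := h (0, true)
    have h2 := h (0, false)
    have h3 := h (1, true)
    have h4 := h (1, false)
    simp [es, cs] at h1 h2 h3 h4
    exact ⟨⟨h1, h2⟩, h3, h4⟩
  · rintro ⟨⟨h1, h2⟩, h3, h4⟩ ⟨i, b⟩
    fin_cases i <;> cases b <;> simp [es, cs] <;> assumption

def EE : Set ℂ := {ξ | ‖ξ‖ ≤ 1 ∧ (‖1 + ξ‖ < 200 * ‖1 - ξ‖ ∧ ‖1 - ξ‖ < 200 * ‖1 + ξ‖) ∧
    (‖1 + I * ξ‖ < 200 * ‖1 - I * ξ‖ ∧ ‖1 - I * ξ‖ < 200 * ‖1 + I * ξ‖)}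

theorem star_cond {a : ℂ} (ha : ‖a‖ ≤ 1) (h : ‖1 + a‖ < 200 * ‖1 - a‖) {t : ℝ} (ht0 : 0 ≤ t)
    (ht1 : t ≤ 1) : ‖1 + t * a‖ < 200 * ‖1 - t * a‖ := by
  have e1 : ∀ b : ℂ, ‖1 + b‖ ^ 2 = 1 + 2 * b.re + ‖b‖ ^ 2 := by
    intro b
    rw [← normSq_eq_norm_sq, ← normSq_eq_norm_sq, normSq_apply, normSq_apply]
    simp only [add_re, add_im, one_re, one_im]
    ring
  have e2 : ∀ b : ℂ, ‖1 - b‖ ^ 2 = 1 - 2 * b.re + ‖b‖ ^ 2 := by
    intro b
    rw [← normSq_eq_norm_sq, ← normSq_eq_norm_sq, normSq_apply, normSq_apply]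
    simp only [sub_re, sub_im, one_re, one_im]
    ring
  have e3 : ∀ b : ℂ, ‖1 + b‖ < 200 * ‖1 - b‖ ↔ 80002 * b.re < 39999 * (1 + ‖b‖ ^ 2) := by
    intro b
    have h1 := e1 b
    have h2 := e2 b
    have n1 := norm_nonneg (1 + b)
    have n2 := norm_nonneg (1 - b)
    constructor
    · intro h
      have h3 : ‖1 + b‖ ^ 2 < (200 * ‖1 - b‖) ^ 2 := pow_lt_pow_left₀ h n1 (by norm_num)
      nlinarith
    · intro h
      apply lt_of_pow_lt_pow_left₀ 2 (by positivity)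
      rw [mul_pow, h1, h2]
      linarith
  rw [e3] at h ⊢
  have hm : ‖a‖ ^ 2 ≤ 1 := by
    have := norm_nonneg a
    nlinarith
  have hm0 : 0 ≤ ‖a‖ ^ 2 := by positivity
  rw [norm_mul, Complex.norm_real, Real.norm_eq_abs, abs_of_nonneg ht0, re_ofReal_mul, mul_pow]
  set m := ‖a‖ ^ 2
  rcases ht0.eq_or_lt with h0 | h0
  · rw [← h0]; norm_num
  · have h5 : 0 ≤ (1 - t) * (1 - t * m) := by
      apply mul_nonneg (by linarith)
      nlinarith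
    nlinarith

theorem star_EE : StarConvex ℝ (0 : ℂ) EE := by
  rw [starConvex_zero_iff]
  intro ξ hξ t ht0 ht1
  obtain ⟨h0, ⟨h1, h2⟩, h3, h4⟩ := hξ
  have ht : t • ξ = (t : ℂ) * ξ := real_smul
  have hn : ‖-ξ‖ ≤ 1 := by rwa [norm_neg]
  have hI : ‖I * ξ‖ ≤ 1 := by rwa [norm_mul, norm_I, one_mul]
  have hnI : ‖-(I * ξ)‖ ≤ 1 := by rwa [norm_neg]
  refine ⟨?_, ⟨?_, ?_⟩, ?_, ?_⟩
  · rw [ht, norm_mul, Complex.norm_real, Real.norm_eq_abs, abs_of_nonneg ht0]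
    have := norm_nonneg ξ
    nlinarith
  · rw [ht]; exact star_cond h0 h1 ht0 ht1
  · have := star_cond (a := -ξ) hn (by rwa [← sub_eq_add_neg, sub_neg_eq_add]) ht0 ht1
    rw [ht]
    rwa [mul_neg, ← sub_eq_add_neg, sub_neg_eq_add] at this
  · have := star_cond (a := I * ξ) hI h3 ht0 ht1
    rw [ht, mul_left_comm]
    exact this
  · have := star_cond (a := -(I * ξ)) hnI (by rwa [← sub_eq_add_neg, sub_neg_eq_add]) ht0 ht1
    rw [ht, mul_left_comm]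
    rwa [mul_neg, ← sub_eq_add_neg, sub_neg_eq_add] at this

theorem zero_mem_EE : (0 : ℂ) ∈ EE := by
  unfold EE
  simp only [mem_ofPred_eq]
  norm_num

theorem preconn_EE : IsPreconnected EE :=
  (star_EE.isPathConnected zero_mem_EE).isConnected.isPreconnected

/-- Cayley map -/
noncomputable def cay (ξ : ℂ) : ℂ := I * (1 + ξ) / (1 - ξ)

theorem EE_ne {ξ : ℂ} (h : ξ ∈ EE) : 1 - ξ ≠ 0 := by
  intro h0
  have := h.2.1.1
  rw [h0, norm_zero, mul_zero] at this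
  exact absurd this (not_lt.mpr (norm_nonneg _))

theorem cay_cont : ContinuousOn cay EE := by
  unfold cay
  exact ContinuousOn.div (by fun_prop) (by fun_prop) (fun ξ hξ => EE_ne hξ)

theorem upper_eq : cay '' EE = {z | z ∈ F1c ∧ 0 ≤ z.im} := by
  have hI2 : ‖(1 + I : ℂ)‖ = ‖(I - 1 : ℂ)‖ := by
    rw [show (I - 1 : ℂ) = I * (1 + I) by linear_combination (-1 : ℂ) * I_sq, norm_mul, norm_I,
      one_mul]
  have hI0 : 0 < ‖(1 + I : ℂ)‖ := by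
    rw [norm_pos_iff]
    intro h
    have := congrArg re h
    simp at this
  have key : ∀ ξ : ℂ, 1 - ξ ≠ 0 → (cay ξ ∈ F1c ↔ ((‖1 + ξ‖ < 200 * ‖1 - ξ‖ ∧
      ‖1 - ξ‖ < 200 * ‖1 + ξ‖) ∧
      (‖1 + I * ξ‖ < 200 * ‖1 - I * ξ‖ ∧ ‖1 - I * ξ‖ < 200 * ‖1 + I * ξ‖))) := by
    intro ξ hξ
    have hd : 0 < ‖1 - ξ‖ := norm_pos_iff.mpr hξ
    have e1 : ‖cay ξ‖ = ‖1 + ξ‖ / ‖1 - ξ‖ := by
      unfold cay; rw [norm_div, norm_mul, norm_I, one_mul]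
    have e2 : ‖cay ξ + 1‖ = ‖(1 + I : ℂ)‖ * ‖1 + I * ξ‖ / ‖1 - ξ‖ := by
      have : cay ξ + 1 = (1 + I) * (1 + I * ξ) / (1 - ξ) := by
        unfold cay
        rw [eq_div_iff hξ, add_mul, div_mul_cancel₀ _ hξ]
        linear_combination (-ξ) * I_sq
      rw [this, norm_div, norm_mul]
    have e3 : ‖cay ξ - 1‖ = ‖(1 + I : ℂ)‖ * ‖1 - I * ξ‖ / ‖1 - ξ‖ := by
      have : cay ξ - 1 = (I - 1) * (1 - I * ξ) / (1 - ξ) := by
        unfold cay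
        rw [eq_div_iff hξ, sub_mul, div_mul_cancel₀ _ hξ]
        linear_combination (ξ) * I_sq
      rw [this, norm_div, norm_mul, hI2]
    rw [mem_F1c, e1, e2, e3]
    have c1 : ‖1 + ξ‖ / ‖1 - ξ‖ < 200 ↔ ‖1 + ξ‖ < 200 * ‖1 - ξ‖ := div_lt_iff₀ hd
    have c2 : 1 < 200 * (‖1 + ξ‖ / ‖1 - ξ‖) ↔ ‖1 - ξ‖ < 200 * ‖1 + ξ‖ := by
      rw [← mul_div_assoc, one_lt_div hd]
    have c3 : ∀ a b : ℝ, ‖(1 + I : ℂ)‖ * a / ‖1 - ξ‖ < 200 * (‖(1 + I : ℂ)‖ * b / ‖1 - ξ‖) ↔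
        a < 200 * b := by
      intro a b
      rw [← mul_div_assoc, div_lt_div_iff_of_pos_right hd, mul_left_comm]
      exact mul_lt_mul_iff_right₀ hI0
    rw [c1, c2, c3, c3]
  have him : ∀ ξ : ℂ, 1 - ξ ≠ 0 → (cay ξ).im = (1 - ‖ξ‖ ^ 2) / ‖1 - ξ‖ ^ 2 := by
    intro ξ hξ
    unfold cay
    rw [Complex.div_im, ← normSq_eq_norm_sq, ← normSq_eq_norm_sq, ← sub_div]
    congr 1
    rw [normSq_apply]
    simp only [mul_re, mul_im, add_re, add_im, sub_re, sub_im, I_re, I_im, one_re, one_im]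
    ring
  ext z
  constructor
  · rintro ⟨ξ, hξ, rfl⟩
    have hd := EE_ne hξ
    refine ⟨(key ξ hd).mpr ⟨hξ.2.1, hξ.2.2⟩, ?_⟩
    rw [him ξ hd]
    have h1 : ‖ξ‖ ^ 2 ≤ 1 := by
      have := hξ.1
      have := norm_nonneg ξ
      nlinarith
    apply div_nonneg (by linarith) (by positivity)
  · rintro ⟨hz, hz2⟩
    have hzI : z + I ≠ 0 := by
      intro h
      have := congrArg im h
      simp at this
      linarith
    set ξ := (z - I) / (z + I) with hξ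
    have h1 : 1 - ξ = 2 * I / (z + I) := by
      rw [hξ]; field_simp; ring
    have h2 : 1 - ξ ≠ 0 := by
      rw [h1]
      exact div_ne_zero (mul_ne_zero two_ne_zero I_ne_zero) hzI
    have h3 : cay ξ = z := by
      have h4 : 1 + ξ = 2 * z / (z + I) := by
        rw [hξ]; field_simp; ring
      unfold cay
      rw [h1, h4]
      field_simp
    refine ⟨ξ, ⟨?_, ?_⟩, h3⟩
    · have h5 := him ξ h2
      rw [h3] at h5
      by_contra hcon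
      push Not at hcon
      have h6 : 1 < ‖ξ‖ ^ 2 := by nlinarith
      have h7 : (1 - ‖ξ‖ ^ 2) / ‖1 - ξ‖ ^ 2 < 0 := by
        apply div_neg_of_neg_of_pos (by linarith)
        have := norm_pos_iff.mpr h2
        positivity
      linarith
    · have := (key ξ h2).mp (by rw [h3]; exact hz)
      exact this

theorem conj_F1c {z : ℂ} : conj z ∈ F1c ↔ z ∈ F1c := by
  have e1 : ‖conj z + 1‖ = ‖z + 1‖ := by
    rw [← norm_conj (z + 1)]; simp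
  have e2 : ‖conj z - 1‖ = ‖z - 1‖ := by
    rw [← norm_conj (z - 1)]; simp
  rw [mem_F1c, mem_F1c, e1, e2, norm_conj]

theorem two_F1c : (2 : ℂ) ∈ F1c := F0c_F1 two_mem

theorem conn_F1c : IsConnected F1c := by
  refine ⟨⟨2, two_F1c⟩, ?_⟩
  have h1 : IsPreconnected {z | z ∈ F1c ∧ 0 ≤ z.im} := by
    rw [← upper_eq]
    exact preconn_EE.image _ cay_cont
  have h2 : IsPreconnected ((fun z : ℂ => conj z) '' {z | z ∈ F1c ∧ 0 ≤ z.im}) :=
    h1.image _ continuous_conj.continuousOn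
  have h3 : F1c = {z | z ∈ F1c ∧ 0 ≤ z.im} ∪ ((fun z : ℂ => conj z) '' {z | z ∈ F1c ∧ 0 ≤ z.im}) := by
    ext z
    constructor
    · intro hz
      rcases le_total 0 z.im with h | h
      · exact Or.inl ⟨hz, h⟩
      · exact Or.inr ⟨conj z, ⟨conj_F1c.mpr hz, by simpa using h⟩, by simp⟩
    · rintro (h | ⟨y, hy, rfl⟩)
      · exact h.1
      · exact conj_F1c.mpr hy.1
  rw [h3]
  have hc2 : (starRingEnd ℂ) (2 : ℂ) = 2 := map_ofNat _ _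
  exact h1.union 2 ⟨two_F1c, by simp⟩ ⟨2, ⟨two_F1c, by simp⟩, hc2⟩ h2

theorem F1c_sub : F1c ⊆ Yt := fun z h => ⟨1, by
  show F1 _
  rw [map_one, act_one]; exact h⟩

theorem Omega_eq : pr '' (F1c ×ˢ {w : ℂ | 0 < w.im}) = pr '' {p : ℂ × ℂ | p ∈ DY ∧ 0 < p.2.im} := by
  ext x
  constructor
  · rintro ⟨p, ⟨h1, h2⟩, rfl⟩
    exact ⟨p, ⟨F1c_sub h1, h2⟩, rfl⟩
  · rintro ⟨p, ⟨h1, h2⟩, rfl⟩
    obtain ⟨g, hg⟩ := exists_F0c h1
    have hd := den_ne_of_im (rho g) (ne_of_gt h2)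
    refine ⟨am g p, ⟨F0c_F1 hg, ?_⟩, ?_⟩
    · show 0 < (mob (rho g) p.2).im
      rw [im_mob _ hd]
      have := norm_pos_iff.mpr hd
      have h2' : 0 < p.2.im := h2
      positivity
    · rw [eq_comm, pr_eq h1 (am_mem h1 g)]
      exact ⟨g, hd, rfl⟩

theorem conn_Omega : IsConnected (pr '' {p : ℂ × ℂ | p ∈ DY ∧ 0 < p.2.im}) := by
  rw [← Omega_eq]
  have hH : IsConnected {w : ℂ | 0 < w.im} := ⟨⟨I, by simp⟩, (convex_halfSpace_im_gt 0).isPreconnected⟩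
  refine (conn_F1c.prod hH).image _ (pr_continuousOn.mono ?_)
  intro p hp
  exact F1c_sub hp.1

instance : ConnectedSpace X := by
  have hU : IsConnected (univ : Set ℂ) := isConnected_univ
  have h1 : IsConnected (pr '' (F1c ×ˢ (univ : Set ℂ))) :=
    (conn_F1c.prod hU).image _ (pr_continuousOn.mono (fun p hp => F1c_sub hp.1))
  have hB : IsConnected (mob (rho (FreeGroup.of 1)) '' F1c) := by
    refine conn_F1c.image _ ?_
    intro z hz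
    exact (continuousAt_mob _ (den_ne (F1c_sub hz) _)).continuousWithinAt
  have h2 : IsConnected (pr '' ((mob (rho (FreeGroup.of 1)) '' F1c) ×ˢ (univ : Set ℂ))) := by
    refine (hB.prod hU).image _ (pr_continuousOn.mono ?_)
    rintro p ⟨⟨z, hz, hzp⟩, -⟩
    show p.1 ∈ Yt
    rw [← hzp]
    exact mob_mem (F1c_sub hz) _
  have hI : (pr '' (F1c ×ˢ (univ : Set ℂ)) ∩
      pr '' ((mob (rho (FreeGroup.of 1)) '' F1c) ×ˢ (univ : Set ℂ))).Nonempty := by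
    refine ⟨pr (2, I), ⟨(2, I), ⟨two_F1c, mem_univ _⟩, rfl⟩,
      ⟨am (FreeGroup.of 1) (2, I), ⟨⟨2, two_F1c, rfl⟩, mem_univ _⟩, ?_⟩⟩
    have hD : ((2, I) : ℂ × ℂ) ∈ DY := F1c_sub two_F1c
    rw [eq_comm, pr_eq hD (am_mem hD _)]
    exact ⟨FreeGroup.of 1, den_ne_of_im _ (by simp), rfl⟩
  have h3 := h1.union hI h2
  have h4 : pr '' (F1c ×ˢ (univ : Set ℂ)) ∪
      pr '' ((mob (rho (FreeGroup.of 1)) '' F1c) ×ˢ (univ : Set ℂ)) = univ := by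
    rw [eq_univ_iff_forall]
    intro x
    obtain ⟨p, hp, rfl⟩ := pr_surj x
    obtain ⟨g, hg, h1, h2⟩ := exists_compact_rep hp
    have he : pr (am g p) = pr p := by
      rw [eq_comm, pr_eq hp (am_mem hp g)]
      exact ⟨g, hg, rfl⟩
    rcases h1 with h | ⟨z, hz, hzg⟩
    · exact Or.inl ⟨am g p, ⟨F0c_F1 h, mem_univ _⟩, he⟩
    · exact Or.inr ⟨am g p, ⟨⟨z, F0c_F1 hz, hzg⟩, mem_univ _⟩, he⟩
  rw [h4] at h3
  exact connectedSpace_iff_univ.mpr h3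

end Pool.Agent.H914R3.LF
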