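import Mathlib
import Pool.Agent.H914R3.LF.Calc

/-!
Definitions for domains with Levi-flat boundary in complex surfaces.

Everything is read in the preferred chart at a point. On a complex manifold the notions below do
not depend on the chart.
-/

set_option autoImplicit false

open Complex Filter Topology Set
open scoped Manifold ContDiff

namespace Pool.Agent.H914R3.LF

variable {M : Type} [TopologicalSpace M] [ChartedSpace (ℂ × ℂ) M]

/-- The real function `u` read in the preferred chart at `x`. -/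
noncomputable def inChart (u : M → ℝ) (x : M) : ℂ × ℂ → ℝ :=
  fun p => u ((chartAt (ℂ × ℂ) x).symm p)

/-- `u` is of class `C^n` (in the real sense) near `x`. -/
def SmoothAt (n : ℕ∞) (u : M → ℝ) (x : M) : Prop :=
  ContDiffAt ℝ (n : WithTop ℕ∞) (inChart u x) (chartAt (ℂ × ℂ) x x)

/-- The real differential `du` at `x`. -/
noncomputable def differential (u : M → ℝ) (x : M) : (ℂ × ℂ) →L[ℝ] ℝ :=
  fderiv ℝ (inChart u x) (chartAt (ℂ × ℂ) x x)

/-- The Levi form `∑ ∂²u/∂z_j∂z̄_k v_j v̄_k` of `u` at `x` in the direction `v`. -/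
noncomputable def leviForm (u : M → ℝ) (x : M) (v : ℂ × ℂ) : ℝ :=
  lev (inChart u x) (chartAt (ℂ × ℂ) x x) v

/-- `Ω` is a connected relatively compact open set with nonempty `C^∞` boundary and `ρ` is a
(globally defined) `C^∞` defining function of `Ω`. -/
structure IsSmoothDomain (Ω : Set M) (ρ : M → ℝ) : Prop where
  isOpen : IsOpen Ω
  connected : IsConnected Ω
  relCompact : IsCompact (closure Ω)
  smooth : ∀ x, SmoothAt ⊤ ρ x
  neg_iff : ∀ x, x ∈ Ω ↔ ρ x < 0
  zero_iff : ∀ x, x ∈ frontier Ω ↔ ρ x = 0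
  bdry_nonempty : (frontier Ω).Nonempty
  differential_ne : ∀ x ∈ frontier Ω, differential ρ x ≠ 0

/-- The Levi form of `ρ` vanishes on the complex tangent space at every boundary point. -/
def IsLeviFlat (Ω : Set M) (ρ : M → ℝ) : Prop :=
  ∀ x ∈ frontier Ω, ∀ v : ℂ × ℂ, differential ρ x v = 0 → differential ρ x (I • v) = 0 →
    leviForm ρ x v = 0

/-- `u` is of class `C²` and strictly plurisubharmonic on `S`. -/
def StrictPshOn (u : M → ℝ) (S : Set M) : Prop :=
  ∀ x ∈ S, SmoothAt 2 u x ∧ ∀ v : ℂ × ℂ, v ≠ 0 → 0 < leviForm u x v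

/-- `-(-ρ)^η` is strictly plurisubharmonic on `Ω ∩ V` for some `η ∈ (0, 1)` and some
neighbourhood `V` of the boundary. -/
def HasPosDFExponent (Ω : Set M) (ρ : M → ℝ) : Prop :=
  ∃ η : ℝ, 0 < η ∧ η < 1 ∧ ∃ V : Set M, IsOpen V ∧ frontier Ω ⊆ V ∧
    StrictPshOn (fun x => -(-ρ x) ^ η) (Ω ∩ V)

end Pool.Agent.H914R3.LF
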