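import Mathlib
import Pool.Agent.H914R3.LF.Bdd

/-!
The exponential of the Poincaré series is invariant under the group.
-/

set_option autoImplicit false

open Complex Filter Topology Set ComplexConjugate

namespace Pool.Agent.H914R3.LF

/-- a symmetry intertwining the group -/
theorem intertwine (s : ℝ × ℝ → ℝ × ℝ) (θ : G →* G)
    (h : ∀ i y, ra (rho (θ (FreeGroup.of i))) (s y) = s (ra (gen i) y)) (g : G) :
    ∀ y, ra (rho (θ g)) (s y) = s (ra (rho g) y) := by
  induction g using FreeGroup.induction_on with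
  | C1 => intro y; simp [map_one, ra_one]
  | of i =>
    intro y
    have : rho (FreeGroup.of i) = gen i := FreeGroup.lift_apply_of ..
    rw [h, this]
  | inv_of i hi =>
    intro y
    have h1 : y = ra (rho (FreeGroup.of i)) (ra (rho (FreeGroup.of i)⁻¹) y) := by
      rw [← ra_mul, ← map_mul, mul_inv_cancel, map_one, ra_one]
    conv_lhs => rw [h1]
    rw [← hi, ← ra_mul, ← map_mul, ← map_mul, inv_mul_cancel, map_one, map_one, ra_one]
  | mul x z hx hz =>
    intro y
    rw [map_mul, map_mul, ra_mul, hz, hx, map_mul, ra_mul]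

noncomputable def thS : G →* G :=
  FreeGroup.lift fun i => if i = 0 then FreeGroup.of 0 else (FreeGroup.of 1)⁻¹

noncomputable def thT : G →* G :=
  FreeGroup.lift fun i => if i = 0 then (FreeGroup.of 0)⁻¹ else FreeGroup.of 1

theorem thS_invol (g : G) : thS (thS g) = g := by
  have : thS.comp thS = MonoidHom.id G := by
    apply FreeGroup.ext_hom
    intro i
    fin_cases i <;> simp [thS]
  exact DFunLike.congr_fun this g

theorem thT_invol (g : G) : thT (thT g) = g := by
  have : thT.comp thT = MonoidHom.id G := by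
    apply FreeGroup.ext_hom
    intro i
    fin_cases i <;> simp [thT]
  exact DFunLike.congr_fun this g

def sS (y : ℝ × ℝ) : ℝ × ℝ := (-y.1, y.2)

def sT (y : ℝ × ℝ) : ℝ × ℝ := (y.2, y.1)

theorem rho_of (i : Fin 2) : rho (FreeGroup.of i) = gen i := FreeGroup.lift_apply_of ..

theorem inter_S (g : G) : ∀ y, ra (rho (thS g)) (sS y) = sS (ra (rho g) y) := by
  apply intertwine
  intro i y
  fin_cases i
  · show ra (rho (thS (FreeGroup.of 0))) (sS y) = sS (ra (gen 0) y)
    have : thS (FreeGroup.of 0) = FreeGroup.of 0 := by simp [thS]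
    rw [this, rho_of]
    simp [ra, gen0_val, sS]
  · show ra (rho (thS (FreeGroup.of 1))) (sS y) = sS (ra (gen 1) y)
    have : thS (FreeGroup.of 1) = (FreeGroup.of 1)⁻¹ := by simp [thS]
    rw [this, map_inv, rho_of]
    simp only [ra, inv_val, gen1_val, sS]
    ext
    · simp; ring
    · simp

theorem inter_T (g : G) : ∀ y, ra (rho (thT g)) (sT y) = sT (ra (rho g) y) := by
  apply intertwine
  intro i y
  fin_cases i
  · show ra (rho (thT (FreeGroup.of 0))) (sT y) = sT (ra (gen 0) y)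
    have : thT (FreeGroup.of 0) = (FreeGroup.of 0)⁻¹ := by simp [thT]
    rw [this, map_inv, rho_of]
    simp [ra, gen0_val, sT]
  · show ra (rho (thT (FreeGroup.of 1))) (sT y) = sT (ra (gen 1) y)
    have : thT (FreeGroup.of 1) = FreeGroup.of 1 := by simp [thT]
    rw [this, rho_of]
    simp only [ra, gen1_val, sT]
    ext
    · simp; ring
    · simp; ring

theorem ra_neg (M : SL2) (y : ℝ × ℝ) : ra M (-y) = -ra M y := by
  ext <;> simp [ra] <;> ring

theorem T_neg (y : ℝ × ℝ) (w : ℂ) : T (-y) w = T y w := by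
  unfold T nY
  simp only [Prod.fst_neg, Prod.snd_neg, ofReal_neg]
  have e1 : I * (-(y.1 : ℂ) * w + -(y.2 : ℂ)) = -(I * (y.1 * w + y.2)) := by ring
  have e2 : (((-y.1) ^ 2 + (-y.2) ^ 2 : ℝ) : ℂ) * (w * -(y.2 : ℂ) - -(y.1 : ℂ)) =
      -(((y.1 ^ 2 + y.2 ^ 2 : ℝ) : ℂ) * (w * y.2 - y.1)) := by push_cast; ring
  rw [e1, e2, neg_div_neg_eq]

theorem T_S (y : ℝ × ℝ) (w : ℂ) : T y (-conj w) = conj (T (sS y) w) := by
  unfold T nY sS
  simp only [map_div₀, map_mul, map_add, map_sub, conj_I, conj_ofReal, ofReal_neg, map_neg]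
  have e1 : I * (y.1 * (-conj w) + y.2) = -(-I * (-(y.1 : ℂ) * conj w + y.2)) := by ring
  have e2 : ((y.1 ^ 2 + y.2 ^ 2 : ℝ) : ℂ) * (-conj w * y.2 - y.1) =
      -((((-y.1) ^ 2 + y.2 ^ 2 : ℝ) : ℂ) * (conj w * y.2 - -(y.1 : ℂ))) := by push_cast; ring
  rw [e1, e2, neg_div_neg_eq]

theorem T_T {y : ℝ × ℝ} {w : ℂ} (hw : w ≠ 0) : T y (conj w)⁻¹ = conj (T (sT y) w) := by
  have hw' : conj w ≠ 0 := by simpa using hw
  unfold T nY sT
  simp only [map_div₀, map_mul, map_add, map_sub, conj_I, conj_ofReal]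
  have e1 : I * (y.1 * (conj w)⁻¹ + y.2) = (conj w)⁻¹ * (I * (y.2 * conj w + y.1)) := by
    field_simp; ring
  have e2 : ((y.1 ^ 2 + y.2 ^ 2 : ℝ) : ℂ) * ((conj w)⁻¹ * y.2 - y.1) =
      (conj w)⁻¹ * (((y.1 ^ 2 + y.2 ^ 2 : ℝ) : ℂ) * (y.2 - y.1 * conj w)) := by
    field_simp
  rw [e1, e2, mul_div_mul_left _ _ (inv_ne_zero hw')]
  have e3 : -I * (y.2 * conj w + y.1) = -(I * (y.2 * conj w + y.1)) := by ring
  have e4 : ((y.2 ^ 2 + y.1 ^ 2 : ℝ) : ℂ) * (conj w * y.1 - y.2) =
      -(((y.1 ^ 2 + y.2 ^ 2 : ℝ) : ℂ) * (y.2 - y.1 * conj w)) := by push_cast; ring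
  rw [e3, e4, neg_div_neg_eq]

noncomputable def eS : J ≃ J where
  toFun j := (thS j.1, (!j.2.1, j.2.2))
  invFun j := (thS j.1, (!j.2.1, j.2.2))
  left_inv j := by simp [thS_invol]
  right_inv j := by simp [thS_invol]

noncomputable def eT : J ≃ J where
  toFun j := (thT j.1, (j.2.1, !j.2.2))
  invFun j := (thT j.1, (j.2.1, !j.2.2))
  left_inv j := by simp [thT_invol]
  right_inv j := by simp [thT_invol]

theorem YY_S (j : J) : YY (eS j) = sS (YY j) := by
  obtain ⟨g, b1, b2⟩ := j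
  show ra (rho (thS g)) (bv (!b1, b2)) = sS (ra (rho g) (bv (b1, b2)))
  rw [← inter_S]
  congr 1
  cases b1 <;> cases b2 <;> simp [bv, sS]

theorem TY_T (j : J) (w : ℂ) : T (YY (eT j)) w = T (sT (YY j)) w := by
  obtain ⟨g, b1, b2⟩ := j
  show T (ra (rho (thT g)) (bv (b1, !b2))) w = T (sT (ra (rho g) (bv (b1, b2)))) w
  rw [← inter_T]
  cases b1
  · have : bv (false, !b2) = -(sT (bv (false, b2))) := by
      cases b2 <;> simp [bv, sT]
    rw [this, ra_neg, T_neg]
  · have : bv (true, !b2) = sT (bv (true, b2)) := by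
      cases b2 <;> simp [bv, sT]
    rw [this]

theorem gF_S (w : ℂ) : gF (-conj w) = conj (gF w) := by
  unfold gF
  rw [conj_tsum, ← Equiv.tsum_eq eS (fun j => conj (T (YY j) w))]
  congr 1
  funext j
  rw [T_S, YY_S]

theorem gF_T {w : ℂ} (hw : w ≠ 0) : gF (conj w)⁻¹ = conj (gF w) := by
  unfold gF
  rw [conj_tsum, ← Equiv.tsum_eq eT (fun j => conj (T (YY j) w))]
  congr 1
  funext j
  rw [T_T hw, TY_T]

theorem real_of_conj {z : ℂ} (h : z = conj z) : z.im = 0 := by
  have := congrArg im h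
  simp at this
  linarith

theorem gF_I : (gF I).im = 0 := by
  apply real_of_conj
  have := gF_S I
  simpa using this

theorem I_im : 0 < (I : ℂ).im := by simp

theorem gF_AI : gF (mob (rho (FreeGroup.of 0)) I) = gF I := by
  have h1 : mob (rho (FreeGroup.of 0)) I = 10000 * I := by
    rw [rho_of]
    unfold mob den
    rw [gen0_val]
    simp
    ring
  apply Complex.ext
  · exact re_gF_mob _ I_im
  · rw [gF_I]
    apply real_of_conj
    have := gF_S (mob (rho (FreeGroup.of 0)) I)
    rw [h1] at this ⊢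
    have h9 : (starRingEnd ℂ) (10000 : ℂ) = 10000 := map_ofNat _ _
    have h2 : -conj (10000 * I) = 10000 * I := by simp [h9]
    rwa [h2] at this

theorem gF_BI : gF (mob (rho (FreeGroup.of 1)) I) = gF I := by
  have hd : den (gen 1) I ≠ 0 := den_ne_of_im _ (by simp)
  set W := mob (rho (FreeGroup.of 1)) I with hW
  have h1 : W * (9999 / 200 * I + 10001 / 200) = 10001 / 200 * I + 9999 / 200 := by
    rw [hW, rho_of]
    have e1 : den (gen 1) I = 9999 / 200 * I + 10001 / 200 := by
      unfold den; rw [gen1_val]; simp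
    have e2 : mob (gen 1) I * den (gen 1) I = 10001 / 200 * I + 9999 / 200 := by
      unfold mob
      rw [div_mul_cancel₀ _ hd, gen1_val]
      simp
    rw [e1] at e2
    exact e2
  have hWim : 0 < W.im := mob_im_pos _ I_im
  have hW0 : W ≠ 0 := by
    intro h; rw [h] at hWim; simp at hWim
  have h2 : conj W * (-(9999 / 200 * I) + 10001 / 200) = -(10001 / 200 * I) + 9999 / 200 := by
    have a1 : (starRingEnd ℂ) (10001 : ℂ) = 10001 := map_ofNat _ _
    have a2 : (starRingEnd ℂ) (9999 : ℂ) = 9999 := map_ofNat _ _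
    have a3 : (starRingEnd ℂ) (200 : ℂ) = 200 := map_ofNat _ _
    have := congrArg conj h1
    simpa [a1, a2, a3] using this
  have hWW : conj W * W = 1 := by
    have h3 : (conj W * W) * ((9999 / 200 * I + 10001 / 200) * (-(9999 / 200 * I) + 10001 / 200)) =
        (10001 / 200 * I + 9999 / 200) * (-(10001 / 200 * I) + 9999 / 200) := by
      rw [← h1, ← h2]; ring
    have h4 : ((9999 / 200 * I + 10001 / 200) * (-(9999 / 200 * I) + 10001 / 200) : ℂ) =
        (9999 / 200) ^ 2 + (10001 / 200) ^ 2 := by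
      linear_combination (-(9999 / 200) ^ 2) * I_sq
    have h5 : ((10001 / 200 * I + 9999 / 200) * (-(10001 / 200 * I) + 9999 / 200) : ℂ) =
        (9999 / 200) ^ 2 + (10001 / 200) ^ 2 := by
      linear_combination (-(10001 / 200) ^ 2) * I_sq
    rw [h4, h5] at h3
    have h6 : ((9999 / 200) ^ 2 + (10001 / 200) ^ 2 : ℂ) ≠ 0 := by norm_num
    exact mul_right_cancel₀ h6 (by rw [h3, one_mul])
  have h7 : (conj W)⁻¹ = W := inv_eq_of_mul_eq_one_right hWW
  apply Complex.ext
  · exact re_gF_mob _ I_im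
  · rw [gF_I]
    apply real_of_conj
    have := gF_T hW0
    rwa [h7] at this

/-- the invariant bounded function -/
noncomputable def FF (w : ℂ) : ℂ := exp (-gF w)

theorem FF_differentiableOn : DifferentiableOn ℂ FF HH := differentiableOn_gF.neg.cexp

theorem FF_norm_le {w : ℂ} (hw : 0 < w.im) : ‖FF w‖ ≤ 1 := by
  unfold FF
  rw [norm_exp, neg_re, re_gF hw]
  apply Real.exp_le_one_iff.mpr
  have : 0 ≤ ∑' j : J, (T (YY j) w).re := tsum_nonneg fun j => T_nonneg (nY_pos j) hw
  linarith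

theorem FF_mul (h : G) {w : ℂ} (hw : 0 < w.im) :
    FF (mob (rho h) w) * FF I = FF (mob (rho h) I) * FF w := by
  set φ : ℂ → ℂ := fun w => exp (-(gF (mob (rho h) w) - gF w)) with hφ
  have hd : DifferentiableOn ℂ φ HH := by
    have h1 : DifferentiableOn ℂ (fun w => gF (mob (rho h) w)) HH := by
      refine differentiableOn_gF.comp ?_ (fun w hw => mob_im_pos _ hw)
      intro v hv
      have hv' : 0 < v.im := hv
      exact (hasDerivAt_mob _ (den_ne_of_im _ hv'.ne')).differentiableAt.differentiableWithinAt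
    exact (h1.sub differentiableOn_gF).neg.cexp
  have hn : ∀ v ∈ HH, ‖φ v‖ = 1 := by
    intro v hv
    rw [hφ]
    simp only
    rw [norm_exp, neg_re, sub_re, re_gF_mob h hv, sub_self, neg_zero, Real.exp_zero]
  have hpc : IsPreconnected HH := (convex_halfSpace_im_gt 0).isPreconnected
  have hI : I ∈ HH := I_im
  have hE := eqOn_of_isPreconnected_of_isMaxOn_norm hpc isOpen_HH hd hI (by
    intro v hv
    simp only [Function.comp, mem_ofPred_eq]
    rw [hn v hv, hn I hI])
  have h2 := hE (show w ∈ HH from hw)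
  simp only [Function.const, hφ] at h2
  unfold FF
  rw [← exp_add, ← exp_add]
  have h3 : -gF (mob (rho h) w) + -gF I = -(gF (mob (rho h) w) - gF w) + (-gF w + -gF I) := by ring
  have h4 : -gF (mob (rho h) I) + -gF w = -(gF (mob (rho h) I) - gF I) + (-gF w + -gF I) := by ring
  rw [h3, h4, exp_add, h2, ← exp_add]

theorem FF_gen (i : Fin 2) {w : ℂ} (hw : 0 < w.im) :
    FF (mob (rho (FreeGroup.of i)) w) = FF w := by
  have h1 := FF_mul (FreeGroup.of i) hw
  have h2 : FF (mob (rho (FreeGroup.of i)) I) = FF I := by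
    unfold FF
    fin_cases i
    · exact congrArg (fun z => exp (-z)) gF_AI
    · exact congrArg (fun z => exp (-z)) gF_BI
  rw [h2, mul_comm] at h1
  exact mul_left_cancel₀ (exp_ne_zero _) h1

theorem FF_inv (g : G) : ∀ w : ℂ, 0 < w.im → FF (mob (rho g) w) = FF w := by
  induction g using FreeGroup.induction_on with
  | C1 => intro w hw; rw [map_one, mob_one]
  | of i => intro w hw; exact FF_gen i hw
  | inv_of i hi =>
    intro w hw
    have h1 := hi (mob (rho (FreeGroup.of i)⁻¹) w) (mob_im_pos _ hw)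
    rw [← mob_mul _ _ _ (den_ne_of_im _ hw.ne'), ← map_mul, mul_inv_cancel, map_one, mob_one] at h1
    exact h1.symm
  | mul x z hx hz =>
    intro w hw
    rw [map_mul, mob_mul _ _ _ (den_ne_of_im _ hw.ne'), hx _ (mob_im_pos _ hw), hz _ hw]

theorem FF_nonconst : ∃ w : ℂ, 0 < w.im ∧ FF w ≠ FF I := by
  set m := (gF I).re with hm
  have hm0 : 0 ≤ m := by
    rw [hm, re_gF I_im]
    exact tsum_nonneg fun j => T_nonneg (nY_pos j) I_im
  set t : ℝ := 1 / (m + 1) with ht
  have ht0 : 0 < t := by positivity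
  have hw : 0 < ((2 : ℂ) + t * I).im := by simpa using ht0
  refine ⟨(2 : ℂ) + t * I, hw, ?_⟩
  intro hcon
  have h1 := congrArg norm hcon
  unfold FF at h1
  rw [norm_exp, norm_exp, neg_re, neg_re, Real.exp_eq_exp, neg_inj, ← hm] at h1
  have h2 : (T (YY (1, (true, true))) ((2 : ℂ) + t * I)).re ≤ (gF ((2 : ℂ) + t * I)).re := by
    rw [re_gF hw]
    exact (summable_re_T hw).le_tsum _ (fun j _ => T_nonneg (nY_pos j) hw)
  have h3 : YY (1, (true, true)) = (2, 1) := by
    unfold YY
    rw [map_one, ra_one]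
    simp [bv]
  rw [re_T (nY_pos _) hw, h3, h1] at h2
  have h4 : ((2 : ℂ) + t * I) * ((1 : ℝ) : ℂ) - ((2 : ℝ) : ℂ) = t * I := by push_cast; ring
  simp only at h2
  rw [h4, norm_mul, norm_I, mul_one, Complex.norm_real, Real.norm_eq_abs, sq_abs] at h2
  have h5 : ((2 : ℂ) + t * I).im = t := by simp
  rw [h5] at h2
  have h6 : t / t ^ 2 = m + 1 := by
    rw [ht]; field_simp
  rw [h6] at h2
  linarith

end Pool.Agent.H914R3.LF
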