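import Mathlib
import Pool.Agent.H914R3.LF.Defs
import Pool.Agent.H914R3.LF.Sym
import Pool.Agent.H914R3.LF.Conn

/-!
Assembling the example.
-/

set_option autoImplicit false

open Complex Filter Topology Set
open scoped Manifold ContDiff

namespace Pool.Agent.H914R3.LF

/-- the boundary distance on the quotient -/
noncomputable def rX (ε : ℝ) (x : X) : ℝ := rr ε (pX x)

theorem rX_pr (ε : ℝ) {p : ℂ × ℂ} (hp : p ∈ DY) : rX ε (pr p) = rr ε p := by
  have h : pr (pX (pr p)) = pr p := pr_pX _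
  rw [pr_eq (pX_DY _) hp] at h
  obtain ⟨g, hg, hgp⟩ := h
  unfold rX
  rw [← rr_am (pX_DY (pr p)) g hg, hgp]

theorem rX_continuous {ε : ℝ} (hε : 0 < ε) : Continuous (rX ε) := by
  rw [isOpenQuotientMap_mk.isQuotientMap.continuous_iff]
  have e : rX ε ∘ mkX = fun p : DYt => rr ε p.1 := by
    funext p
    show rX ε (mkX p) = _
    rw [← pr_val, rX_pr ε p.2]
  rw [e]
  exact (contDiffOn_rr hε).continuousOn.domRestrict

theorem chart_self (x : X) : chartAt (ℂ × ℂ) x x = pX x := chX_self x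

theorem nhds_DY (x : X) : DY ∈ 𝓝 (pX x) := isOpen_DY.mem_nhds (pX_DY x)

theorem inChart_rX (ε : ℝ) (x : X) : inChart (fun y => -rX ε y) x =ᶠ[𝓝 (pX x)] fun p => -rr ε p := by
  filter_upwards [nhds_DY x] with p hp
  show -rX ε (pr p) = _
  rw [rX_pr ε hp]

theorem jet_rr {ε : ℝ} (hε : 0 < ε) {p : ℂ × ℂ} (hp : p ∈ DY) (h0 : p.2.im = 0) (v : ℂ × ℂ) :
    Jet (fun p => -rr ε p) p v (-(v.2.im * (Qf ε p)⁻¹))
      (-(2 * v.2.im * fderiv ℝ (fun p => (Qf ε p)⁻¹) p v)) := by
  have hQ := Qf_pos hε hp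
  have hc : ContDiffAt ℝ 2 (fun p => (Qf ε p)⁻¹) p :=
    (((contDiffOn_Qf ε).contDiffAt (isOpen_DY.mem_nhds hp)).of_le (by norm_cast)).inv hQ.ne'
  have j := ((jet_im p v).mul (Jet.mk' hc v)).neg
  have e : (fun p => -rr ε p) = fun x : ℂ × ℂ => -(x.2.im * (Qf ε x)⁻¹) := by
    funext x
    unfold rr
    rw [div_eq_mul_inv]
  rw [e]
  refine ⟨j.cd, ?_, ?_⟩
  · rw [j.d1, h0]; ring
  · rw [j.d2, h0]; ring

theorem differential_rX {ε : ℝ} (hε : 0 < ε) {x : X} (h0 : (pX x).2.im = 0) (v : ℂ × ℂ) :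
    differential (fun y => -rX ε y) x v = -(v.2.im * (Qf ε (pX x))⁻¹) := by
  unfold differential
  rw [chart_self, (inChart_rX ε x).fderiv_eq]
  exact (jet_rr hε (pX_DY x) h0 v).d1

theorem im_zero_of {ε : ℝ} (hε : 0 < ε) {x : X} (h : rX ε x = 0) : (pX x).2.im = 0 := by
  unfold rX rr at h
  have hQ := Qf_pos hε (pX_DY x)
  rcases div_eq_zero_iff.mp h with h | h
  · exact h
  · exact absurd h hQ.ne'

theorem im_pos_of {ε : ℝ} (hε : 0 < ε) {p : ℂ × ℂ} (hp : p ∈ DY) : 0 < rr ε p ↔ 0 < p.2.im := by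
  unfold rr
  have hQ := Qf_pos hε hp
  constructor
  · intro h
    by_contra hcon
    have : p.2.im / Qf ε p ≤ 0 := div_nonpos_of_nonpos_of_nonneg (not_lt.mp hcon) hQ.le
    linarith
  · intro h; positivity

theorem Om_eq {ε : ℝ} (hε : 0 < ε) :
    {x : X | -rX ε x < 0} = pr '' {p : ℂ × ℂ | p ∈ DY ∧ 0 < p.2.im} := by
  ext x
  constructor
  · intro h
    have h1 : 0 < rr ε (pX x) := by
      have : -rX ε x < 0 := h
      unfold rX at this
      linarith
    exact ⟨pX x, ⟨pX_DY x, (im_pos_of hε (pX_DY x)).mp h1⟩, pr_pX x⟩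
  · rintro ⟨p, ⟨h1, h2⟩, rfl⟩
    show -rX ε (pr p) < 0
    rw [rX_pr ε h1]
    have := (im_pos_of hε h1).mpr h2
    linarith

theorem frontier_iff {ε : ℝ} (hε : 0 < ε) (x : X) :
    x ∈ frontier {x : X | -rX ε x < 0} ↔ -rX ε x = 0 := by
  have hc := (rX_continuous hε).neg
  constructor
  · intro h
    exact frontier_lt_subset_eq hc continuous_const h
  · intro h
    have h0 : (pX x).2.im = 0 := im_zero_of hε (by linarith)
    have ho : IsOpen {x : X | -rX ε x < 0} := isOpen_lt hc continuous_const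
    rw [ho.frontier_eq]
    refine ⟨?_, fun hx => by have : -rX ε x < 0 := hx; linarith⟩
    have hL : Continuous fun t : ℝ => ((pX x).1, (pX x).2 + t * I) := by fun_prop
    have hcpr : ContinuousAt pr (pX x) :=
      pr_continuousOn.continuousAt (nhds_DY x)
    have hL0 : Tendsto (fun t : ℝ => ((pX x).1, (pX x).2 + t * I)) (𝓝[>] 0) (𝓝 (pX x)) := by
      have h1 := hL.tendsto 0
      simp only [ofReal_zero, zero_mul, add_zero] at h1
      exact h1.mono_left nhdsWithin_le_nhds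
    have h2 : Tendsto (fun t : ℝ => pr ((pX x).1, (pX x).2 + t * I)) (𝓝[>] 0) (𝓝 x) := by
      have := hcpr.tendsto.comp hL0
      rwa [pr_pX] at this
    refine mem_closure_of_tendsto h2 ?_
    filter_upwards [self_mem_nhdsWithin] with t ht
    have hD : ((pX x).1, (pX x).2 + t * I) ∈ DY := pX_DY x
    show -rX ε (pr _) < 0
    rw [rX_pr ε hD]
    have h3 : 0 < ((pX x).1, (pX x).2 + t * I).2.im := by
      simp [h0]
      exact ht
    have := (im_pos_of hε hD).mpr h3
    linarith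

/-- the bounded function on the quotient -/
noncomputable def fX (x : X) : ℂ := FF (pX x).2

theorem fX_pr {p : ℂ × ℂ} (hp : p ∈ DY) (hi : 0 < p.2.im) : fX (pr p) = FF p.2 := by
  have h : pr p = pr (pX (pr p)) := (pr_pX _).symm
  rw [pr_eq hp (pX_DY _)] at h
  obtain ⟨g, hg, hgp⟩ := h
  unfold fX
  rw [← hgp]
  exact FF_inv g _ hi

theorem mdiff_of_chart {f : X → ℂ} {x : X} (h : DifferentiableAt ℂ (fun p => f (pr p)) (pX x)) :
    MDifferentiableAt 𝓘(ℂ, ℂ × ℂ) 𝓘(ℂ) f x := by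
  rw [mdifferentiableAt_iff]
  constructor
  · have h1 : f =ᶠ[𝓝 x] fun y => f (pr (chX x y)) := by
      filter_upwards [(chX x).open_source.mem_nhds (mem_chX_source x)] with y hy
      have : pr (chX x y) = y := (chX x).left_inv hy
      rw [this]
    have h2 : ContinuousAt (chX x) x := (chX x).continuousAt (mem_chX_source x)
    have h3 : ContinuousAt (fun p => f (pr p)) (chX x x) := by
      rw [chX_self]; exact h.continuousAt
    exact (ContinuousAt.comp (f := chX x) (g := fun p => f (pr p)) h3 h2).congr h1.symm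
  · have h4 : writtenInExtChartAt 𝓘(ℂ, ℂ × ℂ) 𝓘(ℂ) x f = fun p => f (pr p) := rfl
    have h5 : extChartAt 𝓘(ℂ, ℂ × ℂ) x x = pX x := chart_self x
    rw [h4, h5]
    exact h.differentiableWithinAt

theorem fX_mdiff {x : X} (hx : 0 < (pX x).2.im) : MDifferentiableAt 𝓘(ℂ, ℂ × ℂ) 𝓘(ℂ) fX x := by
  apply mdiff_of_chart
  have h1 : DifferentiableAt ℂ FF (pX x).2 := FF_differentiableOn.differentiableAt
    (isOpen_HH.mem_nhds hx)
  have h2 : DifferentiableAt ℂ (fun p : ℂ × ℂ => FF p.2) (pX x) :=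
    DifferentiableAt.comp (f := fun p : ℂ × ℂ => p.2) (pX x) h1 differentiableAt_snd
  refine h2.congr_of_eventuallyEq ?_
  have h3 : IsOpen {p : ℂ × ℂ | 0 < p.2.im} :=
    isOpen_lt continuous_const (continuous_im.comp continuous_snd)
  filter_upwards [nhds_DY x, h3.mem_nhds hx] with p hp hp2
  exact fX_pr hp hp2

theorem example_exists : ∃ (Ω : Set X) (ρ : X → ℝ), IsSmoothDomain Ω ρ ∧ IsLeviFlat Ω ρ ∧
    HasPosDFExponent Ω ρ ∧ ∃ f : X → ℂ, MDifferentiableOn 𝓘(ℂ, ℂ × ℂ) 𝓘(ℂ) f Ω ∧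
      (∀ x ∈ Ω, ‖f x‖ ≤ 1) ∧ ∃ x ∈ Ω, ∃ y ∈ Ω, f x ≠ f y := by
  obtain ⟨ε, hε, η, hη0, hη1, δ, hδ, hpsh⟩ := psh_final
  have hc := (rX_continuous hε).neg
  have ho : IsOpen {x : X | -rX ε x < 0} := isOpen_lt hc continuous_const
  have hconn : IsConnected {x : X | -rX ε x < 0} := by rw [Om_eq hε]; exact conn_Omega
  refine ⟨{x : X | -rX ε x < 0}, fun x => -rX ε x, ?_, ?_, ?_, ?_⟩
  · refine ⟨ho, hconn, isClosed_closure.isCompact, ?_, fun x => Iff.rfl, frontier_iff hε, ?_, ?_⟩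
    · intro x
      unfold SmoothAt
      rw [chart_self]
      have h1 : ContDiffAt ℝ ((⊤ : ℕ∞) : WithTop ℕ∞) (fun p => -rr ε p) (pX x) :=
        ((contDiffOn_rr hε).contDiffAt (nhds_DY x)).neg
      exact h1.congr_of_eventuallyEq (inChart_rX ε x)
    · rw [nonempty_frontier_iff]
      refine ⟨hconn.nonempty, fun h => ?_⟩
      have hD : ((2, 0) : ℂ × ℂ) ∈ DY := F1c_sub two_F1c
      have h1 : pr (2, 0) ∈ {x : X | -rX ε x < 0} := by rw [h]; exact mem_univ _
      have h2 : -rX ε (pr (2, 0)) < 0 := h1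
      rw [rX_pr ε hD] at h2
      unfold rr at h2
      simp at h2
    · intro x hx h
      have h0 := im_zero_of hε (x := x) (by have := (frontier_iff hε x).mp hx; linarith)
      have h1 := differential_rX hε h0 (0, I)
      rw [h] at h1
      have hQ := Qf_pos hε (pX_DY x)
      have h2 : 0 < (Qf ε (pX x))⁻¹ := inv_pos.mpr hQ
      simp at h1
      exact hQ.ne' h1
  · intro x hx v h1 h2
    have h0 := im_zero_of hε (x := x) (by have := (frontier_iff hε x).mp hx; linarith)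
    rw [differential_rX hε h0] at h1 h2
    have hQ := Qf_pos hε (pX_DY x)
    have h2' : (Qf ε (pX x))⁻¹ ≠ 0 := (inv_pos.mpr hQ).ne'
    have a1 : v.2.im = 0 := by
      rcases mul_eq_zero.mp (neg_eq_zero.mp h1) with h | h
      · exact h
      · exact absurd h h2'
    have a2 : (I • v).2.im = 0 := by
      rcases mul_eq_zero.mp (neg_eq_zero.mp h2) with h | h
      · exact h
      · exact absurd h h2'
    unfold leviForm
    rw [chart_self, lev_congr (inChart_rX ε x)]
    rw [lev_of_jet (jet_rr hε (pX_DY x) h0 v) (jet_rr hε (pX_DY x) h0 (I • v)), a1, a2]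
    ring
  · refine ⟨η, hη0, hη1, {x | rX ε x < δ}, isOpen_lt (rX_continuous hε) continuous_const, ?_, ?_⟩
    · intro x hx
      have := (frontier_iff hε x).mp hx
      show rX ε x < δ
      linarith
    · rintro x ⟨hx1, hx2⟩
      have hr0 : 0 < rr ε (pX x) := by
        have : -rX ε x < 0 := hx1
        unfold rX at this
        linarith
      have hrδ : rr ε (pX x) < δ := hx2
      have him := (im_pos_of hε (pX_DY x)).mp hr0
      have he : inChart (fun y => -(- -rX ε y) ^ η) x =ᶠ[𝓝 (pX x)] fun p => -(rr ε p) ^ η := by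
        filter_upwards [nhds_DY x] with p hp
        show -(- -rX ε (pr p)) ^ η = _
        rw [rX_pr ε hp, neg_neg]
      constructor
      · unfold SmoothAt
        rw [chart_self]
        have h1 : ContDiffAt ℝ ((2 : ℕ∞) : WithTop ℕ∞) (rr ε) (pX x) :=
          ((contDiffOn_rr hε).contDiffAt (nhds_DY x)).of_le (by norm_cast)
        exact ((h1.rpow_const_of_ne hr0.ne').neg).congr_of_eventuallyEq he
      · intro v hv
        unfold leviForm
        rw [chart_self, lev_congr he]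
        exact hpsh _ (pX_DY x) him hrδ v hv
  · have him : ∀ x : X, x ∈ {x : X | -rX ε x < 0} → 0 < (pX x).2.im := by
      intro x hx
      have : -rX ε x < 0 := hx
      unfold rX at this
      exact (im_pos_of hε (pX_DY x)).mp (by linarith)
    refine ⟨fX, fun x hx => (fX_mdiff (him x hx)).mdifferentiableWithinAt,
      fun x hx => FF_norm_le (him x hx), ?_⟩
    obtain ⟨w, hw, hne⟩ := FF_nonconst
    have hD : ∀ u : ℂ, ((2, u) : ℂ × ℂ) ∈ DY := fun u => F1c_sub two_F1c
    have hmem : ∀ u : ℂ, 0 < u.im → pr (2, u) ∈ {x : X | -rX ε x < 0} := by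
      intro u hu
      rw [Om_eq hε]
      exact ⟨(2, u), ⟨hD u, hu⟩, rfl⟩
    refine ⟨pr (2, w), hmem w hw, pr (2, I), hmem I (by simp), ?_⟩
    rw [fX_pr (hD w) hw, fX_pr (hD I) (by simp)]
    exact hne

end Pool.Agent.H914R3.LF
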